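import Mathlib.Analysis.InnerProductSpace.PiL2

/-! Faces, circumscribability, sewing and lexicographic liftings. -/

set_option autoImplicit false

open Classical

namespace Pool.Agent.MP_04a200_co

/-- Euclidean `d`-space -/
abbrev E (d : ℕ) := EuclideanSpace ℝ (Fin d)

/-- `S` is the set of points of `V` on a supporting hyperplane of `V` -/
def IsFace {d : ℕ} (V S : Finset (E d)) : Prop :=
  ∃ w : E d, ∃ c : ℝ, ∀ v ∈ V, inner ℝ w v ≤ c ∧ (inner ℝ w v = c ↔ v ∈ S)

/-- some full-dimensional polytope with the same faces as the convex hull of `V` has all its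
facets tangent to the unit sphere -/
def Circumscribable {d : ℕ} (V : Finset (E d)) : Prop :=
  ∃ W : Finset (E d), ∃ f : E d → E d,
    affineSpan ℝ (W : Set (E d)) = ⊤ ∧ Set.BijOn f (V : Set (E d)) (W : Set (E d)) ∧
    (∀ S : Finset (E d), S ⊆ V → (IsFace V S ↔ IsFace W (S.image f))) ∧
    ∀ F : Finset (E d), F ⊆ W → Module.finrank ℝ (vectorSpan ℝ (F : Set (E d))) = d - 1 →
      IsFace W F → ∃ u : E d, ‖u‖ = 1 ∧ ∀ v ∈ W, inner ℝ u v ≤ 1 ∧ (inner ℝ u v = 1 ↔ v ∈ F)

/-- every set of points of `V` with at most two points outside `σ` is a face -/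
def NeighborlyOver {d : ℕ} (V σ : Finset (E d)) : Prop :=
  σ ⊆ V ∧ ∀ S : Finset (E d), S ⊆ V → (S \ σ).card ≤ 2 → IsFace V S

/-- `x y` is a universal edge of the quotient of `V` by `σ` -/
def UnivEdge {d : ℕ} (V σ : Finset (E d)) (x y : E d) : Prop :=
  ∀ t ∈ V, IsFace V (σ ∪ {x, y, t})

/-- `u` lies on a path `x m z` of two universal edges of the quotient of `V` by `σ` -/
def OnUnivPath {d : ℕ} (V σ : Finset (E d)) (u : E d) : Prop :=
  ∃ x ∈ V \ σ, ∃ m ∈ V \ σ, ∃ z ∈ V \ σ, x ≠ m ∧ x ≠ z ∧ m ≠ z ∧ (u = x ∨ u = m ∨ u = z) ∧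
    UnivEdge V σ x m ∧ UnivEdge V σ m z

/-- one can remove, `k` times in a row, a point lying on a path of two universal edges -/
def SewnTimes {d : ℕ} (σ : Finset (E d)) : ℕ → Finset (E d) → Prop
  | 0, _ => True
  | k + 1, V => ∃ u, OnUnivPath V σ u ∧ SewnTimes σ k (V.erase u)

end Pool.Agent.MP_04a200_co
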