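import Mathlib.Analysis.Convex.Independent
import Pool.Agent.MP_04a200_co.Defs

/-! Lexicographic liftings and Gale sewn configurations. -/

set_option autoImplicit false

namespace Pool.Agent.MP_04a200_co

/-- the point `(x, 0)` -/
def emb {d : ℕ} (x : E d) : E (d + 1) := WithLp.toLp 2 (Fin.snoc (α := fun _ => ℝ) x.ofLp 0)

/-- the last point of `B` (the apex) is off the hyperplane of points `(x, 0)`, and the `i`-th point
of `B` is on the open half-line from the apex through `(A i, 0)` -/
def RayLift {d n : ℕ} (A : Fin n → E d) (B : Fin (n + 1) → E (d + 1)) : Prop :=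
  B (Fin.last n) (Fin.last d) ≠ 0 ∧
    ∀ i : Fin n, ∃ t : ℝ, 0 < t ∧
      B i.castSucc = B (Fin.last n) + t • (emb (A i) - B (Fin.last n))

/-- lexicographic lifting with signs `ε`: the `i`-th point and the apex are strictly on the same
side (`ε i = true`) or on opposite sides (`ε i = false`) of every hyperplane spanned by `d + 1`
earlier points -/
def LexLift {d n : ℕ} (ε : Fin n → Bool) (A : Fin n → E d) (B : Fin (n + 1) → E (d + 1)) : Prop :=
  RayLift A B ∧
    ∀ (i : Fin n) (J : Fin (d + 1) → Fin n), (∀ k, J k < i) →
      AffineIndependent ℝ (fun k => B (J k).castSucc) →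
      ∀ (w : E (d + 1)) (c : ℝ), w ≠ 0 → (∀ k, inner ℝ w (B (J k).castSucc) = c) →
        if ε i then 0 < (inner ℝ w (B i.castSucc) - c) * (inner ℝ w (B (Fin.last n)) - c)
        else (inner ℝ w (B i.castSucc) - c) * (inner ℝ w (B (Fin.last n)) - c) < 0

/-- configurations obtained from a convex polygon by a lexicographic lifting, a positive
lexicographic lifting, and then any number of relabellings and liftings along rays -/
inductive GaleLifted : (d n : ℕ) → (Fin n → E d) → Prop
  | base {m : ℕ} (A : Fin m → E 2) (ε : Fin m → Bool) (B : Fin (m + 1) → E 3)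
      (C : Fin (m + 2) → E 4) : ConvexIndependent ℝ A → LexLift ε A B →
      LexLift (fun _ => true) B C → GaleLifted 4 (m + 2) C
  | lift {d n : ℕ} (A : Fin n → E d) (π : Equiv.Perm (Fin n)) (B : Fin (n + 1) → E (d + 1)) :
      GaleLifted d n A → RayLift (A ∘ π) B → GaleLifted (d + 1) (n + 1) B

end Pool.Agent.MP_04a200_co
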