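import Pool.Agent.MP_04a200_co.Sign

/-! How facets change when a vertex is sewn on. -/

set_option autoImplicit false

namespace Pool.Agent.MP_04a200_co

open Finset

namespace Chi

variable {α : Type} [DecidableEq α] {χ : Chi α} {G : Finset α}

/-- `y` is sewn on the edge `x z` -/
structure Step (χ : Chi α) (G : Finset α) (x y z : α) : Prop where
  hy : y ∉ G
  hx : x ∈ G
  hz : z ∈ G
  xz : x ≠ z
  i1 : χ.Insep (insert y G) x y
  i2 : χ.Insep (insert y G) y z

variable {x y z : α}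

lemma Step.symm (S : χ.Step G x y z) : χ.Step G z y x :=
  ⟨S.hy, S.hz, S.hx, S.xz.symm, S.i2.symm, S.i1.symm⟩

lemma Step.insep (S : χ.Step G x y z) : χ.Insep G x z := by
  intro a ha b hb c hc d hd h1 h2
  have hy := S.hy
  rw [S.i1 a (by grind) b (by grind) c (by grind) d (by grind) h1 (by grind),
    S.i2 a (by grind) b (by grind) c (by grind) d (by grind) (by grind) h2]

lemma fac_keep {u b a1 a2 a3 a4 : α} (hu : u ∉ G) (hb : b ∈ G) (hI : χ.Insep (insert u G) b u)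
    (h1 : a1 ∈ G) (h2 : a2 ∈ G) (h3 : a3 ∈ G) (h4 : a4 ∈ G) (hn : b ∉ [a1, a2, a3, a4])
    (h : χ.Fac G a1 a2 a3 a4) : χ.Fac (insert u G) a1 a2 a3 a4 := by
  obtain ⟨ε, e1, e2⟩ := h
  refine ⟨ε, e1, fun t ht nt => ?_⟩
  rcases mem_insert.mp ht with rfl | ht
  · rw [← hI a1 (by grind) a2 (by grind) a3 (by grind) a4 (by grind) hn nt]
    exact e2 b hb hn
  · exact e2 t ht nt

lemma Step.keep (S : χ.Step G x y z) {a b c d : α} (ha : a ∈ G) (hb : b ∈ G) (hc : c ∈ G)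
    (hd : d ∈ G) (hn : x ∉ [a, b, c, d] ∨ z ∉ [a, b, c, d]) (h : χ.Fac G a b c d) :
    χ.Fac (insert y G) a b c d := by
  rcases hn with hn | hn
  · exact fac_keep S.hy S.hx S.i1 ha hb hc hd hn h
  · exact fac_keep S.hy S.hz S.i2.symm ha hb hc hd hn h

lemma Step.aux (S : χ.Step G x y z) {c c' t : α} (hc : c ∈ G) (hc' : c' ∈ G) (ht : t ∈ G)
    (hn : z ∉ [c, c', t]) : χ.s x y c c' t = χ.s x z c c' t := by
  have hy := S.hy
  have hx := S.hx
  have xz := S.xz
  have := S.i2 x (by grind) c (by grind) c' (by grind) t (by grind) (by grind) (by grind)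
  rw [χ.c2345 x y, χ.c2345 x z] at this
  omega

lemma Step.half (S : χ.Step G x y z) {c c' : α} {ε : ℤ} (hc : c ∈ G) (hc' : c' ∈ G)
    (nc : z ∉ [c, c']) (e1 : ε = 1 ∨ ε = -1)
    (e2 : ∀ t ∈ G, t ∉ [x, z, c, c'] → χ.s x z c c' t = ε) (e3 : χ.s x z c c' y = -ε) :
    χ.Fac (insert y G) x y c c' := by
  refine ⟨ε, e1, fun t ht nt => ?_⟩
  have ht' : t ∈ G := by grind
  by_cases htz : t = z
  · rw [htz, χ.sw25 x z c c' y, e3]; ring
  · rw [S.aux hc hc' ht' (by grind)]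
    exact e2 t ht' (by grind)

lemma Step.split (S : χ.Step G x y z) (hN : χ.Nz (insert y G)) {c c' : α} (hc : c ∈ G)
    (hc' : c' ∈ G) (hn : [x, z, c, c'].Nodup) (h : χ.Fac G x z c c') :
    χ.Fac (insert y G) x z c c' ∨ (χ.Fac (insert y G) x y c c' ∧ χ.Fac (insert y G) y z c c') := by
  obtain ⟨ε, e1, e2⟩ := h
  have hy := S.hy
  have hx := S.hx
  have hz := S.hz
  have h0 := hN x (by grind) z (by grind) c (by grind) c' (by grind) y (by grind) (by grind)
  by_cases h1 : χ.s x z c c' y = ε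
  · left
    refine ⟨ε, e1, fun t ht nt => ?_⟩
    rcases mem_insert.mp ht with rfl | ht
    · exact h1
    · exact e2 t ht nt
  · right
    have e3 : χ.s x z c c' y = -ε := by omega
    refine ⟨S.half hc hc' (by grind) e1 e2 e3, Fac.f1 ?_⟩
    refine S.symm.half (ε := -ε) hc hc' (by grind) (by omega) (fun t ht nt => ?_) ?_
    · rw [χ.sw1, e2 t ht (by grind)]
    · rw [χ.sw1, e3]

lemma Step.surv (S : χ.Step G x y z) (hP : χ.Pol (insert y G) x y) {c c' : α} (hc : c ∈ G)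
    (hc' : c' ∈ G) (hn : [x, z, c, c'].Nodup) (h : χ.Fac (insert y G) x z c c') :
    χ.Fac (insert y G) x y z c := by
  obtain ⟨ε, e1, e2⟩ := h
  have hy := S.hy
  have hx := S.hx
  have hz := S.hz
  have a1 := e2 y (by grind) (by grind)
  have a2 := χ.sw25 x z c c' y
  have a3 := χ.c345 x y z c c'
  refine ⟨-ε, by omega, fun t ht nt => ?_⟩
  by_cases htc : t = c'
  · rw [htc]; omega
  · have ht' : t ∈ G := by grind
    have b1 := hP.ci z (by grind) c (by grind) c' (by grind) t ht (by grind)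
    have b2 := S.aux hc hc' ht' (by grind)
    have b3 := e2 t ht (by grind)
    have b4 := hP.nz z (by grind) c' (by grind) t ht (by grind)
    have b5 := hP.nz z (by grind) c (by grind) t ht (by grind)
    omega

omit [DecidableEq α] in
lemma ridge {c c' d : α} (hc : c ∈ G) (hc' : c' ∈ G) (hd : d ∈ G) (hn : [x, y, z, c, c', d].Nodup)
    (h1 : χ.Fac G x y z c) (h2 : χ.Fac G x y z c') (h3 : χ.Fac G x y z d) : False := by
  obtain ⟨ε1, a1, b1⟩ := h1
  obtain ⟨ε2, a2, b2⟩ := h2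
  obtain ⟨ε3, a3, b3⟩ := h3
  have := b1 c' hc' (by grind)
  have := b1 d hd (by grind)
  have := b2 c hc (by grind)
  have := b2 d hd (by grind)
  have := b3 c hc (by grind)
  have := b3 c' hc' (by grind)
  have := χ.sw4 x y z c c'
  have := χ.sw4 x y z c d
  have := χ.sw4 x y z c' d
  omega

lemma Step.uniq (S : χ.Step G x y z) (hP : χ.Pol (insert y G) x y) {c c' d d' : α} (hc : c ∈ G)
    (hc' : c' ∈ G) (hd : d ∈ G) (hd' : d' ∈ G) (hn : [x, z, c, c', d].Nodup)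
    (hn' : [x, z, d, d'].Nodup) (h1 : χ.Fac (insert y G) x z c c')
    (h2 : χ.Fac (insert y G) x z d d') : False := by
  have hy := S.hy
  have hx := S.hx
  have hz := S.hz
  exact ridge (G := insert y G) (c := c) (c' := c') (d := d) (by grind) (by grind) (by grind)
    (by grind) (S.surv hP hc hc' (by grind) h1) (S.surv hP hc' hc (by grind) h1.f3)
    (S.surv hP hd hd' hn' h2)

/-- a family of disjoint paths with five vertices, avoiding the list `S` -/
structure Fam (G : Finset α) (I : Finset ℕ) (a : ℕ → ℕ → α) (S : List α) : Prop where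
  mem : ∀ i ∈ I, ∀ k < 5, a i k ∈ G
  av : ∀ i ∈ I, ∀ k < 5, a i k ∉ S
  inj : ∀ i ∈ I, ∀ j ∈ I, ∀ k < 5, ∀ l < 5, a i k = a j l → i = j ∧ k = l

/-- the edge `p q` is joined to all edges of the paths -/
def J (χ : Chi α) (G : Finset α) (I : Finset ℕ) (a : ℕ → ℕ → α) (p q : α) : Prop :=
  ∀ i ∈ I, ∀ k < 4, χ.Fac G p q (a i k) (a i (k + 1))

variable {I : Finset ℕ} {a : ℕ → ℕ → α} {S : List α}

omit [DecidableEq α] in
lemma J.mono {I' : Finset ℕ} {p q : α} (h : χ.J G I a p q) (hs : I' ⊆ I) : χ.J G I' a p q :=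
  fun i hi => h i (hs hi)

omit [DecidableEq α] in
lemma J.symm {p q : α} (h : χ.J G I a p q) : χ.J G I a q p :=
  fun i hi k hk => (h i hi k hk).f1

lemma Fam.step {I' : Finset ℕ} {S' : List α} (h : Fam G I a S) (hs : I' ⊆ I) (hy : y ∉ G)
    (hS : ∀ v ∈ S', v ∈ S ∨ v = y) : Fam (insert y G) I' a S' := by
  refine ⟨fun i hi k hk => mem_insert_of_mem (h.mem i (hs hi) k hk), fun i hi k hk hv => ?_,
    fun i hi j hj => h.inj i (hs hi) j (hs hj)⟩
  rcases hS _ hv with h1 | h1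
  · exact h.av i (hs hi) k hk h1
  · exact hy (h1 ▸ h.mem i (hs hi) k hk)

lemma Fam.avoid1 (h : Fam G I a S) (x : α) :
    ∃ I' ⊆ I, I.card ≤ I'.card + 1 ∧ ∀ i ∈ I', ∀ k < 5, a i k ≠ x := by
  classical
  let P : ℕ → Prop := fun i => ∀ k < 5, a i k ≠ x
  refine ⟨I.filter P, filter_subset _ _, ?_, fun i hi => (mem_filter.mp hi).2⟩
  rw [← card_filter_add_card_filter_not (s := I) P]
  refine Nat.add_le_add_left (card_le_one.mpr fun i hi j hj => ?_) _
  simp only [P, mem_filter, not_forall, not_not] at hi hj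
  obtain ⟨hi, k, hk, e1⟩ := hi
  obtain ⟨hj, l, hl, e2⟩ := hj
  exact (h.inj i hi j hj k hk l hl (e1.trans e2.symm)).1

omit [DecidableEq α] in
lemma Fam.sub {I' : Finset ℕ} (h : Fam G I a S) (hs : I' ⊆ I) : Fam G I' a S :=
  ⟨fun i hi => h.mem i (hs hi), fun i hi => h.av i (hs hi),
    fun i hi j hj => h.inj i (hs hi) j (hs hj)⟩

lemma Fam.avoid (h : Fam G I a S) (x z : α) :
    ∃ I' ⊆ I, I.card ≤ I'.card + 2 ∧ ∀ i ∈ I', ∀ k < 5, a i k ≠ x ∧ a i k ≠ z := by
  obtain ⟨I1, s1, c1, h1⟩ := h.avoid1 x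
  obtain ⟨I2, s2, c2, h2⟩ := (h.sub s1).avoid1 z
  exact ⟨I2, s2.trans s1, by omega, fun i hi k hk => ⟨h1 i (s2 hi) k hk, h2 i hi k hk⟩⟩

lemma Step.jkeep (St : χ.Step G x y z) (h : Fam G I a S)
    (hav : ∀ i ∈ I, ∀ k < 5, a i k ≠ x ∧ a i k ≠ z) {p q : α} (hp : p ∈ G) (hq : q ∈ G)
    (hn : x ∉ [p, q] ∨ z ∉ [p, q]) (hJ : χ.J G I a p q) : χ.J (insert y G) I a p q := by
  intro i hi k hk
  have h1 := hav i hi k (by omega)
  have h2 := hav i hi (k + 1) (by omega)
  exact St.keep hp hq (h.mem i hi k (by omega)) (h.mem i hi (k + 1) (by omega)) (by grind)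
    (hJ i hi k hk)

lemma Step.jsplit0 (St : χ.Step G x y z) (hN : χ.Nz (insert y G)) (hC : χ.Circ (insert y G))
    (h : Fam G I a S) (hx : x ∈ S) (hz : z ∈ S) (hJ : χ.J G I a x z) :
    ∃ I' ⊆ I, I.card ≤ I'.card + 1 ∧ χ.J (insert y G) I' a x y ∧ χ.J (insert y G) I' a y z := by
  classical
  have hP := pol_of hN hC (mem_insert_of_mem St.hx) (mem_insert_self _ _) St.i1
  have xz := St.xz
  have nd : ∀ i ∈ I, ∀ k < 4, [x, z, a i k, a i (k + 1)].Nodup := by
    intro i hi k hk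
    have := h.av i hi k (by omega)
    have := h.av i hi (k + 1) (by omega)
    have := h.inj i hi i hi k (by omega) (k + 1) (by omega)
    grind
  let P : ℕ → Prop := fun i => ∀ k < 4, ¬ χ.Fac (insert y G) x z (a i k) (a i (k + 1))
  have key : ∀ i ∈ I.filter P, ∀ k < 4, χ.Fac (insert y G) x y (a i k) (a i (k + 1)) ∧
      χ.Fac (insert y G) y z (a i k) (a i (k + 1)) := by
    intro i hi k hk
    obtain ⟨hi, hp⟩ := mem_filter.mp hi
    exact (St.split hN (h.mem i hi k (by omega)) (h.mem i hi (k + 1) (by omega)) (nd i hi k hk)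
      (hJ i hi k hk)).resolve_left (hp k hk)
  refine ⟨I.filter P, filter_subset _ _, ?_, fun i hi k hk => (key i hi k hk).1,
    fun i hi k hk => (key i hi k hk).2⟩
  rw [← card_filter_add_card_filter_not (s := I) P]
  refine Nat.add_le_add_left (card_le_one.mpr fun i hi j hj => ?_) _
  simp only [P, mem_filter, not_forall, not_not] at hi hj
  obtain ⟨hi, k, hk, e1⟩ := hi
  obtain ⟨hj, l, hl, e2⟩ := hj
  by_contra hne
  have n1 := nd i hi k hk
  have n2 := nd j hj l hl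
  have n3 := h.inj i hi j hj k (by omega) l (by omega)
  have n4 := h.inj i hi j hj (k + 1) (by omega) l (by omega)
  exact St.uniq hP (h.mem i hi k (by omega)) (h.mem i hi (k + 1) (by omega))
    (h.mem j hj l (by omega)) (h.mem j hj (l + 1) (by omega)) (by grind) n2 e1 e2

lemma Step.jsplit (St : χ.Step G x y z) (hN : χ.Nz (insert y G)) (hC : χ.Circ (insert y G))
    (h : Fam G I a S) {p q : α} (hp : p ∈ S) (hq : q ∈ S) (hx : x ∈ [p, q]) (hz : z ∈ [p, q])
    (hJ : χ.J G I a p q) :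
    ∃ I' ⊆ I, I.card ≤ I'.card + 1 ∧ χ.J (insert y G) I' a p y ∧ χ.J (insert y G) I' a y q ∧
      ∀ i ∈ I', ∀ k < 5, a i k ≠ x ∧ a i k ≠ z := by
  have xz := St.xz
  have hav : ∀ i ∈ I, ∀ k < 5, a i k ≠ x ∧ a i k ≠ z := by
    intro i hi k hk
    have := h.av i hi k hk
    grind
  rcases (by grind : (x = p ∧ z = q) ∨ (z = p ∧ x = q)) with ⟨rfl, rfl⟩ | ⟨rfl, rfl⟩
  · obtain ⟨I', s, c, j1, j2⟩ := St.jsplit0 hN hC h hp hq hJ
    exact ⟨I', s, c, j1, j2, fun i hi => hav i (s hi)⟩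
  · obtain ⟨I', s, c, j1, j2⟩ := St.symm.jsplit0 hN hC h hp hq hJ
    exact ⟨I', s, c, j1, j2, fun i hi => hav i (s hi)⟩

/-- a path with three edges joined to `K` disjoint paths -/
def JA (χ : Chi α) (G : Finset α) (K : ℕ) : Prop :=
  ∃ v0 ∈ G, ∃ v1 ∈ G, ∃ v2 ∈ G, ∃ v3 ∈ G, [v0, v1, v2, v3].Nodup ∧ ∃ I a, K ≤ card I ∧
    Fam G I a [v0, v1, v2, v3] ∧ χ.J G I a v0 v1 ∧ χ.J G I a v1 v2 ∧ χ.J G I a v2 v3

/-- a path with two edges joined to `K` disjoint paths -/
def J2 (χ : Chi α) (G : Finset α) (K : ℕ) (b t : α) : Prop :=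
  ∃ v ∈ G, [v, b, t].Nodup ∧ ∃ I a, K ≤ card I ∧
    Fam G I a [v, b, t] ∧ χ.J G I a v b ∧ χ.J G I a b t

lemma Step.ja (St : χ.Step G x y z) (hN : χ.Nz (insert y G)) (hC : χ.Circ (insert y G)) {K : ℕ}
    (h : χ.JA G K) : χ.JA (insert y G) (K - 2) := by
  obtain ⟨v0, h0, v1, h1, v2, h2, v3, h3, hn, I, a, hK, F, j1, j2, j3⟩ := h
  have hy := St.hy
  have xz := St.xz
  by_cases c1 : x ∈ [v0, v1] ∧ z ∈ [v0, v1]
  · obtain ⟨I', s, c, k1, k2, av⟩ := St.jsplit hN hC F (by simp) (by simp) c1.1 c1.2 j1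
    exact ⟨y, by grind, v1, by grind, v2, by grind, v3, by grind, by grind, I', a, by omega,
      F.step s hy (by grind), k2,
      St.jkeep (F.sub s) av h1 h2 (by grind) (j2.mono s),
      St.jkeep (F.sub s) av h2 h3 (by grind) (j3.mono s)⟩
  by_cases c2 : x ∈ [v1, v2] ∧ z ∈ [v1, v2]
  · obtain ⟨I', s, c, k1, k2, av⟩ := St.jsplit hN hC F (by simp) (by simp) c2.1 c2.2 j2
    exact ⟨v0, by grind, v1, by grind, y, by grind, v2, by grind, by grind, I', a, by omega,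
      F.step s hy (by grind), St.jkeep (F.sub s) av h0 h1 (by grind) (j1.mono s), k1, k2⟩
  by_cases c3 : x ∈ [v2, v3] ∧ z ∈ [v2, v3]
  · obtain ⟨I', s, c, k1, k2, av⟩ := St.jsplit hN hC F (by simp) (by simp) c3.1 c3.2 j3
    exact ⟨v0, by grind, v1, by grind, v2, by grind, y, by grind, by grind, I', a, by omega,
      F.step s hy (by grind), St.jkeep (F.sub s) av h0 h1 (by grind) (j1.mono s),
      St.jkeep (F.sub s) av h1 h2 (by grind) (j2.mono s), k1⟩
  obtain ⟨I', s, c, av⟩ := F.avoid x z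
  exact ⟨v0, by grind, v1, by grind, v2, by grind, v3, by grind, hn, I', a, by omega,
    F.step s hy (by grind), St.jkeep (F.sub s) av h0 h1 (by grind) (j1.mono s),
    St.jkeep (F.sub s) av h1 h2 (by grind) (j2.mono s),
    St.jkeep (F.sub s) av h2 h3 (by grind) (j3.mono s)⟩

lemma Step.j2keep (St : χ.Step G x y z) {K : ℕ} {b t : α} (hb : b ∈ G) (ht : t ∈ G)
    (nb : b ≠ x ∧ b ≠ z) (h : χ.J2 G K b t) : χ.J2 (insert y G) (K - 2) b t := by
  obtain ⟨v, hv, hn, I, a, hK, F, j1, j2⟩ := h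
  have xz := St.xz
  obtain ⟨I', s, c, av⟩ := F.avoid x z
  exact ⟨v, by grind, hn, I', a, by omega, F.step s St.hy (by grind),
    St.jkeep (F.sub s) av hv hb (by grind) (j1.mono s),
    St.jkeep (F.sub s) av hb ht (by grind) (j2.mono s)⟩

lemma Step.j2a (St : χ.Step G x y z) (hN : χ.Nz (insert y G)) (hC : χ.Circ (insert y G)) {K : ℕ}
    (h : χ.J2 G K x z) : χ.JA (insert y G) (K - 2) := by
  obtain ⟨v, hv, hn, I, a, hK, F, j1, j2⟩ := h
  have hy := St.hy
  have hx := St.hx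
  have hz := St.hz
  obtain ⟨I', s, c, k1, k2, av⟩ := St.jsplit hN hC F (by simp) (by simp) (by simp) (by simp) j2
  exact ⟨v, by grind, x, by grind, y, by grind, z, by grind, by grind, I', a, by omega,
    F.step s hy (by grind), St.jkeep (F.sub s) av hv hx (by grind) (j1.mono s), k1, k2⟩

lemma j2_fresh (hN : χ.Nz G) (hC : χ.Circ G) {v b t : α} (hv : v ∈ G) (hb : b ∈ G) (ht : t ∈ G)
    (hn : [v, b, t].Nodup) (h1 : χ.Insep G v b) (h2 : χ.Insep G b t) {K : ℕ}
    (hK : K = 0 ∨ 5 * K + 3 ≤ G.card) : χ.J2 G K b t := by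
  obtain ⟨e, e1, -, e3, e4, -⟩ := (pol_of hN hC hv hb h1).path hv hb ht hn
  have bd : ∀ i ∈ range K, ∀ k < 5, 5 * i + k + 3 < G.card := by
    intro i hi k hk
    have := mem_range.mp hi
    omega
  have F : Fam G (range K) (fun i k => e (5 * i + k)) [v, b, t] :=
    ⟨fun i hi k hk => (e1 _ (bd i hi k hk)).1, fun i hi k hk => (e1 _ (bd i hi k hk)).2,
      fun i hi j hj k hk l hl h => by
        have := e3 _ _ (bd i hi k hk) (bd j hj l hl) h
        omega⟩
  have j1 : χ.J G (range K) (fun i k => e (5 * i + k)) v b := by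
    intro i hi k hk
    have := bd i hi (k + 1) (by omega)
    exact e4 (5 * i + k) (by omega)
  refine ⟨v, hv, hn, range K, _, by simp, F, j1, fun i hi k hk => ?_⟩
  exact fac_shift h1 h2 hv ht (F.mem i hi k (by omega)) (F.mem i hi (k + 1) (by omega)) hn
    (F.av i hi k (by omega)) (F.av i hi (k + 1) (by omega)) (j1 i hi k hk)

end Chi

end Pool.Agent.MP_04a200_co
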