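import Mathlib.Tactic.Ring.RingNF
import Mathlib.Algebra.Notation.Lemmas
import Mathlib.Data.Fintype.Sort
import Mathlib.Data.List.Lookmap

/-! Sign systems of rank five: facets, inseparable pairs, polygons. -/

set_option autoImplicit false

namespace Pool.Agent.MP_04a200_co

open Finset

/-- an alternating integer valued function of five arguments -/
structure Chi (α : Type) where
  s : α → α → α → α → α → ℤ
  sw1 : ∀ a b c d e, s b a c d e = -s a b c d e
  sw2 : ∀ a b c d e, s a c b d e = -s a b c d e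
  sw3 : ∀ a b c d e, s a b d c e = -s a b c d e
  sw4 : ∀ a b c d e, s a b c e d = -s a b c d e

namespace Chi

variable {α : Type} (χ : Chi α)

lemma cyc (a b c d e : α) : χ.s b c d e a = χ.s a b c d e := by
  rw [χ.sw4, χ.sw3, χ.sw2, χ.sw1]; ring

lemma c345 (a b c d e : α) : χ.s a b d e c = χ.s a b c d e := by
  rw [χ.sw4, χ.sw3]; ring

lemma c2345 (a b c d e : α) : χ.s a c d e b = -χ.s a b c d e := by
  rw [χ.sw4, χ.sw3, χ.sw2]; ring

lemma c234 (a b c d e : α) : χ.s a c d b e = χ.s a b c d e := by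
  rw [χ.sw3, χ.sw2]; ring

lemma c123 (a b c d e : α) : χ.s b c a d e = χ.s a b c d e := by
  rw [χ.sw2, χ.sw1]; ring

lemma c1234 (a b c d e : α) : χ.s b c d a e = -χ.s a b c d e := by
  rw [χ.sw3, χ.sw2, χ.sw1]; ring

lemma sw15 (a b c d e : α) : χ.s e b c d a = -χ.s a b c d e := by
  rw [← χ.cyc e b c d a, χ.c1234 a b c d e]

lemma sw25 (a b c d e : α) : χ.s a e c d b = -χ.s a b c d e := by
  have h1 := χ.c2345 a e c d b
  have h2 := χ.c234 a b c d e
  omega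

lemma mv (a b c d e : α) : χ.s c d a b e = χ.s a b c d e := by
  have h1 := χ.c1234 b c d a e
  have h2 := χ.c1234 a b c d e
  omega

lemma z45 (a b c d : α) : χ.s a b c d d = 0 := by
  have := χ.sw4 a b c d d; omega

def Nz (G : Finset α) : Prop :=
  ∀ a ∈ G, ∀ b ∈ G, ∀ c ∈ G, ∀ d ∈ G, ∀ e ∈ G, [a, b, c, d, e].Nodup →
    χ.s a b c d e = 1 ∨ χ.s a b c d e = -1

def Circ (G : Finset α) : Prop :=
  ∀ a ∈ G, ∀ b ∈ G, ∀ c ∈ G, ∀ d ∈ G, ∀ e ∈ G, ∀ f ∈ G, [a, b, c, d, e, f].Nodup →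
    χ.s b c d e f - χ.s a c d e f + χ.s a b d e f - χ.s a b c e f + χ.s a b c d f -
      χ.s a b c d e = 0

def Insep (G : Finset α) (x y : α) : Prop :=
  ∀ a ∈ G, ∀ b ∈ G, ∀ c ∈ G, ∀ d ∈ G, x ∉ [a, b, c, d] → y ∉ [a, b, c, d] →
    χ.s a b c d x = χ.s a b c d y

def Fac (G : Finset α) (a b c d : α) : Prop :=
  ∃ ε : ℤ, (ε = 1 ∨ ε = -1) ∧ ∀ t ∈ G, t ∉ [a, b, c, d] → χ.s a b c d t = ε

/-- the quotient by `x, y` is a convex polygon -/
structure Pol (G : Finset α) (x y : α) : Prop where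
  nz : ∀ a ∈ G, ∀ b ∈ G, ∀ c ∈ G, [x, y, a, b, c].Nodup → χ.s x y a b c = 1 ∨ χ.s x y a b c = -1
  ci : ∀ a ∈ G, ∀ b ∈ G, ∀ c ∈ G, ∀ d ∈ G, [x, y, a, b, c, d].Nodup →
    χ.s x y b c d - χ.s x y a c d + χ.s x y a b d - χ.s x y a b c = 0

variable {χ} {G G' : Finset α}

lemma Nz.mono (h : χ.Nz G') (hs : G ⊆ G') : χ.Nz G :=
  fun a ha b hb c hc d hd e he => h a (hs ha) b (hs hb) c (hs hc) d (hs hd) e (hs he)

lemma Circ.mono (h : χ.Circ G') (hs : G ⊆ G') : χ.Circ G :=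
  fun a ha b hb c hc d hd e he f hf =>
    h a (hs ha) b (hs hb) c (hs hc) d (hs hd) e (hs he) f (hs hf)

lemma Insep.mono {x y : α} (h : χ.Insep G' x y) (hs : G ⊆ G') : χ.Insep G x y :=
  fun a ha b hb c hc d hd => h a (hs ha) b (hs hb) c (hs hc) d (hs hd)

lemma Insep.symm {x y : α} (h : χ.Insep G x y) : χ.Insep G y x :=
  fun a ha b hb c hc d hd h1 h2 => (h a ha b hb c hc d hd h2 h1).symm

lemma Pol.mono {x y : α} (h : χ.Pol G' x y) (hs : G ⊆ G') : χ.Pol G x y :=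
  ⟨fun a ha b hb c hc => h.nz a (hs ha) b (hs hb) c (hs hc),
    fun a ha b hb c hc d hd => h.ci a (hs ha) b (hs hb) c (hs hc) d (hs hd)⟩

lemma Fac.f1 {a b c d : α} (h : χ.Fac G a b c d) : χ.Fac G b a c d := by
  obtain ⟨ε, h1, h2⟩ := h
  refine ⟨-ε, by omega, fun t ht hn => ?_⟩
  rw [χ.sw1, h2 t ht (by grind)]

lemma Fac.f3 {a b c d : α} (h : χ.Fac G a b c d) : χ.Fac G a b d c := by
  obtain ⟨ε, h1, h2⟩ := h
  refine ⟨-ε, by omega, fun t ht hn => ?_⟩
  rw [χ.sw3, h2 t ht (by grind)]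

lemma Fac.f2 {a b c d : α} (h : χ.Fac G a b c d) : χ.Fac G a c b d := by
  obtain ⟨ε, h1, h2⟩ := h
  refine ⟨-ε, by omega, fun t ht hn => ?_⟩
  rw [χ.sw2, h2 t ht (by grind)]

lemma Fac.mv {a b c d : α} (h : χ.Fac G a b c d) : χ.Fac G c d a b := by
  obtain ⟨ε, h1, h2⟩ := h
  refine ⟨ε, h1, fun t ht hn => ?_⟩
  rw [χ.mv, h2 t ht (by grind)]

lemma pol_of (hN : χ.Nz G) (hC : χ.Circ G) {x y : α} (hx : x ∈ G) (hy : y ∈ G)
    (h : χ.Insep G x y) : χ.Pol G x y := by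
  refine ⟨fun a ha b hb c hc => hN x hx y hy a ha b hb c hc, fun a ha b hb c hc d hd hn => ?_⟩
  have h1 := hC x hx y hy a ha b hb c hc d hd hn
  have h2 := h a ha b hb c hc d hd (by grind) (by grind)
  rw [χ.cyc x, χ.cyc y] at h2
  omega

lemma Pol.trans {x y t b c d : α} (h : χ.Pol G x y) (ht : t ∈ G) (hn : [x, y, t].Nodup)
    (hb : b ∈ G) (hc : c ∈ G) (hd : d ∈ G) (nb : b ∉ [x, y, t]) (nc : c ∉ [x, y, t])
    (nd : d ∉ [x, y, t]) (h1 : χ.s x y t b c = 1) (h2 : χ.s x y t c d = 1) :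
    χ.s x y t b d = 1 ∧ χ.s x y b c d = 1 := by
  have bc : b ≠ c := by rintro rfl; rw [χ.z45] at h1; omega
  have cd : c ≠ d := by rintro rfl; rw [χ.z45] at h2; omega
  have bd : b ≠ d := by rintro rfl; rw [χ.sw4] at h1; omega
  have e1 := h.ci t ht b hb c hc d hd (by grind)
  have e2 := h.nz t ht b hb d hd (by grind)
  have e3 := h.nz b hb c hc d hd (by grind)
  omega

lemma Pol.enum [DecidableEq α] {x y t : α} (h : χ.Pol G x y) (hx : x ∈ G) (hy : y ∈ G)
    (ht : t ∈ G) (hn : [x, y, t].Nodup) :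
    ∃ e : ℕ → α, (∀ i, i + 3 < G.card → e i ∈ G ∧ e i ∉ [x, y, t]) ∧
      (∀ b ∈ G, b ∉ [x, y, t] → ∃ i, i + 3 < G.card ∧ e i = b) ∧
      (∀ i j, i < j → j + 3 < G.card → χ.s x y t (e i) (e j) = 1) := by
  classical
  set H := G \ {x, y, t} with hH
  have hm : ∀ b, b ∈ H ↔ b ∈ G ∧ b ∉ [x, y, t] := by intro b; simp [hH]
  have hc : H.card + 3 = G.card := by
    have h3 : ({x, y, t} : Finset α).card = 3 := by
      rw [card_eq_three]; exact ⟨x, y, t, by grind, by grind, by grind, rfl⟩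
    rw [hH, ← h3, card_sdiff_add_card_eq_card]
    intro v hv
    grind
  let r : H → H → Prop := fun b c => χ.s x y t b c = 1
  have : IsStrictTotalOrder H r :=
    { trichotomous := by
        intro b c h1 h2
        by_contra hne
        have hb := (hm b).1 b.2
        have hc := (hm c).1 c.2
        have hne' : (b : α) ≠ c := fun h => hne (Subtype.ext h)
        have e1 := h.nz t ht b hb.1 c hc.1 (by grind)
        have e2 := χ.sw4 x y t b c
        simp only [r] at h1 h2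
        omega
      irrefl := by
        intro b; simp only [r, χ.z45]; omega
      trans := by
        intro b c d h1 h2
        have hb := (hm b).1 b.2
        have hc := (hm c).1 c.2
        have hd := (hm d).1 d.2
        exact (h.trans ht hn hb.1 hc.1 hd.1 hb.2 hc.2 hd.2 h1 h2).1 }
  let _ : LinearOrder H := linearOrderOfSTO r
  let φ := monoEquivOfFin H (k := H.card) (by simp)
  refine ⟨fun i => if hi : i < H.card then φ ⟨i, hi⟩ else t, fun i hi => ?_, fun b hb nb => ?_,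
    fun i j hij hj => ?_⟩
  · have hi' : i < H.card := by omega
    simp only [hi', dite_true]
    exact (hm _).1 (φ ⟨i, hi'⟩).2
  · obtain ⟨k, hk⟩ := φ.surjective ⟨b, (hm b).2 ⟨hb, nb⟩⟩
    refine ⟨k, by omega, ?_⟩
    simp [hk]
  · have hi' : i < H.card := by omega
    have hj' : j < H.card := by omega
    simp only [hi', hj', dite_true]
    exact φ.strictMono (show (⟨i, hi'⟩ : Fin H.card) < ⟨j, hj'⟩ from hij)

/-- the vertices of the polygon other than `t`, in their order along the boundary -/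
lemma Pol.path [DecidableEq α] {x y t : α} (h : χ.Pol G x y) (hx : x ∈ G) (hy : y ∈ G)
    (ht : t ∈ G) (hn : [x, y, t].Nodup) :
    ∃ e : ℕ → α, (∀ i, i + 3 < G.card → e i ∈ G ∧ e i ∉ [x, y, t]) ∧
      (∀ b ∈ G, b ∉ [x, y, t] → ∃ i, i + 3 < G.card ∧ e i = b) ∧
      (∀ i j, i + 3 < G.card → j + 3 < G.card → e i = e j → i = j) ∧
      (∀ i, i + 4 < G.card → χ.Fac G x y (e i) (e (i + 1))) ∧ χ.Fac G x y t (e 0) := by
  obtain ⟨e, h1, h2, h3⟩ := h.enum hx hy ht hn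
  have h4 : ∀ i j k, i < j → j < k → k + 3 < G.card → χ.s x y (e i) (e j) (e k) = 1 := by
    intro i j k a b c
    exact (h.trans ht hn (h1 i (by omega)).1 (h1 j (by omega)).1 (h1 k c).1 (h1 i (by omega)).2
      (h1 j (by omega)).2 (h1 k c).2 (h3 i j a (by omega)) (h3 j k b c)).2
  refine ⟨e, h1, h2, fun i j hi hj hij => ?_, fun i hi => ⟨1, by omega, fun w hw nw => ?_⟩,
    ⟨1, by omega, fun w hw nw => ?_⟩⟩
  · by_contra hne
    rcases lt_or_gt_of_ne hne with a | a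
    · have := h3 i j a hj; rw [hij, χ.z45] at this; omega
    · have := h3 j i a hi; rw [hij, χ.z45] at this; omega
  · by_cases hwt : w = t
    · rw [hwt, χ.c345]; exact h3 i (i + 1) (by omega) (by omega)
    obtain ⟨k, hk, rfl⟩ := h2 w hw (by grind)
    have k1 : k ≠ i := by rintro rfl; simp at nw
    have k2 : k ≠ i + 1 := by rintro rfl; simp at nw
    rcases lt_or_gt_of_ne k1 with a | a
    · rw [χ.c345]; exact h4 k i (i + 1) a (by omega) (by omega)
    · exact h4 i (i + 1) k (by omega) (by omega) hk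
  · obtain ⟨k, hk, rfl⟩ := h2 w hw (by grind)
    have k1 : k ≠ 0 := by rintro rfl; simp at nw
    exact h3 0 k (by omega) hk

lemma fac_insep {x y u v : α} (hP : χ.Pol G x y) (hx : x ∈ G) (hy : y ∈ G) (hu : u ∈ G)
    (hv : v ∈ G) (h : χ.Insep G u v) (hn : [x, y, u, v].Nodup) : χ.Fac G x y u v := by
  by_cases h0 : ∃ t0 ∈ G, t0 ∉ [x, y, u, v]
  · obtain ⟨t0, h1, h2⟩ := h0
    refine ⟨χ.s x y u v t0, hP.nz u hu v hv t0 h1 (by grind), fun t ht nt => ?_⟩
    by_cases htt : t = t0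
    · rw [htt]
    have e1 := hP.ci u hu v hv t ht t0 h1 (by grind)
    have e2 := h x hx y hy t ht t0 h1 (by grind) (by grind)
    rw [χ.c345 x y u, χ.c345 x y v] at e2
    omega
  · exact ⟨1, by omega, fun t ht nt => absurd ⟨t, ht, nt⟩ h0⟩

lemma fac_shift {a b t c c' : α} (h1 : χ.Insep G a b) (h2 : χ.Insep G b t) (ha : a ∈ G)
    (ht : t ∈ G) (hc : c ∈ G) (hc' : c' ∈ G) (hn : [a, b, t].Nodup)
    (nc : c ∉ [a, b, t]) (nc' : c' ∉ [a, b, t]) (h : χ.Fac G a b c c') : χ.Fac G b t c c' := by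
  obtain ⟨ε, e1, e2⟩ := h
  refine ⟨ε, e1, fun w hw nw => ?_⟩
  by_cases hwa : w = a
  · have := e2 t ht (by grind)
    have h3 := χ.sw15 a b c c' t
    have h4 := χ.sw1 t b c c' a
    rw [hwa]; omega
  · have h3 := h1 t ht c hc c' hc' w hw (by grind) (by grind)
    have h4 := h2 a ha c hc c' hc' w hw (by grind) (by grind)
    have h5 := e2 w hw (by grind)
    rw [χ.cyc a, χ.cyc b] at h3
    rw [χ.c2345 a b, χ.c2345 a t] at h4
    omega

end Chi

end Pool.Agent.MP_04a200_co
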