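import Mathlib.LinearAlgebra.Eigenspace.Basic
import Mathlib.RingTheory.Flat.TorsionFree
import Mathlib.Algebra.Order.Ring.Star
import Mathlib.Algebra.Order.Archimedean.Real.Hom
import Mathlib.Analysis.InnerProductSpace.Dual
import Mathlib.LinearAlgebra.AffineSpace.FiniteDimensional
import Mathlib.Combinatorics.Pigeonhole
import Mathlib.RingTheory.TotallySplit
import Mathlib.RingTheory.Etale.Weakly
import Pool.Agent.MP_04a200_co.Sign
import Pool.Agent.MP_04a200_co.Defs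
import Pool.Agent.MP_04a200_co.Sew

-- ======== part 0: formerly Pool.Agent.MP_04a200_co.Quad
section MrgPart0

/-! Quadrics through planes in a five dimensional space: the algebraic obstructions. -/

set_option autoImplicit false

namespace Pool.Agent.MP_04a200_co

open Finset

abbrev X5 := Fin 5 → ℝ
abbrev Fn := X5 →ₗ[ℝ] ℝ
abbrev Bil := X5 →ₗ[ℝ] X5 →ₗ[ℝ] ℝ

lemma exists_ker {m n : ℕ} (h : n < m) (M : Fin n → Fin m → ℝ) :
    ∃ c : Fin m → ℝ, c ≠ 0 ∧ ∀ i, ∑ j, M i j * c j = 0 := by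
  have h1 : LinearMap.ker (Matrix.mulVecLin (Matrix.of M)) ≠ ⊥ :=
    LinearMap.ker_ne_bot_of_finrank_lt (by simpa using h)
  obtain ⟨c, hc, hc0⟩ := Submodule.exists_mem_ne_zero_of_ne_bot h1
  refine ⟨c, hc0, fun i => ?_⟩
  have := congrFun (LinearMap.mem_ker.mp hc) i
  simpa [Matrix.mulVec, dotProduct] using this

def Inj5 (l1 l2 l3 l4 l5 : Fn) : Prop :=
  ∀ a, l1 a = 0 → l2 a = 0 → l3 a = 0 → l4 a = 0 → l5 a = 0 → a = 0

def Pl (l l' : Fn) : Prop := ∃ m1 m2 m3, Inj5 l l' m1 m2 m3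

def Sy (R : Bil) : Prop := ∀ a b, R a b = R b a

def Van (R : Bil) (l l' : Fn) : Prop :=
  ∀ a b, l a = 0 → l' a = 0 → l b = 0 → l' b = 0 → R a b = 0

lemma Van.symm {R : Bil} {l l' : Fn} (h : Van R l l') : Van R l' l :=
  fun a b h1 h2 h3 h4 => h a b h2 h1 h4 h3

/-- three pairwise non orthogonal null vectors of a plane -/
structure Tri (B : Bil) (l l' : Fn) (z1 z2 z3 : X5) : Prop where
  a1 : l z1 = 0
  a2 : l z2 = 0
  a3 : l z3 = 0
  b1 : l' z1 = 0
  b2 : l' z2 = 0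
  b3 : l' z3 = 0
  n1 : B z1 z1 = 0
  n2 : B z2 z2 = 0
  n3 : B z3 z3 = 0
  d12 : B z1 z2 ≠ 0
  d13 : B z1 z3 ≠ 0
  d23 : B z2 z3 ≠ 0

lemma span3 {B : Bil} (hB : Sy B) {l l' : Fn} (hP : Pl l l') {z1 z2 z3 : X5}
    (T : Tri B l l' z1 z2 z3) (w : X5) (h1 : l w = 0) (h2 : l' w = 0) :
    ∃ c1 c2 c3 : ℝ, w = c1 • z1 + c2 • z2 + c3 • z3 := by
  obtain ⟨m1, m2, m3, hI⟩ := hP
  obtain ⟨c, hc0, hc⟩ := exists_ker (m := 4) (n := 3) (by norm_num)
    ![![m1 z1, m1 z2, m1 z3, m1 w], ![m2 z1, m2 z2, m2 z3, m2 w], ![m3 z1, m3 z2, m3 z3, m3 w]]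
  have e0 := hc 0
  have e1 := hc 1
  have e2 := hc 2
  simp [Fin.sum_univ_four] at e0 e1 e2
  have hz : c 0 • z1 + c 1 • z2 + c 2 • z3 + c 3 • w = 0 := by
    apply hI
    · simp [T.a1, T.a2, T.a3, h1]
    · simp [T.b1, T.b2, T.b3, h2]
    · simp; linarith
    · simp; linarith
    · simp; linarith
  by_cases h3 : c 3 = 0
  · exfalso
    have hz' : c 0 • z1 + c 1 • z2 + c 2 • z3 = 0 := by simpa [h3] using hz
    have f1 := congrArg (fun x => B x z1) hz'
    have f2 := congrArg (fun x => B x z2) hz'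
    have f3 := congrArg (fun x => B x z3) hz'
    simp [T.n1, T.n2, T.n3, hB z2 z1, hB z3 z1, hB z3 z2] at f1 f2 f3
    have g0 : c 0 = 0 := by
      have : c 0 * (B z1 z2 * B z1 z3) = 0 := by
        linear_combination (1/2 : ℝ) * (B z1 z3 * f2 + B z1 z2 * f3 - B z2 z3 * f1)
      exact (mul_eq_zero.mp this).resolve_right (mul_ne_zero T.d12 T.d13)
    have g2 : c 2 = 0 := by
      rw [g0] at f2
      simpa [T.d23] using f2
    have g1 : c 1 = 0 := by
      rw [g0] at f3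
      simpa [T.d23] using f3
    apply hc0
    ext i; fin_cases i <;> simp [g0, g1, g2, h3]
  · refine ⟨-c 0 / c 3, -c 1 / c 3, -c 2 / c 3, ?_⟩
    ext i
    have := congrFun hz i
    simp at this ⊢
    field_simp
    linarith

lemma van_of_basis {B R : Bil} (hB : Sy B) (hR : Sy R) {l l' : Fn} (hP : Pl l l') {z1 z2 z3 : X5}
    (T : Tri B l l' z1 z2 z3) (r1 : R z1 z1 = 0) (r2 : R z2 z2 = 0) (r3 : R z3 z3 = 0)
    (r12 : R z1 z2 = 0) (r13 : R z1 z3 = 0) (r23 : R z2 z3 = 0) : Van R l l' := by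
  intro a b h1 h2 h3 h4
  obtain ⟨c1, c2, c3, rfl⟩ := span3 hB hP T a h1 h2
  obtain ⟨e1, e2, e3, rfl⟩ := span3 hB hP T b h3 h4
  simp [r1, r2, r3, r12, r13, r23, hR z2 z1, hR z3 z1, hR z3 z2]

lemma line_pair {R : Bil} (hR : Sy R) {l0 l1 : Fn} (hV : Van R l0 l1) {z z' : X5}
    (h1 : l1 z = 0) (h2 : l1 z' = 0) (h3 : l0 z ≠ 0) (h4 : l0 z' ≠ 0) (r : R z z = 0)
    (r' : R z' z' = 0) : R z z' = 0 := by
  have hd0 : l0 (l0 z' • z - l0 z • z') = 0 := by simp; ring
  have hd1 : l1 (l0 z' • z - l0 z • z') = 0 := by simp [h1, h2]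
  have := hV _ _ hd0 hd1 hd0 hd1
  simp [r, r', hR z' z] at this
  have h5 : (l0 z * l0 z') * R z z' = 0 := by linear_combination (-1/2 : ℝ) * this
  exact (mul_eq_zero.mp h5).resolve_left (mul_ne_zero h3 h4)

/-- propagation of vanishing through a common line -/
lemma prop_step {B R : Bil} (hB : Sy B) (hR : Sy R) {l0 l1 l2 : Fn} (hV : Van R l0 l1)
    (hP : Pl l1 l2) {z1 z2 z3 : X5} (T : Tri B l1 l2 z1 z2 z3) (h1 : l0 z1 ≠ 0) (h2 : l0 z2 ≠ 0)
    (h3 : l0 z3 ≠ 0) (r1 : R z1 z1 = 0) (r2 : R z2 z2 = 0) (r3 : R z3 z3 = 0) : Van R l1 l2 :=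
  van_of_basis hB hR hP T r1 r2 r3 (line_pair hR hV T.a1 T.a2 h1 h2 r1 r2)
    (line_pair hR hV T.a1 T.a3 h1 h3 r1 r3) (line_pair hR hV T.a2 T.a3 h2 h3 r2 r3)

lemma Sy.sub_smul {B q : Bil} (hB : Sy B) (hq : Sy q) (c : ℝ) : Sy (q - c • B) := by
  intro a b
  simp [hB a b, hq a b]

lemma null_coords {a b c s1 s2 s3 : ℝ} (ha : a ≠ 0) (hc : c ≠ 0)
    (h : a * s1 * s2 + b * s1 * s3 + c * s2 * s3 = 0) (h1 : s2 * a + s3 * b ≠ 0)
    (h2 : s1 * a + s3 * c ≠ 0) (h3 : s1 * b + s2 * c ≠ 0) : s1 ≠ 0 ∧ s3 ≠ 0 := by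
  constructor
  · rintro rfl
    have : c * (s2 * s3) = 0 := by linarith
    rcases mul_eq_zero.mp ((mul_eq_zero.mp this).resolve_left hc) with h | h
    · exact h3 (by simp [h])
    · exact h2 (by simp [h])
  · rintro rfl
    have : a * (s1 * s2) = 0 := by linarith
    rcases mul_eq_zero.mp ((mul_eq_zero.mp this).resolve_left ha) with h | h
    · exact h2 (by simp [h])
    · exact h1 (by simp [h])

/-- a conic through five points of a conic -/
lemma five_pts {B q : Bil} (hB : Sy B) (hq : Sy q) {l l' : Fn} (hP : Pl l l') {z1 z2 z3 z4 z5 : X5}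
    (T : Tri B l l' z1 z2 z3) (a4 : l z4 = 0) (b4 : l' z4 = 0) (a5 : l z5 = 0) (b5 : l' z5 = 0)
    (n4 : B z4 z4 = 0) (n5 : B z5 z5 = 0) (d14 : B z1 z4 ≠ 0) (d24 : B z2 z4 ≠ 0)
    (d34 : B z3 z4 ≠ 0) (d15 : B z1 z5 ≠ 0) (d25 : B z2 z5 ≠ 0) (d35 : B z3 z5 ≠ 0)
    (d45 : B z4 z5 ≠ 0) (q1 : q z1 z1 = 0) (q2 : q z2 z2 = 0) (q3 : q z3 z3 = 0)
    (q4 : q z4 z4 = 0) (q5 : q z5 z5 = 0) : ∃ c : ℝ, Van (q - c • B) l l' := by
  obtain ⟨s1, s2, s3, rfl⟩ := span3 hB hP T z4 a4 b4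
  obtain ⟨t1, t2, t3, rfl⟩ := span3 hB hP T z5 a5 b5
  have ha := T.d12
  have hb := T.d13
  have hc := T.d23
  simp only [map_add, map_smul, LinearMap.add_apply, LinearMap.smul_apply, smul_eq_mul, T.n1, T.n2,
    T.n3, q1, q2, q3, hB z2 z1, hB z3 z1, hB z3 z2, hq z2 z1, hq z3 z1, hq z3 z2]
    at n4 n5 d14 d24 d34 d15 d25 d35 d45 q4 q5
  set a := B z1 z2
  set b := B z1 z3
  set c := B z2 z3
  set a' := q z1 z2
  set b' := q z1 z3
  set c' := q z2 z3
  have m4 : a * s1 * s2 + b * s1 * s3 + c * s2 * s3 = 0 := by linear_combination (1/2 : ℝ) * n4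
  have m5 : a * t1 * t2 + b * t1 * t3 + c * t2 * t3 = 0 := by linear_combination (1/2 : ℝ) * n5
  have k4 : s1 * b + s2 * c ≠ 0 := fun h => d34 (by linear_combination h)
  obtain ⟨hs1, hs3⟩ := null_coords ha hc m4 (fun h => d14 (by linear_combination h))
    (fun h => d24 (by linear_combination h)) k4
  obtain ⟨ht1, ht3⟩ := null_coords ha hc m5 (fun h => d15 (by linear_combination h))
    (fun h => d25 (by linear_combination h)) (fun h => d35 (by linear_combination h))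
  set κ := a' / a with hκ
  have ha' : a' = κ * a := by rw [hκ]; field_simp
  have e4 : (b' - κ * b) * s1 + (c' - κ * c) * s2 = 0 := by
    have : s3 * ((b' - κ * b) * s1 + (c' - κ * c) * s2) = 0 := by
      rw [ha'] at q4
      linear_combination (1/2 : ℝ) * q4 - κ * m4
    exact (mul_eq_zero.mp this).resolve_left hs3
  have e5 : (b' - κ * b) * t1 + (c' - κ * c) * t2 = 0 := by
    have : t3 * ((b' - κ * b) * t1 + (c' - κ * c) * t2) = 0 := by
      rw [ha'] at q5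
      linear_combination (1/2 : ℝ) * q5 - κ * m5
    exact (mul_eq_zero.mp this).resolve_left ht3
  have hdet : s1 * t2 - s2 * t1 ≠ 0 := by
    intro h
    obtain ⟨μ, hμ⟩ : ∃ μ, t1 = μ * s1 := ⟨t1 / s1, by field_simp⟩
    have hμ0 : μ ≠ 0 := by rintro rfl; exact ht1 (by simpa using hμ)
    have h2 : t2 = μ * s2 := by
      have : s1 * (t2 - μ * s2) = 0 := by rw [hμ] at h; linear_combination h
      have := (mul_eq_zero.mp this).resolve_left hs1
      linarith
    have h3 : t3 = μ * s3 := by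
      have : (μ * (s1 * b + s2 * c)) * (t3 - μ * s3) = 0 := by
        rw [hμ, h2] at m5
        linear_combination m5 - μ ^ 2 * m4
      have := (mul_eq_zero.mp this).resolve_left (mul_ne_zero hμ0 k4)
      linarith
    apply d45
    rw [hμ, h2, h3]
    linear_combination 2 * μ * m4
  have hβ : b' - κ * b = 0 := by
    have : (b' - κ * b) * (s1 * t2 - s2 * t1) = 0 := by linear_combination t2 * e4 - s2 * e5
    exact (mul_eq_zero.mp this).resolve_right hdet
  have hγ : c' - κ * c = 0 := by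
    have : (c' - κ * c) * (s1 * t2 - s2 * t1) = 0 := by linear_combination s1 * e5 - t1 * e4
    exact (mul_eq_zero.mp this).resolve_right hdet
  refine ⟨κ, van_of_basis hB (hB.sub_smul hq κ) hP T ?_ ?_ ?_ ?_ ?_ ?_⟩
  · simp [T.n1, q1]
  · simp [T.n2, q2]
  · simp [T.n3, q3]
  · simp only [LinearMap.sub_apply, LinearMap.smul_apply, smul_eq_mul]; linarith
  · simp only [LinearMap.sub_apply, LinearMap.smul_apply, smul_eq_mul]; linarith
  · simp only [LinearMap.sub_apply, LinearMap.smul_apply, smul_eq_mul]; linarith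

/-- symmetrised product of two linear forms -/
noncomputable def sp (l m : Fn) : Bil :=
  LinearMap.mk₂ ℝ (fun a b => l a * m b + m a * l b) (by intros; simp; ring) (by intros; simp; ring)
    (by intros; simp; ring) (by intros; simp; ring)

@[simp] lemma sp_apply (l m : Fn) (a b : X5) : sp l m a b = l a * m b + m a * l b := rfl

lemma Inj5.surj {l1 l2 l3 l4 l5 : Fn} (h : Inj5 l1 l2 l3 l4 l5) (c1 c2 c3 c4 c5 : ℝ) :
    ∃ a, l1 a = c1 ∧ l2 a = c2 ∧ l3 a = c3 ∧ l4 a = c4 ∧ l5 a = c5 := by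
  let f : X5 →ₗ[ℝ] X5 := LinearMap.pi ![l1, l2, l3, l4, l5]
  have hf : Function.Injective f := by
    rw [← LinearMap.ker_eq_bot, LinearMap.ker_eq_bot']
    intro a ha
    exact h a (congrFun ha 0) (congrFun ha 1) (congrFun ha 2) (congrFun ha 3) (congrFun ha 4)
  obtain ⟨a, ha⟩ := (LinearMap.injective_iff_surjective.mp hf) ![c1, c2, c3, c4, c5]
  exact ⟨a, congrFun ha 0, congrFun ha 1, congrFun ha 2, congrFun ha 3, congrFun ha 4⟩

end Pool.Agent.MP_04a200_co

end MrgPart0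

-- ======== part 1: formerly Pool.Agent.MP_04a200_co.Det5
section MrgPart1

/-! Determinants of five vectors and their signs. -/

set_option autoImplicit false

namespace Pool.Agent.MP_04a200_co

open Finset

noncomputable def d5 (a b c d e : X5) : ℝ := Matrix.detRowAlternating ![a, b, c, d, e]

lemma det_alt {n : ℕ} (M : Fin n → Fin n → ℝ) :
    (Matrix.of M).det = Matrix.detRowAlternating M := rfl

lemma d5_eq (a b c d e : X5) (M : Matrix (Fin 5) (Fin 5) ℝ) (h : M = Matrix.of ![a, b, c, d, e]) :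
    M.det = d5 a b c d e := by
  rw [h, det_alt, d5]

lemma d5_swap (a b c d e a' b' c' d' e' : X5) (i j : Fin 5) (hij : i ≠ j)
    (h : ![a', b', c', d', e'] = ![a, b, c, d, e] ∘ Equiv.swap i j) :
    d5 a' b' c' d' e' = -d5 a b c d e := by
  unfold d5
  rw [h, AlternatingMap.map_swap _ _ hij]

lemma d5_sw1 (a b c d e : X5) : d5 b a c d e = -d5 a b c d e :=
  d5_swap _ _ _ _ _ _ _ _ _ _ 0 1 (by decide) (by funext i; fin_cases i <;> rfl)

lemma d5_sw2 (a b c d e : X5) : d5 a c b d e = -d5 a b c d e :=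
  d5_swap _ _ _ _ _ _ _ _ _ _ 1 2 (by decide) (by funext i; fin_cases i <;> rfl)

lemma d5_sw3 (a b c d e : X5) : d5 a b d c e = -d5 a b c d e :=
  d5_swap _ _ _ _ _ _ _ _ _ _ 2 3 (by decide) (by funext i; fin_cases i <;> rfl)

lemma d5_sw4 (a b c d e : X5) : d5 a b c e d = -d5 a b c d e :=
  d5_swap _ _ _ _ _ _ _ _ _ _ 3 4 (by decide) (by funext i; fin_cases i <;> rfl)

lemma d5_lin (a b c d : X5) : ∃ φ : Fn, (∀ x, φ x = d5 a b c d x) ∧ φ a = 0 ∧ φ b = 0 ∧ φ c = 0 ∧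
    φ d = 0 := by
  have h : ∃ φ : Fn, ∀ x, φ x = d5 a b c d x := by
    refine ⟨(Matrix.detRowAlternating (n := Fin 5) (R := ℝ)).toMultilinearMap.toLinearMap
      ![a, b, c, d, 0] 4, fun x => ?_⟩
    have : Function.update ![a, b, c, d, 0] 4 x = ![a, b, c, d, x] := by
      funext i; fin_cases i <;> rfl
    simp only [MultilinearMap.toLinearMap_apply, this, d5, AlternatingMap.coe_multilinearMap]
  obtain ⟨φ, hφ⟩ := h
  refine ⟨φ, hφ, ?_, ?_, ?_, ?_⟩ <;> rw [hφ]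
  · exact AlternatingMap.map_eq_zero_of_eq _ _ (i := 0) (j := 4) rfl (by decide)
  · exact AlternatingMap.map_eq_zero_of_eq _ _ (i := 1) (j := 4) rfl (by decide)
  · exact AlternatingMap.map_eq_zero_of_eq _ _ (i := 2) (j := 4) rfl (by decide)
  · exact AlternatingMap.map_eq_zero_of_eq _ _ (i := 3) (j := 4) rfl (by decide)

lemma d5_dep {a b c d e : X5} (h : d5 a b c d e = 0) :
    ∃ l : Fin 5 → ℝ, l ≠ 0 ∧ ∀ φ : Fn, ∑ k, l k * φ (![a, b, c, d, e] k) = 0 := by
  obtain ⟨l, h0, hl⟩ := (Matrix.exists_vecMul_eq_zero_iff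
    (M := Matrix.of ![a, b, c, d, e])).mpr ((d5_eq _ _ _ _ _ _ rfl).trans h)
  refine ⟨l, h0, fun φ => ?_⟩
  have : ∑ k, l k • ![a, b, c, d, e] k = 0 := by
    rw [← hl]; funext j; simp [Matrix.vecMul, dotProduct, Finset.sum_apply]
  have := congrArg φ this
  simpa [map_sum] using this

lemma d5_cramer (a b c d e f : X5) (φ : Fn) :
    d5 b c d e f * φ a - d5 a c d e f * φ b + d5 a b d e f * φ c - d5 a b c e f * φ d +
      d5 a b c d f * φ e - d5 a b c d e * φ f = 0 := by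
  let v : Fin 6 → X5 := ![a, b, c, d, e, f]
  let M : Matrix (Fin 6) (Fin 6) ℝ := Matrix.of fun i => Fin.cons (φ (v i)) (v i)
  have h0 : M.det = 0 := by
    rw [← Matrix.exists_mulVec_eq_zero_iff]
    refine ⟨Fin.cons (-1) fun k => φ (Pi.single k 1), fun h => by simpa using congrFun h 0, ?_⟩
    funext i
    have := LinearMap.pi_apply_eq_sum_univ φ (v i)
    simp only [Matrix.mulVec, dotProduct, Fin.sum_univ_succ (n := 5), M, Matrix.of_apply,
      Fin.cons_zero, Fin.cons_succ, Pi.zero_apply]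
    rw [this]
    have e : ∀ k : Fin 5, (Pi.single k 1 : X5) = fun j => if k = j then 1 else 0 := by
      intro k; funext j; simp [Pi.single_apply, eq_comm]
    simp only [e, smul_eq_mul]
    ring
  rw [Matrix.det_succ_column_zero, Fin.sum_univ_six] at h0
  have e0 : (M.submatrix (Fin.succAbove 0) Fin.succ).det = d5 b c d e f := by
    apply d5_eq; funext i; fin_cases i <;> rfl
  have e1 : (M.submatrix (Fin.succAbove 1) Fin.succ).det = d5 a c d e f := by
    apply d5_eq; funext i; fin_cases i <;> rfl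
  have e2 : (M.submatrix (Fin.succAbove 2) Fin.succ).det = d5 a b d e f := by
    apply d5_eq; funext i; fin_cases i <;> rfl
  have e3 : (M.submatrix (Fin.succAbove 3) Fin.succ).det = d5 a b c e f := by
    apply d5_eq; funext i; fin_cases i <;> rfl
  have e4 : (M.submatrix (Fin.succAbove 4) Fin.succ).det = d5 a b c d f := by
    apply d5_eq; funext i; fin_cases i <;> rfl
  have e5 : (M.submatrix (Fin.succAbove 5) Fin.succ).det = d5 a b c d e := by
    apply d5_eq; funext i; fin_cases i <;> rfl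
  rw [e0, e1, e2, e3, e4, e5] at h0
  have m0 : M 0 0 = φ a := rfl
  have m1 : M 1 0 = φ b := rfl
  have m2 : M 2 0 = φ c := rfl
  have m3 : M 3 0 = φ d := rfl
  have m4 : M 4 0 = φ e := rfl
  have m5 : M 5 0 = φ f := rfl
  rw [m0, m1, m2, m3, m4, m5] at h0
  simp at h0
  linear_combination h0

/-- the sign of a real number -/
noncomputable def sg (x : ℝ) : ℤ := if 0 < x then 1 else if x < 0 then -1 else 0

lemma sg_neg (x : ℝ) : sg (-x) = -sg x := by
  unfold sg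
  rcases lt_trichotomy x 0 with h | h | h
  · simp [h, not_lt.mpr h.le]
  · simp [h]
  · simp [h, not_lt.mpr h.le]

lemma sg_pos {x : ℝ} (h : 0 < x) : sg x = 1 := if_pos h

lemma sg_lt {x : ℝ} (h : x < 0) : sg x = -1 := by
  unfold sg; rw [if_neg (not_lt.mpr h.le), if_pos h]

lemma sg_cases (x : ℝ) : (0 < x ∧ sg x = 1) ∨ (x = 0 ∧ sg x = 0) ∨ (x < 0 ∧ sg x = -1) := by
  rcases lt_trichotomy x 0 with h | h | h
  · exact Or.inr (Or.inr ⟨h, sg_lt h⟩)
  · exact Or.inr (Or.inl ⟨h, by simp [h, sg]⟩)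
  · exact Or.inl ⟨h, sg_pos h⟩

lemma sg_mul_pos {x : ℝ} {ε : ℤ} (hε : ε = 1 ∨ ε = -1) (h : sg x = ε) : 0 < (ε : ℝ) * x := by
  rcases sg_cases x with h1 | h1 | h1 <;> rcases hε with rfl | rfl <;>
    first | omega | (simp; linarith [h1.1])

lemma sg_eq_of_mul_pos {x y : ℝ} (h : 0 < x * y) : sg x = sg y := by
  rcases pos_and_pos_or_neg_and_neg_of_mul_pos h with ⟨a, b⟩ | ⟨a, b⟩
  · rw [sg_pos a, sg_pos b]
  · rw [sg_lt a, sg_lt b]

/-- the sign system of a family of vectors -/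
noncomputable def chiOf {α : Type} (g : α → X5) : Chi α where
  s a b c d e := sg (d5 (g a) (g b) (g c) (g d) (g e))
  sw1 := by intros; rw [d5_sw1, sg_neg]
  sw2 := by intros; rw [d5_sw2, sg_neg]
  sw3 := by intros; rw [d5_sw3, sg_neg]
  sw4 := by intros; rw [d5_sw4, sg_neg]

lemma chiOf_s {α : Type} (g : α → X5) (a b c d e : α) :
    (chiOf g).s a b c d e = sg (d5 (g a) (g b) (g c) (g d) (g e)) := rfl

end Pool.Agent.MP_04a200_co

end MrgPart1

-- ======== part 2: formerly Pool.Agent.MP_04a200_co.Geo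
section MrgPart2

/-! Faces in terms of affine functionals, Radon partitions, the quotient map. -/

set_option autoImplicit false

open Classical

namespace Pool.Agent.MP_04a200_co

open Finset

abbrev Aff (d : ℕ) := E d →ᵃ[ℝ] ℝ

variable {d : ℕ}

lemma exists_wc (ψ : Aff d) : ∃ w : E d, ∃ c : ℝ, ∀ x, ψ x = c - inner ℝ w x := by
  refine ⟨(InnerProductSpace.toDual ℝ (E d)).symm (LinearMap.toContinuousLinearMap (-ψ.linear)),
    ψ 0, fun x => ?_⟩
  rw [InnerProductSpace.toDual_symm_apply]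
  have := ψ.map_vadd 0 x
  simp at this ⊢
  linarith

noncomputable def wc (w : E d) (c : ℝ) : Aff d :=
  AffineMap.const ℝ (E d) c - (innerₛₗ ℝ w).toAffineMap

@[simp] lemma wc_apply (w : E d) (c : ℝ) (x : E d) : wc w c x = c - inner ℝ w x := by
  simp [wc]

variable {ι : Type}

def FaceI (p : ι → E d) (V S : Finset ι) : Prop :=
  ∃ ψ : Aff d, ∀ v ∈ V, 0 ≤ ψ (p v) ∧ (ψ (p v) = 0 ↔ v ∈ S)

lemma isFace_iff (V S : Finset (E d)) : IsFace V S ↔ FaceI id V S := by
  constructor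
  · rintro ⟨w, c, h⟩
    refine ⟨wc w c, fun v hv => ?_⟩
    obtain ⟨h1, h2⟩ := h v hv
    simp only [wc_apply, id]
    exact ⟨by linarith, by rw [← h2]; constructor <;> intro h <;> linarith⟩
  · rintro ⟨ψ, h⟩
    obtain ⟨w, c, hw⟩ := exists_wc ψ
    refine ⟨w, c, fun v hv => ?_⟩
    obtain ⟨h1, h2⟩ := h v hv
    simp only [hw, id] at h1 h2
    exact ⟨by linarith, by rw [← h2]; constructor <;> intro h <;> linarith⟩

lemma faceI_image {p : ι → E d} {V S : Finset ι} (hi : Set.InjOn p V) (hS : S ⊆ V) :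
    IsFace (V.image p) (S.image p) ↔ FaceI p V S := by
  have key : ∀ v ∈ V, p v ∈ S.image p ↔ v ∈ S := by
    intro v hv
    refine ⟨fun h => ?_, mem_image_of_mem _⟩
    obtain ⟨s, hs, e⟩ := mem_image.mp h
    exact hi (hS hs) hv e ▸ hs
  rw [isFace_iff]
  constructor
  · rintro ⟨ψ, h⟩
    refine ⟨ψ, fun v hv => ?_⟩
    rw [← key v hv]
    exact h _ (mem_image_of_mem _ hv)
  · rintro ⟨ψ, h⟩
    refine ⟨ψ, fun w hw => ?_⟩
    obtain ⟨v, hv, rfl⟩ := mem_image.mp hw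
    rw [key v hv]
    exact h v hv

variable [DecidableEq ι]

def NbI (p : ι → E d) (V σ : Finset ι) : Prop :=
  σ ⊆ V ∧ ∀ S : Finset ι, S ⊆ V → (S \ σ).card ≤ 2 → FaceI p V S

/-- `l` is a dependency of the points `p (v k)` modulo the points of `σ` -/
def Dep {κ : Type} [Fintype κ] (p : ι → E d) (σ : Finset ι) (v : κ → ι) (l : κ → ℝ) : Prop :=
  ∀ ψ : Aff d, (∀ s ∈ σ, ψ (p s) = 0) → ∑ k, l k * ψ (p (v k)) = 0

variable {p : ι → E d} {V σ : Finset ι} {κ : Type} [Fintype κ] {v : κ → ι} {l : κ → ℝ}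

omit [DecidableEq ι] in
lemma Dep.neg (h : Dep p σ v l) : Dep p σ v (-l) := by
  intro ψ hψ
  have := h ψ hψ
  simp only [Pi.neg_apply, neg_mul, sum_neg_distrib, this, neg_zero]

omit [DecidableEq ι] in
lemma Dep.face (h : Dep p σ v l) (hσ : σ ⊆ V) (hv : ∀ k, v k ∈ V) {S : Finset ι} (hS : σ ⊆ S)
    (hF : FaceI p V S) (hl : ∀ k, v k ∉ S → 0 ≤ l k) : ∀ k, v k ∉ S → l k = 0 := by
  obtain ⟨ψ, hψ⟩ := hF
  have h0 := h ψ fun s hs => (hψ s (hσ hs)).2.2 (hS hs)
  have h1 : ∀ k ∈ (univ : Finset κ), 0 ≤ l k * ψ (p (v k)) := by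
    intro k _
    by_cases hk : v k ∈ S
    · rw [(hψ _ (hv k)).2.2 hk]; simp
    · exact mul_nonneg (hl k hk) (hψ _ (hv k)).1
  intro k hk
  have := (sum_eq_zero_iff_of_nonneg h1).mp h0 k (mem_univ k)
  exact (mul_eq_zero.mp this).resolve_right fun e => hk ((hψ _ (hv k)).2.1 e)

lemma Dep.nonpos {σ0 : Finset ι} (hN : NbI p V σ) (h0 : σ0 ⊆ σ) (h : Dep p σ0 v l)
    (hi : Function.Injective v) (hv : ∀ k, v k ∈ V) (hv0 : ∀ k, v k ∉ σ0)
    (hc : (univ.filter fun k => l k < 0 ∧ v k ∉ σ).card ≤ 2) : ∀ k, l k ≤ 0 := by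
  let S := σ0 ∪ (univ.filter fun k => l k < 0).image v
  have hm : ∀ k, v k ∈ S ↔ l k < 0 := by
    intro k
    simp only [S, mem_union, hv0 k, false_or, mem_image, mem_filter, mem_univ, true_and]
    exact ⟨fun ⟨j, hj, e⟩ => hi e ▸ hj, fun hk => ⟨k, hk, rfl⟩⟩
  have hF : FaceI p V S := by
    refine hN.2 S (union_subset (h0.trans hN.1) ?_) (le_trans (card_le_card ?_)
      ((card_image_le (f := v)).trans hc))
    · intro x hx
      obtain ⟨k, -, rfl⟩ := mem_image.mp hx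
      exact hv k
    · intro x hx
      obtain ⟨h1, h2⟩ := mem_sdiff.mp hx
      rcases mem_union.mp h1 with h3 | h3
      · exact absurd (h0 h3) h2
      · obtain ⟨k, hk, rfl⟩ := mem_image.mp h3
        exact mem_image_of_mem _ (by simpa [h2] using hk)
  have := h.face (h0.trans hN.1) hv subset_union_left hF fun k hk => not_lt.mp (mt (hm k).2 hk)
  intro k
  by_cases hk : l k < 0
  · exact hk.le
  · exact (this k (mt (hm k).1 hk)).le

lemma Dep.zero_of {σ0 : Finset ι} (hN : NbI p V σ) (h0 : σ0 ⊆ σ) (h : Dep p σ0 v l)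
    (hi : Function.Injective v) (hv : ∀ k, v k ∈ V) (hv0 : ∀ k, v k ∉ σ0)
    (hc : (univ.filter fun k => l k < 0 ∧ v k ∉ σ).card ≤ 2) : l = 0 := by
  have h1 := h.nonpos hN h0 hi hv hv0 hc
  have h2 := h.neg.nonpos hN h0 hi hv hv0 (by
    rw [filter_false_of_mem]
    · simp
    · intro k _ hk
      have := h1 k
      have := hk.1
      simp at this
      linarith)
  funext k
  have := h2 k
  simp at this
  exact le_antisymm (h1 k) this

lemma Dep.radon {σ0 : Finset ι} (hN : NbI p V σ) (h0 : σ0 ⊆ σ) (h : Dep p σ0 v l)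
    (hi : Function.Injective v) (hv : ∀ k, v k ∈ V) (hv0 : ∀ k, v k ∉ σ0)
    (hc : (univ.filter fun k => v k ∉ σ).card ≤ 5) : l = 0 := by
  by_cases h1 : (univ.filter fun k => l k < 0 ∧ v k ∉ σ).card ≤ 2
  · exact h.zero_of hN h0 hi hv hv0 h1
  · have h2 : (univ.filter fun k => (-l) k < 0 ∧ v k ∉ σ).card ≤ 2 := by
      have : (univ.filter fun k => l k < 0 ∧ v k ∉ σ).card +
          (univ.filter fun k => (-l) k < 0 ∧ v k ∉ σ).card ≤
          (univ.filter fun k => v k ∉ σ).card := by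
        rw [← card_union_of_disjoint]
        · apply card_le_card
          intro k hk
          simp only [mem_union, mem_filter, mem_univ, true_and] at hk ⊢
          tauto
        · rw [disjoint_filter]
          intro k _ a b
          have := b.1
          simp at this
          linarith [a.1]
      omega
    simpa using h.neg.zero_of hN h0 hi hv hv0 h2

lemma NbI.affInd (hN : NbI p V σ) (hi : Function.Injective v) (hv : ∀ k, v k ∈ V)
    (hc : (univ.filter fun k => v k ∉ σ).card ≤ 5) : AffineIndependent ℝ fun k => p (v k) := by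
  rw [affineIndependent_iff]
  intro s w h1 h2
  have hD : Dep p ∅ v (fun k => if k ∈ s then w k else 0) := by
    intro ψ _
    obtain ⟨u, c, hu⟩ := exists_wc ψ
    have h3 := congrArg (inner ℝ u) h2
    simp only [inner_sum, inner_smul_right, inner_zero_right] at h3
    simp only [ite_mul, zero_mul, sum_ite_mem, univ_inter, hu, mul_sub, sum_sub_distrib, h3,
      ← sum_mul, h1, sub_zero]
  have := hD.radon hN (empty_subset _) hi hv (by simp) hc
  intro e he
  simpa [he] using congrFun this e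

/-- coordinates on the quotient by `σ` -/
structure QD (p : ι → E d) (σ : Finset ι) (g : E d →ᵃ[ℝ] X5) : Prop where
  q1 : ∀ s ∈ σ, g (p s) = 0
  q2 : ∀ ψ : Aff d, (∀ s ∈ σ, ψ (p s) = 0) → ∃ φ : Fn, ∀ x, ψ x = φ (g x)

lemma NbI.quot (hN : NbI p V σ) (hd : σ.card + 4 = d) (t : Fin 5 → ι) (ht : Function.Injective t)
    (hV : ∀ k, t k ∈ V \ σ) : ∃ g, QD p σ g := by
  let v : σ ⊕ Fin 5 → ι := Sum.elim (fun s => s) t
  have hi : Function.Injective v := by
    refine Subtype.val_injective.sumElim ht fun a b e => ?_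
    exact (mem_sdiff.mp (hV b)).2 (e ▸ a.2)
  have hA := hN.affInd hi (by
    rintro (s | k)
    · exact hN.1 s.2
    · exact (mem_sdiff.mp (hV k)).1) (by
    refine le_trans (card_le_card (t := univ.image Sum.inr) ?_) (card_image_le.trans (by simp))
    rintro (s | k) h
    · simp [v] at h
    · simp)
  let b : AffineBasis (σ ⊕ Fin 5) ℝ (E d) := ⟨fun k => p (v k), hA,
    hA.affineSpan_eq_top_iff_card_eq_finrank_add_one.mpr (by simp; omega)⟩
  have hb : ∀ k, b k = p (v k) := fun k => rfl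
  refine ⟨AffineMap.pi fun k => b.coord (Sum.inr k), fun s hs => ?_, fun ψ hψ => ?_⟩
  · funext k
    exact b.coord_apply_ne (i := Sum.inr k) (j := Sum.inl ⟨s, hs⟩) (by simp)
  · refine ⟨∑ k, ψ (p (t k)) • LinearMap.proj k, fun x => ?_⟩
    obtain ⟨u, c, hu⟩ := exists_wc ψ
    have h1 : ψ x = ∑ k, b.coord k x * ψ (b k) := by
      have h2 := congrArg (inner ℝ u) (b.linear_combination_coord_eq_self x)
      simp only [inner_sum, inner_smul_right] at h2
      simp only [hu, mul_sub, sum_sub_distrib, h2, ← sum_mul, b.sum_coord_apply_eq_one, one_mul]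
    rw [h1, Fintype.sum_sum_type, sum_eq_zero fun s _ => by
      rw [hb]; simp [v, hψ s s.2]]
    simp [hb, v, mul_comm]

omit [DecidableEq ι] in
lemma QD.dep {g : E d →ᵃ[ℝ] X5} (Q : QD p σ g)
    (h : ∀ φ : Fn, ∑ k, l k * φ (g (p (v k))) = 0) : Dep p σ v l := by
  intro ψ hψ
  obtain ⟨φ, hφ⟩ := Q.q2 ψ hψ
  simp only [hφ, h]

end Pool.Agent.MP_04a200_co

end MrgPart2

-- ======== part 3: formerly Pool.Agent.MP_04a200_co.GeoSign
section MrgPart3

/-! The sign system of a neighborly quotient. -/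

set_option autoImplicit false

open Classical

namespace Pool.Agent.MP_04a200_co

open Finset

variable {d : ℕ} {ι : Type} [DecidableEq ι] {p : ι → E d} {V σ : Finset ι} {g : E d →ᵃ[ℝ] X5}

omit [DecidableEq ι] in
lemma inj_of_nodup {n : ℕ} (v : Fin n → ι) (h : (List.ofFn v).Nodup) : Function.Injective v :=
  List.nodup_ofFn.mp h

lemma NbI.d5_ne (hN : NbI p V σ) (Q : QD p σ g) {a b c e f : ι} (ha : a ∈ V \ σ) (hb : b ∈ V \ σ)
    (hc : c ∈ V \ σ) (he : e ∈ V \ σ) (hf : f ∈ V \ σ) (hn : [a, b, c, e, f].Nodup) :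
    d5 (g (p a)) (g (p b)) (g (p c)) (g (p e)) (g (p f)) ≠ 0 := by
  intro h
  obtain ⟨l, l0, hl⟩ := d5_dep h
  have hv : ∀ k, ![a, b, c, e, f] k ∈ V \ σ := by intro k; fin_cases k <;> assumption
  have hD : Dep p σ ![a, b, c, e, f] l := Q.dep fun φ => by
    rw [← hl φ]; simp [Fin.sum_univ_five]
  exact l0 (hD.radon hN Subset.rfl (inj_of_nodup _ hn) (fun k => (mem_sdiff.mp (hv k)).1)
    (fun k => (mem_sdiff.mp (hv k)).2) ((card_filter_le _ _).trans (by simp)))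

lemma NbI.nz (hN : NbI p V σ) (Q : QD p σ g) : (chiOf fun v => g (p v)).Nz (V \ σ) := by
  intro a ha b hb c hc e he f hf hn
  have := hN.d5_ne Q ha hb hc he hf hn
  rw [chiOf_s]
  rcases sg_cases (d5 (g (p a)) (g (p b)) (g (p c)) (g (p e)) (g (p f))) with h | h | h
  · exact Or.inl h.2
  · exact absurd h.1 this
  · exact Or.inr h.2

/-- the coefficients of the dependency among six vectors -/
noncomputable def co (a b c e f h : X5) : Fin 6 → ℝ :=
  ![d5 b c e f h, -d5 a c e f h, d5 a b e f h, -d5 a b c f h, d5 a b c e h, -d5 a b c e f]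

omit [DecidableEq ι] in
lemma QD.co_dep (Q : QD p σ g) (a b c e f h : ι) :
    Dep p σ ![a, b, c, e, f, h]
      (co (g (p a)) (g (p b)) (g (p c)) (g (p e)) (g (p f)) (g (p h))) := Q.dep fun φ => by
  have := d5_cramer (g (p a)) (g (p b)) (g (p c)) (g (p e)) (g (p f)) (g (p h)) φ
  simp only [Fin.sum_univ_six, co, Matrix.cons_val_zero, Matrix.cons_val_one, Matrix.cons_val]
  linear_combination this

lemma NbI.co_ne (hN : NbI p V σ) (Q : QD p σ g) {a b c e f h : ι} (ha : a ∈ V \ σ)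
    (hb : b ∈ V \ σ) (hc : c ∈ V \ σ) (he : e ∈ V \ σ) (hf : f ∈ V \ σ) (hh : h ∈ V \ σ)
    (hn : [a, b, c, e, f, h].Nodup) (k : Fin 6) :
    co (g (p a)) (g (p b)) (g (p c)) (g (p e)) (g (p f)) (g (p h)) k ≠ 0 := by
  fin_cases k
  · exact hN.d5_ne Q hb hc he hf hh (by grind)
  · exact neg_ne_zero.mpr (hN.d5_ne Q ha hc he hf hh (by grind))
  · exact hN.d5_ne Q ha hb he hf hh (by grind)
  · exact neg_ne_zero.mpr (hN.d5_ne Q ha hb hc hf hh (by grind))
  · exact hN.d5_ne Q ha hb hc he hh (by grind)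
  · exact neg_ne_zero.mpr (hN.d5_ne Q ha hb hc he hf (by grind))

lemma NbI.three (hN : NbI p V σ) {v : Fin 6 → ι} {l : Fin 6 → ℝ} (h : Dep p σ v l)
    (hi : Function.Injective v) (hv : ∀ k, v k ∈ V \ σ) (hl : ∀ k, l k ≠ 0) :
    (univ.filter fun k => l k < 0).card = 3 ∧ (univ.filter fun k => 0 < l k).card = 3 := by
  have key : ∀ l : Fin 6 → ℝ, Dep p σ v l → (∀ k, l k ≠ 0) →
      3 ≤ (univ.filter fun k => l k < 0).card := by
    intro l h hl
    by_contra hc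
    have := h.zero_of hN Subset.rfl hi (fun k => (mem_sdiff.mp (hv k)).1)
      (fun k => (mem_sdiff.mp (hv k)).2) (le_trans (card_le_card fun k hk => by
        simp only [mem_filter, mem_univ, true_and] at hk ⊢
        exact hk.1) (show (univ.filter fun k => l k < 0).card ≤ 2 by omega))
    exact hl 0 (congrFun this 0)
  have h1 := key l h hl
  have h2 := key (-l) h.neg (fun k => neg_ne_zero.mpr (hl k))
  simp only [Pi.neg_apply, Left.neg_neg_iff] at h2
  have h3 : (univ.filter fun k => l k < 0).card + (univ.filter fun k => 0 < l k).card ≤ 6 := by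
    rw [← card_union_of_disjoint]
    · exact (card_le_univ _).trans (by simp)
    · rw [disjoint_filter]
      intro k _ a b
      linarith
  omega

lemma sum_sg {n : ℕ} (l : Fin n → ℝ) : ∑ k, sg (l k) =
    (univ.filter fun k => 0 < l k).card - (univ.filter fun k => l k < 0).card := by
  simp only [card_filter, Nat.cast_sum, ← sum_sub_distrib]
  refine sum_congr rfl fun k _ => ?_
  rcases sg_cases (l k) with h | h | h
  · simp [h.1, h.2, not_lt.mpr h.1.le]
  · rw [h.2, h.1]; simp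
  · simp [h.1, h.2, not_lt.mpr h.1.le]

lemma NbI.circ (hN : NbI p V σ) (Q : QD p σ g) : (chiOf fun v => g (p v)).Circ (V \ σ) := by
  intro a ha b hb c hc e he f hf h hh hn
  obtain ⟨h1, h2⟩ := hN.three (Q.co_dep a b c e f h) (inj_of_nodup _ hn)
    (by intro k; fin_cases k <;> assumption) (hN.co_ne Q ha hb hc he hf hh hn)
  have := sum_sg (co (g (p a)) (g (p b)) (g (p c)) (g (p e)) (g (p f)) (g (p h)))
  rw [h1, h2] at this
  simp only [Fin.sum_univ_six, co, Matrix.cons_val_zero, Matrix.cons_val_one, Matrix.cons_val,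
    sg_neg] at this
  simp only [chiOf_s]
  omega

lemma NbI.univ_aux (hN : NbI p V σ) {V' : Finset ι} (hV : V' ⊆ V) (hσ : σ ⊆ V') {v : Fin 6 → ι}
    {l : Fin 6 → ℝ} (h : Dep p σ v l) (hi : Function.Injective v) (hv : ∀ k, v k ∈ V' \ σ)
    (hl : ∀ k, l k ≠ 0) (hU : ∀ t ∈ V', FaceI p V' (σ ∪ {v 4, v 5, t})) (h4 : l 4 < 0)
    (h5 : l 5 < 0) : False := by
  obtain ⟨h1, h2⟩ := hN.three h hi (fun k => sdiff_subset_sdiff hV Subset.rfl (hv k)) hl
  obtain ⟨t, ht⟩ : ∃ t : Fin 6, ∀ k, l k < 0 → k = 4 ∨ k = 5 ∨ k = t := by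
    have : (((univ.filter fun k => l k < 0).erase 4).erase 5).card = 1 := by
      rw [card_erase_of_mem (by simp [h5]), card_erase_of_mem (by simp [h4]), h1]
    obtain ⟨t, ht⟩ := card_eq_one.mp this
    refine ⟨t, fun k hk => ?_⟩
    by_contra hc
    have : k ∈ (((univ.filter fun k => l k < 0).erase 4).erase 5) := by
      simp only [mem_erase, mem_filter, mem_univ, true_and]; tauto
    rw [ht] at this
    simp only [mem_singleton] at this
    tauto
  have := h.face hσ (fun k => (mem_sdiff.mp (hv k)).1) subset_union_left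
    (hU (v t) (mem_sdiff.mp (hv t)).1) (fun k hk => by
      by_contra hc
      rcases ht k (not_le.mp hc) with rfl | rfl | rfl <;> simp at hk)
  obtain ⟨k, hk, k2⟩ : ∃ k ∈ (univ.filter fun k => 0 < l k), k ≠ t := by
    apply exists_mem_ne
    omega
  have hk := (mem_filter.mp hk).2
  refine hl k (this k fun hm => ?_)
  simp only [mem_union, (mem_sdiff.mp (hv k)).2, false_or, mem_insert, mem_singleton,
    hi.eq_iff] at hm
  rcases hm with rfl | rfl | rfl
  · linarith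
  · linarith
  · exact k2 rfl

lemma NbI.insep (hN : NbI p V σ) (Q : QD p σ g) {V' : Finset ι} (hV : V' ⊆ V) (hσ : σ ⊆ V')
    {x y : ι} (hx : x ∈ V' \ σ) (hy : y ∈ V' \ σ) (hxy : x ≠ y)
    (hU : ∀ t ∈ V', FaceI p V' (σ ∪ {x, y, t})) :
    (chiOf fun v => g (p v)).Insep (V' \ σ) x y := by
  intro a ha b hb c hc e he h1 h2
  have hs : V' \ σ ⊆ V \ σ := sdiff_subset_sdiff hV Subset.rfl
  by_cases hn : [a, b, c, e].Nodup
  · have hn6 : [a, b, c, e, x, y].Nodup := by grind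
    have hD := Q.co_dep a b c e x y
    have hl := hN.co_ne Q (hs ha) (hs hb) (hs hc) (hs he) (hs hx) (hs hy) hn6
    have hv : ∀ k, ![a, b, c, e, x, y] k ∈ V' \ σ := by intro k; fin_cases k <;> assumption
    have l4 := hl 4
    have l5 := hl 5
    have k1 := hN.univ_aux hV hσ hD (inj_of_nodup _ hn6) hv hl hU
    have k2 := hN.univ_aux hV hσ hD.neg (inj_of_nodup _ hn6) hv
      (fun k => neg_ne_zero.mpr (hl k)) hU
    simp only [co, Matrix.cons_val, Pi.neg_apply] at k1 k2 l4 l5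
    simp only [chiOf_s]
    rcases sg_cases (d5 (g (p a)) (g (p b)) (g (p c)) (g (p e)) (g (p x))) with u | u | u <;>
      rcases sg_cases (d5 (g (p a)) (g (p b)) (g (p c)) (g (p e)) (g (p y))) with w | w | w <;>
      first
        | omega
        | exact (l4 w.1).elim
        | exact (l5 (neg_eq_zero.mpr u.1)).elim
        | exact (k1 w.1 (by linarith [u.1])).elim
        | exact (k2 (by linarith [w.1]) (by linarith [u.1])).elim
  · have z : ∀ t, (chiOf fun v => g (p v)).s a b c e t = 0 := by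
      intro t
      set χ := chiOf fun v => g (p v)
      have : a = b ∨ a = c ∨ a = e ∨ b = c ∨ b = e ∨ c = e := by grind
      rcases this with rfl | rfl | rfl | rfl | rfl | rfl
      · have := χ.sw1 a a c e t; omega
      · have := χ.sw2 a a b e t; have := χ.sw1 a a b e t; omega
      · have := χ.c234 a a b c t; have := χ.sw1 a a b c t; omega
      · have := χ.sw2 a b b e t; omega
      · have := χ.sw3 a b b c t; have := χ.sw2 a b b c t; omega
      · have := χ.sw3 a b c c t; omega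
    rw [z, z]

lemma fac_face (q1 : ∀ s ∈ σ, g (p s) = 0) {a b c e : ι}
    (h : (chiOf fun v => g (p v)).Fac (V \ σ) a b c e) : FaceI p V (σ ∪ {a, b, c, e}) := by
  obtain ⟨ε, h1, h2⟩ := h
  obtain ⟨φ, hφ, z1, z2, z3, z4⟩ := d5_lin (g (p a)) (g (p b)) (g (p c)) (g (p e))
  refine ⟨(ε : ℝ) • (φ.toAffineMap.comp g), fun v hv => ?_⟩
  have e0 : ((ε : ℝ) • (φ.toAffineMap.comp g)) (p v) = ε * φ (g (p v)) := by simp
  rw [e0]
  by_cases hm : v ∈ σ ∪ {a, b, c, e}
  · have : φ (g (p v)) = 0 := by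
      simp only [mem_union, mem_insert, mem_singleton] at hm
      rcases hm with hm | rfl | rfl | rfl | rfl
      · rw [q1 v hm, map_zero]
      all_goals assumption
    rw [this, mul_zero]
    exact ⟨le_rfl, fun _ => hm, fun _ => rfl⟩
  · have := sg_mul_pos h1 (h2 v (by grind) (by grind))
    rw [← hφ] at this
    exact ⟨this.le, fun h => absurd h this.ne', fun h => absurd h hm⟩

end Pool.Agent.MP_04a200_co

end MrgPart3

-- ======== part 4: formerly Pool.Agent.MP_04a200_co.QuadA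
section MrgPart4

/-! The two patterns of facets that cannot be tangent to a sphere. -/

set_option autoImplicit false

namespace Pool.Agent.MP_04a200_co

open Finset

/-- Lorentzian data: linear forms in general position and a set of null vectors -/
structure LD (ι : Type) where
  l : ι → Fn
  B : Bil
  N : X5 → Prop
  sy : Sy B
  null : ∀ z, N z → B z z = 0
  sep : ∀ z z', N z → N z' → z ≠ z' → B z z' ≠ 0
  rad : ∀ r z, N z → B r r = 0 → B r z = 0 → ∃ t : ℝ, r = t • z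
  inj : ∀ a b c d e, [a, b, c, d, e].Nodup → Inj5 (l a) (l b) (l c) (l d) (l e)

variable {ι : Type}

def LD.Tan (L : LD ι) (F : List ι) (z : X5) : Prop :=
  L.N z ∧ ∀ v, (v ∈ F → L.l v z = 0) ∧ (v ∉ F → 0 < L.l v z)

namespace LD

variable {L : LD ι}

lemma Tan.z {F : List ι} {z : X5} (h : L.Tan F z) (v : ι) (hv : v ∈ F) : L.l v z = 0 :=
  (h.2 v).1 hv

lemma Tan.p {F : List ι} {z : X5} (h : L.Tan F z) (v : ι) (hv : v ∉ F) : 0 < L.l v z :=
  (h.2 v).2 hv

lemma Tan.n {F : List ι} {z : X5} (h : L.Tan F z) : L.B z z = 0 := L.null z h.1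

lemma Tan.ne {F F' : List ι} {z z' : X5} (h : L.Tan F z) (h' : L.Tan F' z')
    (hv : ∃ v ∈ F, v ∉ F') : L.B z z' ≠ 0 := by
  obtain ⟨v, h1, h2⟩ := hv
  refine L.sep z z' h.1 h'.1 ?_
  rintro rfl
  exact (h'.p v h2).ne' (h.z v h1)

lemma tri {F1 F2 F3 : List ι} {z1 z2 z3 : X5} (h1 : L.Tan F1 z1) (h2 : L.Tan F2 z2)
    (h3 : L.Tan F3 z3) (a b : ι)
    (h : a ∈ F1 ∧ a ∈ F2 ∧ a ∈ F3 ∧ b ∈ F1 ∧ b ∈ F2 ∧ b ∈ F3 ∧ (∃ v ∈ F1, v ∉ F2) ∧
      (∃ v ∈ F1, v ∉ F3) ∧ (∃ v ∈ F2, v ∉ F3)) : Tri L.B (L.l a) (L.l b) z1 z2 z3 := by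
  obtain ⟨a1, a2, a3, b1, b2, b3, c1, c2, c3⟩ := h
  exact ⟨h1.z a a1, h2.z a a2, h3.z a a3, h1.z b b1, h2.z b b2, h3.z b b3, h1.n, h2.n, h3.n,
    h1.ne h2 c1, h1.ne h3 c2, h2.ne h3 c3⟩

lemma pl (L : LD ι) (a b c d e : ι) (h : [a, b, c, d, e].Nodup) : Pl (L.l a) (L.l b) :=
  ⟨_, _, _, L.inj a b c d e h⟩

end LD

/-- a path with three edges `0 1 2 3` joined to a path with four edges `4 5 6 7 8` -/
theorem patA (L : LD (Fin 9))
    (h11 : ∃ z, L.Tan [0, 1, 4, 5] z) (h12 : ∃ z, L.Tan [0, 1, 5, 6] z)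
    (h13 : ∃ z, L.Tan [0, 1, 6, 7] z) (h14 : ∃ z, L.Tan [0, 1, 7, 8] z)
    (h21 : ∃ z, L.Tan [1, 2, 4, 5] z) (h22 : ∃ z, L.Tan [1, 2, 5, 6] z)
    (h23 : ∃ z, L.Tan [1, 2, 6, 7] z) (h24 : ∃ z, L.Tan [1, 2, 7, 8] z)
    (h31 : ∃ z, L.Tan [2, 3, 4, 5] z) (h32 : ∃ z, L.Tan [2, 3, 5, 6] z)
    (h33 : ∃ z, L.Tan [2, 3, 6, 7] z) (h34 : ∃ z, L.Tan [2, 3, 7, 8] z) : False := by
  obtain ⟨z11, h11⟩ := h11
  obtain ⟨z12, h12⟩ := h12
  obtain ⟨z13, h13⟩ := h13
  obtain ⟨z14, h14⟩ := h14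
  obtain ⟨z21, h21⟩ := h21
  obtain ⟨z22, h22⟩ := h22
  obtain ⟨z23, h23⟩ := h23
  obtain ⟨z24, h24⟩ := h24
  obtain ⟨z31, h31⟩ := h31
  obtain ⟨z32, h32⟩ := h32
  obtain ⟨z33, h33⟩ := h33
  obtain ⟨z34, h34⟩ := h34
  set P1 := sp (L.l 4) (L.l 6) with hP1
  set P2 := sp (L.l 5) (L.l 6) with hP2
  set P3 := sp (L.l 5) (L.l 7) with hP3
  obtain ⟨c, hc0, hc⟩ := exists_ker (m := 4) (n := 3) (by norm_num)
    ![![P1 z11 z12, P2 z11 z12, P3 z11 z12, L.B z11 z12],
      ![P1 z11 z13, P2 z11 z13, P3 z11 z13, L.B z11 z13],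
      ![P1 z12 z13, P2 z12 z13, P3 z12 z13, L.B z12 z13]]
  have e0 := hc 0
  have e1 := hc 1
  have e2 := hc 2
  simp only [Fin.sum_univ_four, Matrix.cons_val_zero, Matrix.cons_val_one, Matrix.cons_val]
    at e0 e1 e2
  set R : Bil := c 0 • P1 + c 1 • P2 + c 2 • P3 + c 3 • L.B with hRd
  have hRa : ∀ a b, R a b = c 0 * P1 a b + c 1 * P2 a b + c 2 * P3 a b + c 3 * L.B a b := by
    intro a b; simp [hRd]
  have hR : Sy R := by
    intro a b; rw [hRa, hRa, L.sy a b]; simp only [hP1, hP2, hP3, sp_apply]; ring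
  have dA1 : ∀ {F z}, L.Tan F z → 4 ∈ F → 5 ∈ F → R z z = 0 := by
    intro F z h a b; rw [hRa]; simp [hP1, hP2, hP3, h.z 4 a, h.z 5 b, h.n]
  have dA2 : ∀ {F z}, L.Tan F z → 5 ∈ F → 6 ∈ F → R z z = 0 := by
    intro F z h a b; rw [hRa]; simp [hP1, hP2, hP3, h.z 5 a, h.z 6 b, h.n]
  have dA3 : ∀ {F z}, L.Tan F z → 6 ∈ F → 7 ∈ F → R z z = 0 := by
    intro F z h a b; rw [hRa]; simp [hP1, hP2, hP3, h.z 6 a, h.z 7 b, h.n]
  have V1 : Van R (L.l 0) (L.l 1) :=
    van_of_basis L.sy hR (L.pl 0 1 4 5 6 (by decide)) (LD.tri h11 h12 h13 0 1 (by decide))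
      (dA1 h11 (by decide) (by decide)) (dA2 h12 (by decide) (by decide))
      (dA3 h13 (by decide) (by decide)) (by rw [hRa]; linarith) (by rw [hRa]; linarith)
      (by rw [hRa]; linarith)
  have V2 : Van R (L.l 1) (L.l 2) :=
    prop_step L.sy hR V1 (L.pl 1 2 4 5 6 (by decide)) (LD.tri h21 h22 h23 1 2 (by decide))
      (h21.p 0 (by decide)).ne' (h22.p 0 (by decide)).ne' (h23.p 0 (by decide)).ne'
      (dA1 h21 (by decide) (by decide)) (dA2 h22 (by decide) (by decide))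
      (dA3 h23 (by decide) (by decide))
  have V3 : Van R (L.l 2) (L.l 3) :=
    prop_step L.sy hR V2 (L.pl 2 3 4 5 6 (by decide)) (LD.tri h31 h32 h33 2 3 (by decide))
      (h31.p 1 (by decide)).ne' (h32.p 1 (by decide)).ne' (h33.p 1 (by decide)).ne'
      (dA1 h31 (by decide) (by decide)) (dA2 h32 (by decide) (by decide))
      (dA3 h33 (by decide) (by decide))
  have k : ∀ {F z}, L.Tan F z → 7 ∈ F → 6 ∉ F → R z z = 0 →
      c 0 * L.l 4 z + c 1 * L.l 5 z = 0 := by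
    intro F z h a b r
    rw [hRa] at r
    simp only [hP1, hP2, hP3, sp_apply, h.z 7 a, h.n] at r
    have : L.l 6 z * (c 0 * L.l 4 z + c 1 * L.l 5 z) = 0 := by linear_combination (1/2 : ℝ) * r
    exact (mul_eq_zero.mp this).resolve_left (h.p 6 b).ne'
  have k1 := k h14 (by decide) (by decide) (V1 _ _ (h14.z 0 (by decide)) (h14.z 1 (by decide))
    (h14.z 0 (by decide)) (h14.z 1 (by decide)))
  have k2 := k h24 (by decide) (by decide) (V2 _ _ (h24.z 1 (by decide)) (h24.z 2 (by decide))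
    (h24.z 1 (by decide)) (h24.z 2 (by decide)))
  have k3 := k h34 (by decide) (by decide) (V3 _ _ (h34.z 2 (by decide)) (h34.z 3 (by decide))
    (h34.z 2 (by decide)) (h34.z 3 (by decide)))
  have k4 : ∀ w, L.l 7 w = 0 → L.l 8 w = 0 → c 0 * L.l 4 w + c 1 * L.l 5 w = 0 := by
    intro w a b
    obtain ⟨s1, s2, s3, rfl⟩ := span3 L.sy (L.pl 7 8 4 5 6 (by decide))
      (LD.tri h14 h24 h34 7 8 (by decide)) w a b
    simp only [map_add, map_smul, smul_eq_mul]
    linear_combination s1 * k1 + s2 * k2 + s3 * k3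
  have c0 : c 0 = 0 := by
    obtain ⟨w, a1, a2, a3, a4, -⟩ := (L.inj 7 8 4 5 6 (by decide)).surj 0 0 1 0 0
    simpa [a3, a4] using k4 w a1 a2
  have c1 : c 1 = 0 := by
    obtain ⟨w, a1, a2, a3, a4, -⟩ := (L.inj 7 8 4 5 6 (by decide)).surj 0 0 0 1 0
    simpa [a3, a4] using k4 w a1 a2
  have c3 : c 3 = 0 := by
    have : L.B z11 z12 * c 3 = 0 := by
      simpa [c0, c1, hP3, h11.z 5 (by decide), h12.z 5 (by decide)] using e0
    exact (mul_eq_zero.mp this).resolve_left (h11.ne h12 (by decide))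
  have c2 : c 2 = 0 := by
    have : (L.l 7 z11 * L.l 5 z13) * c 2 = 0 := by
      have := e1
      simp only [c0, c1, c3, hP3, sp_apply, h11.z 5 (by decide)] at this
      linear_combination this
    exact (mul_eq_zero.mp this).resolve_left
      (mul_pos (h11.p 7 (by decide)) (h13.p 5 (by decide))).ne'
  apply hc0
  ext i; fin_cases i <;> simp [c0, c1, c2, c3]

end Pool.Agent.MP_04a200_co

end MrgPart4

-- ======== part 5: formerly Pool.Agent.MP_04a200_co.QuadB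
section MrgPart5

/-! Six paths with two edges, pairwise joined. -/

set_option autoImplicit false

namespace Pool.Agent.MP_04a200_co

open Finset

lemma Inj5.dual {l1 l2 l3 l4 l5 : Fn} (h : Inj5 l1 l2 l3 l4 l5) :
    ∃ e1 e2 e3 e4 e5 : X5,
      (l1 e1 = 1 ∧ l2 e1 = 0 ∧ l3 e1 = 0 ∧ l4 e1 = 0 ∧ l5 e1 = 0) ∧
      (l1 e2 = 0 ∧ l2 e2 = 1 ∧ l3 e2 = 0 ∧ l4 e2 = 0 ∧ l5 e2 = 0) ∧
      (l1 e3 = 0 ∧ l2 e3 = 0 ∧ l3 e3 = 1 ∧ l4 e3 = 0 ∧ l5 e3 = 0) ∧
      (l1 e4 = 0 ∧ l2 e4 = 0 ∧ l3 e4 = 0 ∧ l4 e4 = 1 ∧ l5 e4 = 0) ∧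
      (l1 e5 = 0 ∧ l2 e5 = 0 ∧ l3 e5 = 0 ∧ l4 e5 = 0 ∧ l5 e5 = 1) ∧
      ∀ a, a = l1 a • e1 + l2 a • e2 + l3 a • e3 + l4 a • e4 + l5 a • e5 := by
  obtain ⟨e1, h1⟩ := h.surj 1 0 0 0 0
  obtain ⟨e2, h2⟩ := h.surj 0 1 0 0 0
  obtain ⟨e3, h3⟩ := h.surj 0 0 1 0 0
  obtain ⟨e4, h4⟩ := h.surj 0 0 0 1 0
  obtain ⟨e5, h5⟩ := h.surj 0 0 0 0 1
  refine ⟨e1, e2, e3, e4, e5, h1, h2, h3, h4, h5, fun a => ?_⟩
  rw [← sub_eq_zero]
  apply h <;> simp [h1, h2, h3, h4, h5]

/-- a quadric containing two planes through a line is singular -/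
lemma radical {R : Bil} {y x x' m m' : Fn} (h : Inj5 y x x' m m') (V : Van R y x)
    (V' : Van R y x') : ∃ r, r ≠ 0 ∧ ∀ a, R r a = 0 := by
  obtain ⟨e1, e2, e3, e4, e5, h1, h2, h3, h4, h5, ha⟩ := h.dual
  obtain ⟨c, hc0, hc⟩ := exists_ker (m := 2) (n := 1) (by norm_num) ![![R e4 e1, R e5 e1]]
  have e0 := hc 0
  simp only [Fin.sum_univ_two, Matrix.cons_val_zero, Matrix.cons_val_one] at e0
  have y0 : y (c 0 • e4 + c 1 • e5) = 0 := by simp [h4, h5]
  have x0 : x (c 0 • e4 + c 1 • e5) = 0 := by simp [h4, h5]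
  have x0' : x' (c 0 • e4 + c 1 • e5) = 0 := by simp [h4, h5]
  refine ⟨c 0 • e4 + c 1 • e5, fun h0 => hc0 ?_, fun a => ?_⟩
  · have a1 := congrArg m h0
    have a2 := congrArg m' h0
    simp [h4, h5] at a1 a2
    ext i; fin_cases i <;> simp [a1, a2]
  · have r1 : R (c 0 • e4 + c 1 • e5) e1 = 0 := by simp; linarith
    have r2 := V' _ e2 y0 x0' h2.1 h2.2.2.1
    have r3 := V _ e3 y0 x0 h3.1 h3.2.1
    have r4 := V _ e4 y0 x0 h4.1 h4.2.1
    have r5 := V _ e5 y0 x0 h5.1 h5.2.1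
    rw [ha a]
    simp only [map_add (R _), map_smul (R _), r1, r2, r3, r4, r5]
    simp

lemma six_singular {B q : Bil} (nd : ∀ r, (∀ a, B r a = 0) → r = 0) (c : Fin 6 → ℝ)
    (hc : Function.Injective c) (h : ∀ i, ∃ r, r ≠ 0 ∧ ∀ a, (q - c i • B) r a = 0) : False := by
  choose r hr0 hr using h
  have hB : Function.Injective B := by
    rw [← LinearMap.ker_eq_bot, LinearMap.ker_eq_bot']
    intro a ha
    exact nd a (fun b => by simp [ha])
  let e := LinearMap.linearEquivOfInjective B hB (by simp)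
  let A : Module.End ℝ X5 := e.symm.toLinearMap ∘ₗ q
  have hA : ∀ i, A.HasEigenvector (c i) (r i) := by
    intro i
    refine ⟨?_, hr0 i⟩
    rw [Module.End.mem_eigenspace_iff]
    have : q (r i) = e (c i • r i) := by
      refine LinearMap.ext fun a => ?_
      have := hr i a
      simp only [LinearMap.sub_apply, LinearMap.smul_apply, smul_eq_mul] at this
      simp only [e, LinearMap.linearEquivOfInjective_apply, map_smul, LinearMap.smul_apply,
        smul_eq_mul]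
      linarith
    simp [A, this]
  have := (A.eigenvectors_linearIndependent' c hc r hA).fintype_card_le_finrank
  simp at this

/-- a quadric containing four planes -/
lemma four_planes {R : Bil} (hR : Sy R) {y x x' Y X X' : Fn} (h : Inj5 y x x' Y X) (V1 : Van R y x)
    (V2 : Van R y x') (V3 : Van R Y X) (V4 : Van R Y X') (z : X5) (z1 : Y z = 0) (z2 : X' z = 0)
    (z3 : y z ≠ 0) (z4 : X z ≠ 0) : ∃ μ : ℝ, ∀ a b, R a b = μ * sp y Y a b := by
  obtain ⟨e1, e2, e3, e4, e5, h1, h2, h3, h4, h5, ha⟩ := h.dual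
  have r11 := V3 e1 e1 h1.2.2.2.1 h1.2.2.2.2 h1.2.2.2.1 h1.2.2.2.2
  have r12 := V3 e1 e2 h1.2.2.2.1 h1.2.2.2.2 h2.2.2.2.1 h2.2.2.2.2
  have r13 := V3 e1 e3 h1.2.2.2.1 h1.2.2.2.2 h3.2.2.2.1 h3.2.2.2.2
  have r22 := V3 e2 e2 h2.2.2.2.1 h2.2.2.2.2 h2.2.2.2.1 h2.2.2.2.2
  have r23 := V3 e2 e3 h2.2.2.2.1 h2.2.2.2.2 h3.2.2.2.1 h3.2.2.2.2
  have r33 := V3 e3 e3 h3.2.2.2.1 h3.2.2.2.2 h3.2.2.2.1 h3.2.2.2.2
  have r24 := V2 e2 e4 h2.1 h2.2.2.1 h4.1 h4.2.2.1
  have r25 := V2 e2 e5 h2.1 h2.2.2.1 h5.1 h5.2.2.1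
  have r34 := V1 e3 e4 h3.1 h3.2.1 h4.1 h4.2.1
  have r35 := V1 e3 e5 h3.1 h3.2.1 h5.1 h5.2.1
  have r44 := V1 e4 e4 h4.1 h4.2.1 h4.1 h4.2.1
  have r45 := V1 e4 e5 h4.1 h4.2.1 h5.1 h5.2.1
  have r55 := V1 e5 e5 h5.1 h5.2.1 h5.1 h5.2.1
  have key : ∀ a b, R a b = R e1 e4 * sp y Y a b + R e1 e5 * sp y X a b := by
    intro a b
    have : R a b = R (y a • e1 + x a • e2 + x' a • e3 + Y a • e4 + X a • e5)
        (y b • e1 + x b • e2 + x' b • e3 + Y b • e4 + X b • e5) := by rw [← ha a, ← ha b]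
    rw [this]
    simp only [map_add, map_smul, LinearMap.add_apply, LinearMap.smul_apply, smul_eq_mul,
      hR e2 e1, hR e3 e1, hR e4 e1, hR e5 e1, hR e3 e2, hR e4 e2, hR e5 e2, hR e4 e3, hR e5 e3,
      hR e5 e4, r11, r12, r13, r22, r23, r33, r24, r25, r34, r35, r44, r45, r55, sp_apply]
    ring
  have h0 : R e1 e5 = 0 := by
    have := V4 z z z1 z2 z1 z2
    rw [key] at this
    simp only [sp_apply, z1] at this
    have h' : (y z * X z) * R e1 e5 = 0 := by linear_combination (1/2 : ℝ) * this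
    exact (mul_eq_zero.mp h').resolve_left (mul_ne_zero z3 z4)
  exact ⟨R e1 e4, fun a b => by rw [key, h0]; ring⟩

set_option synthInstance.maxSize 2000 in
/-- six paths `(i,0) (i,1) (i,2)` whose edges are pairwise joined -/
theorem patB (L : LD (Fin 6 × Fin 3))
    (h : ∀ i j : Fin 6, i ≠ j → ∀ s t : Fin 3, s ≠ 1 → t ≠ 1 →
      ∃ z, L.Tan [(i, 1), (i, s), (j, 1), (j, t)] z) : False := by
  choose z hz using h
  have T : ∀ (i : Fin 6) (s : Fin 3) (j : Fin 6) (t : Fin 3) (h : i ≠ j ∧ s ≠ 1 ∧ t ≠ 1),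
      L.Tan [(i, 1), (i, s), (j, 1), (j, t)] (z i j h.1 s t h.2.1 h.2.2) :=
    fun i s j t h => hz i j h.1 s t h.2.1 h.2.2
  let row : X5 → Fin 6 → ℝ := fun w =>
    ![L.l (0, 1) w * w 0, L.l (0, 1) w * w 1, L.l (0, 1) w * w 2, L.l (0, 1) w * w 3,
      L.l (0, 1) w * w 4, L.l (0, 0) w * L.l (0, 2) w]
  have Ta := T 1 0 2 0 (by decide)
  have Tb := T 1 0 2 2 (by decide)
  have Tc := T 1 0 3 0 (by decide)
  have Td := T 1 2 2 0 (by decide)
  have Te := T 2 0 3 0 (by decide)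
  set za := z 1 2 _ 0 0 _ _
  set zb := z 1 2 _ 0 2 _ _
  set zc := z 1 3 _ 0 0 _ _
  set zd := z 1 2 _ 2 0 _ _
  set ze := z 2 3 _ 0 0 _ _
  obtain ⟨c, hc0, hc⟩ := exists_ker (m := 6) (n := 5) (by norm_num)
    ![row za, row zb, row zc, row zd, row ze]
  let lam : Fn := c 0 • LinearMap.proj 0 + c 1 • LinearMap.proj 1 + c 2 • LinearMap.proj 2 +
    c 3 • LinearMap.proj 3 + c 4 • LinearMap.proj 4
  have hlam : ∀ w, lam w = c 0 * w 0 + c 1 * w 1 + c 2 * w 2 + c 3 * w 3 + c 4 * w 4 := by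
    intro w; simp [lam]
  set q : Bil := sp (L.l (0, 1)) lam + c 5 • sp (L.l (0, 0)) (L.l (0, 2)) with hqd
  have hqa : ∀ a b, q a b = sp (L.l (0, 1)) lam a b + c 5 * sp (L.l (0, 0)) (L.l (0, 2)) a b := by
    intro a b; simp [hqd]
  have hq : Sy q := by intro a b; rw [hqa, hqa]; simp only [sp_apply]; ring
  have hrow : ∀ w, ∑ j, row w j * c j = 0 → q w w = 0 := by
    intro w hw
    simp only [row, Fin.sum_univ_six, Matrix.cons_val_zero, Matrix.cons_val_one,
      Matrix.cons_val] at hw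
    rw [hqa]; simp only [sp_apply, hlam]
    linear_combination 2 * hw
  have qa : q za za = 0 := hrow _ (hc 0)
  have qb : q zb zb = 0 := hrow _ (hc 1)
  have qc : q zc zc = 0 := hrow _ (hc 2)
  have qd : q zd zd = 0 := hrow _ (hc 3)
  have qe : q ze ze = 0 := hrow _ (hc 4)
  let Good : Fin 6 → ℝ → Prop := fun i κ =>
    Van (q - κ • L.B) (L.l (i, 1)) (L.l (i, 0)) ∧ Van (q - κ • L.B) (L.l (i, 1)) (L.l (i, 2))
  have qz : ∀ {i κ F w}, Good i κ → L.Tan F w → (i, 1) ∈ F ∧ ((i, 0) ∈ F ∨ (i, 2) ∈ F) →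
      q w w = 0 := by
    intro i κ F w hG hT hF
    have : (q - κ • L.B) w w = 0 := by
      rcases hF.2 with h | h
      · exact hG.1 w w (hT.z _ hF.1) (hT.z _ h) (hT.z _ hF.1) (hT.z _ h)
      · exact hG.2 w w (hT.z _ hF.1) (hT.z _ h) (hT.z _ hF.1) (hT.z _ h)
    simpa [hT.n] using this
  have G0 : Good 0 0 := by
    constructor
    · intro a b h1 h2 h3 h4; simp [hqa, h1, h2, h3, h4]
    · intro a b h1 h2 h3 h4; simp [hqa, h1, h2, h3, h4]
  have first : ∀ (i j : Fin 6) {F1 F2 F3 F4 F5 w1 w2 w3 w4 w5}, L.Tan F1 w1 → L.Tan F2 w2 →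
      L.Tan F3 w3 → L.Tan F4 w4 → L.Tan F5 w5 → q w1 w1 = 0 → q w2 w2 = 0 → q w3 w3 = 0 →
      q w4 w4 = 0 → q w5 w5 = 0 →
      ([(i, 1), (i, 0), (i, 2), (j, 0), (j, 1)] : List (Fin 6 × Fin 3)).Nodup ∧
      ((i, 1) ∈ F1 ∧ (i, 1) ∈ F2 ∧ (i, 1) ∈ F3 ∧ (i, 0) ∈ F1 ∧ (i, 0) ∈ F2 ∧ (i, 0) ∈ F3 ∧
        (∃ v ∈ F1, v ∉ F2) ∧ (∃ v ∈ F1, v ∉ F3) ∧ (∃ v ∈ F2, v ∉ F3)) ∧
      (i, 1) ∈ F4 ∧ (i, 0) ∈ F4 ∧ (i, 1) ∈ F5 ∧ (i, 0) ∈ F5 ∧ (∃ v ∈ F1, v ∉ F4) ∧
      (∃ v ∈ F2, v ∉ F4) ∧ (∃ v ∈ F3, v ∉ F4) ∧ (∃ v ∈ F1, v ∉ F5) ∧ (∃ v ∈ F2, v ∉ F5) ∧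
      (∃ v ∈ F3, v ∉ F5) ∧ (∃ v ∈ F4, v ∉ F5) →
      ∃ κ : ℝ, Van (q - κ • L.B) (L.l (i, 1)) (L.l (i, 0)) := by
    intro i j F1 F2 F3 F4 F5 w1 w2 w3 w4 w5 t1 t2 t3 t4 t5 q1 q2 q3 q4 q5
      ⟨n, s, a1, a2, a3, a4, b1, b2, b3, b4, b5, b6, b7⟩
    exact five_pts L.sy hq (L.pl _ _ _ _ _ n) (LD.tri t1 t2 t3 _ _ s) (t4.z _ a1) (t4.z _ a2)
      (t5.z _ a3) (t5.z _ a4) t4.n t5.n (t1.ne t4 b1) (t2.ne t4 b2) (t3.ne t4 b3) (t1.ne t5 b4)
      (t2.ne t5 b5) (t3.ne t5 b6) (t4.ne t5 b7) q1 q2 q3 q4 q5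
  have second : ∀ (i j : Fin 6) {κ : ℝ} {F1 F2 F3 w1 w2 w3},
      Van (q - κ • L.B) (L.l (i, 1)) (L.l (i, 0)) → L.Tan F1 w1 → L.Tan F2 w2 →
      L.Tan F3 w3 → q w1 w1 = 0 → q w2 w2 = 0 → q w3 w3 = 0 →
      ([(i, 1), (i, 2), (i, 0), (j, 0), (j, 1)] : List (Fin 6 × Fin 3)).Nodup ∧
      ((i, 1) ∈ F1 ∧ (i, 1) ∈ F2 ∧ (i, 1) ∈ F3 ∧ (i, 2) ∈ F1 ∧ (i, 2) ∈ F2 ∧ (i, 2) ∈ F3 ∧
        (∃ v ∈ F1, v ∉ F2) ∧ (∃ v ∈ F1, v ∉ F3) ∧ (∃ v ∈ F2, v ∉ F3)) ∧
      (i, 0) ∉ F1 ∧ (i, 0) ∉ F2 ∧ (i, 0) ∉ F3 → Good i κ := by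
    intro i j κ F1 F2 F3 w1 w2 w3 V t1 t2 t3 q1 q2 q3 ⟨n, s, a1, a2, a3⟩
    exact ⟨V, prop_step L.sy (L.sy.sub_smul hq κ) V.symm (L.pl _ _ _ _ _ n)
      (LD.tri t1 t2 t3 _ _ s) (t1.p _ a1).ne' (t2.p _ a2).ne' (t3.p _ a3).ne'
      (by simp [q1, t1.n]) (by simp [q2, t2.n]) (by simp [q3, t3.n])⟩
  obtain ⟨κ1, G1⟩ : ∃ κ, Good 1 κ := by
    have t1 := T 1 0 0 0 (by decide)
    have t2 := T 1 0 0 2 (by decide)
    obtain ⟨κ, V⟩ := first 1 0 t1 t2 Ta Tb Tc (qz G0 t1 (by decide)) (qz G0 t2 (by decide)) qa qb qc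
      (by decide)
    have t3 := T 1 2 0 0 (by decide)
    have t4 := T 1 2 0 2 (by decide)
    exact ⟨κ, second 1 0 V t3 t4 Td (qz G0 t3 (by decide)) (qz G0 t4 (by decide)) qd (by decide)⟩
  obtain ⟨κ2, G2⟩ : ∃ κ, Good 2 κ := by
    have t1 := T 2 0 0 0 (by decide)
    have t2 := T 2 0 0 2 (by decide)
    have t3 := T 2 0 1 0 (by decide)
    have t4 := T 2 0 1 2 (by decide)
    obtain ⟨κ, V⟩ := first 2 0 t1 t2 t3 t4 Te (qz G0 t1 (by decide)) (qz G0 t2 (by decide))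
      (qz G1 t3 (by decide)) (qz G1 t4 (by decide)) qe (by decide)
    have t5 := T 2 2 0 0 (by decide)
    have t6 := T 2 2 0 2 (by decide)
    have t7 := T 2 2 1 0 (by decide)
    exact ⟨κ, second 2 0 V t5 t6 t7 (qz G0 t5 (by decide)) (qz G0 t6 (by decide))
      (qz G1 t7 (by decide)) (by decide)⟩
  have Gk : ∀ k : Fin 6, k ≠ 0 → k ≠ 1 → k ≠ 2 → ∃ κ, Good k κ := by
    intro k k0 k1 k2
    have t1 := T k 0 0 0 ⟨k0, by decide, by decide⟩
    have t2 := T k 0 0 2 ⟨k0, by decide, by decide⟩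
    have t3 := T k 0 1 0 ⟨k1, by decide, by decide⟩
    have t4 := T k 0 1 2 ⟨k1, by decide, by decide⟩
    have t5 := T k 0 2 0 ⟨k2, by decide, by decide⟩
    obtain ⟨κ, V⟩ := first k 0 t1 t2 t3 t4 t5 (qz G0 t1 (by simp)) (qz G0 t2 (by simp))
      (qz G1 t3 (by simp)) (qz G1 t4 (by simp)) (qz G2 t5 (by simp))
      (by clear * - k0 k1 k2; revert k; decide)
    have t6 := T k 2 0 0 ⟨k0, by decide, by decide⟩
    have t7 := T k 2 0 2 ⟨k0, by decide, by decide⟩
    have t8 := T k 2 1 0 ⟨k1, by decide, by decide⟩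
    exact ⟨κ, second k 0 V t6 t7 t8 (qz G0 t6 (by simp)) (qz G0 t7 (by simp))
      (qz G1 t8 (by simp)) (by clear * - k0 k1 k2; revert k; decide)⟩
  have Gall : ∀ k : Fin 6, ∃ κ, Good k κ := by
    intro k
    by_cases k0 : k = 0
    · exact ⟨0, k0 ▸ G0⟩
    by_cases k1 : k = 1
    · exact ⟨κ1, k1 ▸ G1⟩
    by_cases k2 : k = 2
    · exact ⟨κ2, k2 ▸ G2⟩
    exact Gk k k0 k1 k2
  choose κ hκ using Gall
  by_cases hinj : Function.Injective κ
  · refine six_singular (B := L.B) (q := q) (fun r hr => ?_) κ hinj fun i => ?_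
    · obtain ⟨t, rfl⟩ := L.rad r za Ta.1 (hr _) (hr _)
      have := hr zb
      simp only [map_smul, LinearMap.smul_apply, smul_eq_mul] at this
      rw [(mul_eq_zero.mp this).resolve_right (Ta.ne Tb (by decide)), zero_smul]
    obtain ⟨j, hj⟩ := exists_ne i
    exact radical (L.inj (i, 1) (i, 0) (i, 2) (j, 0) (j, 1) (by simp [hj.symm])) (hκ i).1 (hκ i).2
  obtain ⟨i, j, hij, hne⟩ := Function.not_injective_iff.mp hinj
  obtain ⟨k, ki, kj⟩ : ∃ k : Fin 6, k ≠ i ∧ k ≠ j := by clear * -; revert i j; decide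
  have t0 := T j 2 k 0 ⟨kj.symm, by decide, by decide⟩
  obtain ⟨μ, hμ⟩ := four_planes (L.sy.sub_smul hq (κ i))
    (L.inj (i, 1) (i, 0) (i, 2) (j, 1) (j, 0) (by simp [hne])) (hκ i).1 (hκ i).2
    (hij ▸ (hκ j).1) (hij ▸ (hκ j).2) _ (t0.z _ (by simp)) (t0.z (j, 2) (by simp))
    (t0.p _ (by simp [hne, ki.symm])).ne' (t0.p _ (by simp [kj.symm])).ne'
  have t1 := T k 0 i 0 ⟨ki, by decide, by decide⟩
  have t2 := T k 0 i 2 ⟨ki, by decide, by decide⟩
  have t3 := T k 0 j 0 ⟨kj, by decide, by decide⟩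
  have v12 := (hκ k).1 _ _ (t1.z _ (by simp)) (t1.z _ (by simp)) (t2.z _ (by simp))
    (t2.z _ (by simp))
  have v13 := (hκ k).1 _ _ (t1.z _ (by simp)) (t1.z _ (by simp)) (t3.z _ (by simp))
    (t3.z _ (by simp))
  have u12 := hμ (z k i ki 0 0 (by decide) (by decide)) (z k i ki 0 2 (by decide) (by decide))
  have u13 := hμ (z k i ki 0 0 (by decide) (by decide)) (z k j kj 0 0 (by decide) (by decide))
  simp only [LinearMap.sub_apply, LinearMap.smul_apply, smul_eq_mul, sp_apply,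
    t1.z (i, 1) (by simp), t2.z (i, 1) (by simp), t3.z (j, 1) (by simp)] at v12 v13 u12 u13
  have e1 : κ k = κ i := by
    have h' := t1.ne t2 ⟨(i, 0), by simp, by simp [ki.symm]⟩
    have : (κ k - κ i) * L.B (z k i ki 0 0 (by decide) (by decide))
        (z k i ki 0 2 (by decide) (by decide)) = 0 := by linear_combination u12 - v12
    have := (mul_eq_zero.mp this).resolve_right h'
    linarith
  have e2 : μ = 0 := by
    have p1 := t1.p (j, 1) (by simp [kj.symm, hne.symm])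
    have p2 := t3.p (i, 1) (by simp [ki.symm, hne])
    rw [e1] at v13
    have : μ * (L.l (j, 1) (z k i ki 0 0 (by decide) (by decide)) *
        L.l (i, 1) (z k j kj 0 0 (by decide) (by decide))) = 0 := by linear_combination v13 - u13
    exact (mul_eq_zero.mp this).resolve_right (mul_pos p1 p2).ne'
  have e3 : κ i = 0 := by
    have t4 := T 0 0 1 0 (by decide)
    have t5 := T 0 0 1 2 (by decide)
    have a1 := G0.1 _ _ (t4.z _ (by decide)) (t4.z _ (by decide)) (t5.z _ (by decide))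
      (t5.z _ (by decide))
    have a2 := hμ (z 0 1 (by decide) 0 0 (by decide) (by decide))
      (z 0 1 (by decide) 0 2 (by decide) (by decide))
    simp only [LinearMap.sub_apply, LinearMap.smul_apply, smul_eq_mul, e2] at a1 a2
    have h' := t4.ne t5 (by decide)
    have : κ i * L.B (z 0 1 (by decide) 0 0 (by decide) (by decide))
      (z 0 1 (by decide) 0 2 (by decide) (by decide)) = 0 := by linear_combination a1 - a2
    exact (mul_eq_zero.mp this).resolve_right h'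
  have q0 : ∀ a b, q a b = 0 := by
    intro a b
    simpa [e2, e3] using hμ a b
  have I := L.inj (0, 1) (0, 0) (0, 2) (1, 0) (1, 1) (by decide)
  have c5 : c 5 = 0 := by
    obtain ⟨a, a1, a2, a3, -⟩ := I.surj 0 1 1 0 0
    have := q0 a a
    rw [hqa] at this
    simp only [sp_apply, a1, a2, a3] at this
    linarith
  have l0 : ∀ b, lam b = 0 := by
    obtain ⟨a, a1, -⟩ := I.surj 1 0 0 0 0
    have h1 := q0 a a
    rw [hqa] at h1
    simp only [sp_apply, a1, c5] at h1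
    intro b
    have h2 := q0 a b
    rw [hqa] at h2
    simp only [sp_apply, a1, c5] at h2
    have : lam a = 0 := by linarith
    rw [this] at h2
    linarith
  apply hc0
  have b0 := l0 (Pi.single 0 1)
  have b1 := l0 (Pi.single 1 1)
  have b2 := l0 (Pi.single 2 1)
  have b3 := l0 (Pi.single 3 1)
  have b4 := l0 (Pi.single 4 1)
  simp [hlam] at b0 b1 b2 b3 b4
  ext i; fin_cases i <;> simp [b0, b1, b2, b3, b4, c5]

end Pool.Agent.MP_04a200_co

end MrgPart5

-- ======== part 6: formerly Pool.Agent.MP_04a200_co.SewMain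
section MrgPart6

/-! Eleven successive sewings produce one of the two forbidden patterns. -/

set_option autoImplicit false

namespace Pool.Agent.MP_04a200_co

open Finset

/-- a path with three edges joined to a path with four edges -/
def PatA {α : Type} (Φ : α → α → α → α → Prop) (G : Finset α) : Prop :=
  ∃ v : Fin 9 → α, Function.Injective v ∧ (∀ i, v i ∈ G) ∧
    ∀ p ∈ [((0 : Fin 9), (1 : Fin 9)), (1, 2), (2, 3)],
      ∀ q ∈ [((4 : Fin 9), (5 : Fin 9)), (5, 6), (6, 7), (7, 8)],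
        Φ (v p.1) (v p.2) (v q.1) (v q.2)

/-- six pairwise joined paths with two edges -/
def PatB {α : Type} (Φ : α → α → α → α → Prop) (G : Finset α) : Prop :=
  ∃ v : Fin 6 × Fin 3 → α, Function.Injective v ∧ (∀ i, v i ∈ G) ∧
    ∀ i j : Fin 6, i ≠ j → ∀ s t : Fin 3, s ≠ 1 → t ≠ 1 →
      Φ (v (i, 1)) (v (i, s)) (v (j, 1)) (v (j, t))

lemma PatA.imp {α : Type} {Φ Ψ : α → α → α → α → Prop} {G : Finset α} (h : PatA Φ G)
    (hi : ∀ a ∈ G, ∀ b ∈ G, ∀ c ∈ G, ∀ d ∈ G, Φ a b c d → Ψ a b c d) : PatA Ψ G := by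
  obtain ⟨v, h1, h2, h3⟩ := h
  exact ⟨v, h1, h2, fun p hp q hq => hi _ (h2 _) _ (h2 _) _ (h2 _) _ (h2 _) (h3 p hp q hq)⟩

lemma PatB.imp {α : Type} {Φ Ψ : α → α → α → α → Prop} {G : Finset α} (h : PatB Φ G)
    (hi : ∀ a ∈ G, ∀ b ∈ G, ∀ c ∈ G, ∀ d ∈ G, Φ a b c d → Ψ a b c d) : PatB Ψ G := by
  obtain ⟨v, h1, h2, h3⟩ := h
  exact ⟨v, h1, h2, fun i j hij s t hs ht =>
    hi _ (h2 _) _ (h2 _) _ (h2 _) _ (h2 _) (h3 i j hij s t hs ht)⟩

lemma patA_mk {α : Type} {Φ : α → α → α → α → Prop} {G : Finset α} (v0 v1 v2 v3 : α) (a : ℕ → α)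
    (h0 : v0 ∈ G) (h1 : v1 ∈ G) (h2 : v2 ∈ G) (h3 : v3 ∈ G) (hn : [v0, v1, v2, v3].Nodup)
    (hm : ∀ k < 5, a k ∈ G) (hav : ∀ k < 5, a k ∉ [v0, v1, v2, v3])
    (hi : ∀ k < 5, ∀ l < 5, a k = a l → k = l) (j1 : ∀ k < 4, Φ v0 v1 (a k) (a (k + 1)))
    (j2 : ∀ k < 4, Φ v1 v2 (a k) (a (k + 1))) (j3 : ∀ k < 4, Φ v2 v3 (a k) (a (k + 1))) :
    PatA Φ G := by
  refine ⟨![v0, v1, v2, v3, a 0, a 1, a 2, a 3, a 4], ?_, ?_, ?_⟩
  · rw [← List.nodup_ofFn]
    have := hav 0 (by omega)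
    have := hav 1 (by omega)
    have := hav 2 (by omega)
    have := hav 3 (by omega)
    have := hav 4 (by omega)
    have := hi 0 (by omega) 1 (by omega)
    have := hi 0 (by omega) 2 (by omega)
    have := hi 0 (by omega) 3 (by omega)
    have := hi 0 (by omega) 4 (by omega)
    have := hi 1 (by omega) 2 (by omega)
    have := hi 1 (by omega) 3 (by omega)
    have := hi 1 (by omega) 4 (by omega)
    have := hi 2 (by omega) 3 (by omega)
    have := hi 2 (by omega) 4 (by omega)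
    have := hi 3 (by omega) 4 (by omega)
    show [v0, v1, v2, v3, a 0, a 1, a 2, a 3, a 4].Nodup
    simp only [List.nodup_cons, List.mem_cons, List.not_mem_nil, List.nodup_nil] at *
    grind
  · intro i
    fin_cases i
    exacts [h0, h1, h2, h3, hm 0 (by omega), hm 1 (by omega), hm 2 (by omega), hm 3 (by omega),
      hm 4 (by omega)]
  · simp only [List.mem_cons, List.not_mem_nil, or_false]
    rintro p (rfl | rfl | rfl) q (rfl | rfl | rfl | rfl)
    exacts [j1 0 (by omega), j1 1 (by omega), j1 2 (by omega), j1 3 (by omega),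
      j2 0 (by omega), j2 1 (by omega), j2 2 (by omega), j2 3 (by omega),
      j3 0 (by omega), j3 1 (by omega), j3 2 (by omega), j3 3 (by omega)]

namespace Chi

variable {α : Type} [DecidableEq α] {χ : Chi α} {G : Finset α} {x y z : α}

inductive Sewn (χ : Chi α) : ℕ → Finset α → Prop
  | zero (G : Finset α) : Sewn χ 0 G
  | succ {n : ℕ} {G : Finset α} {x y z : α} : Sewn χ n G → χ.Step G x y z →
      Sewn χ (n + 1) (insert y G)

structure InvB (χ : Chi α) (G : Finset α) (n K : ℕ) (T : ℕ → Fin 3 → α) (col : ℕ → Bool) :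
    Prop where
  mem : ∀ i < n, ∀ k, T i k ∈ G
  inj : ∀ i < n, ∀ j < n, ∀ k l, T i k = T j l → i = j ∧ k = l
  b1 : ∀ i < n, ∀ j < n, i ≠ j → col i = col j → ∀ s t, s ≠ 1 → t ≠ 1 →
    χ.Fac G (T i 1) (T i s) (T j 1) (T j t)
  b2 : ∀ u ∈ G, ∀ v ∈ G, u ≠ v → χ.Insep G u v → (∀ j < n, ∀ k, T j k ≠ u ∧ T j k ≠ v) →
    ∀ i < n, ∀ s, s ≠ 1 → χ.Fac G (T i 1) (T i s) u v
  b3 : ∀ b ∈ G, ∀ t ∈ G, b ≠ t → χ.Insep G b t → (∃ i < n, ∃ k, T i k = b ∨ T i k = t) →
    χ.J2 G K b t ∨ χ.J2 G K t b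

lemma Step.fresh (St : χ.Step G x y z) (hN : χ.Nz (insert y G)) (hC : χ.Circ (insert y G)) {K : ℕ}
    (hK : K = 0 ∨ 5 * K + 3 ≤ (insert y G).card) {b t : α} (ht : t ∈ insert y G) (hbt : b ≠ t)
    (hI : χ.Insep (insert y G) b t) (hb : b ∈ [x, y, z]) :
    χ.J2 (insert y G) K b t ∨ χ.J2 (insert y G) K t b := by
  have hy := St.hy
  have hx := St.hx
  have hz := St.hz
  have xz := St.xz
  have mx : x ∈ insert y G := by grind
  have my : y ∈ insert y G := by grind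
  have mz : z ∈ insert y G := by grind
  simp only [List.mem_cons, List.not_mem_nil, or_false] at hb
  rcases hb with rfl | rfl | rfl
  · by_cases h : t = y
    · subst h
      exact Or.inr (j2_fresh hN hC mz my mx (by grind) St.i2.symm St.i1.symm hK)
    · exact Or.inl (j2_fresh hN hC my mx ht (by grind) St.i1.symm hI hK)
  · by_cases h : t = x
    · exact Or.inl (j2_fresh hN hC mz my ht (by grind) St.i2.symm hI hK)
    · exact Or.inl (j2_fresh hN hC mx my ht (by grind) St.i1 hI hK)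
  · by_cases h : t = y
    · subst h
      exact Or.inr (j2_fresh hN hC mx my mz (by grind) St.i1 St.i2 hK)
    · exact Or.inl (j2_fresh hN hC my mz ht (by grind) St.i2 hI hK)

lemma Step.invB (St : χ.Step G x y z) (hN : χ.Nz (insert y G)) (hC : χ.Circ (insert y G))
    {n K : ℕ} (hK : K - 2 = 0 ∨ 5 * (K - 2) + 3 ≤ (insert y G).card) {T : ℕ → Fin 3 → α}
    {col : ℕ → Bool} (h : χ.InvB G n K T col) :
    χ.JA (insert y G) (K - 2) ∨ ∃ T' col', χ.InvB (insert y G) (n + 1) (K - 2) T' col' := by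
  have hy := St.hy
  have hx := St.hx
  have hz := St.hz
  have xz := St.xz
  by_cases hm : ∃ i < n, ∃ k, T i k = x ∨ T i k = z
  · left
    rcases h.b3 x hx z hz xz St.insep hm with h1 | h1
    · exact St.j2a hN hC h1
    · exact St.symm.j2a hN hC h1
  right
  have hd : ∀ j < n, ∀ k, T j k ≠ x ∧ T j k ≠ z := by
    intro j hj k
    exact ⟨fun e => hm ⟨j, hj, k, Or.inl e⟩, fun e => hm ⟨j, hj, k, Or.inr e⟩⟩
  have mx : x ∈ insert y G := by grind
  have my : y ∈ insert y G := by grind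
  have mz : z ∈ insert y G := by grind
  have hP := pol_of hN hC mx my St.i1
  have nd : ∀ i < n, ∀ s, s ≠ 1 → [x, z, T i 1, T i s].Nodup := by
    intro i hi s hs
    have := hd i hi 1
    have := hd i hi s
    have := h.inj i hi i hi 1 s
    grind
  obtain ⟨i0, hi0⟩ : ∃ i0, ∀ i < n, i ≠ i0 → ∀ s, s ≠ 1 →
      ¬ χ.Fac (insert y G) x z (T i 1) (T i s) := by
    by_cases he : ∃ i < n, ∃ s, s ≠ 1 ∧ χ.Fac (insert y G) x z (T i 1) (T i s)
    · obtain ⟨j, hj, t, ht, hF⟩ := he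
      refine ⟨j, fun i hi hij s hs hF' => ?_⟩
      have n1 := nd i hi s hs
      have n2 := nd j hj t ht
      have n3 := h.inj i hi j hj 1 1
      have n4 := h.inj i hi j hj s 1
      exact St.uniq hP (h.mem i hi 1) (h.mem i hi s) (h.mem j hj 1) (h.mem j hj t) (by grind) n2
        hF' hF
    · exact ⟨0, fun i hi _ s hs hF => he ⟨i, hi, s, hs, hF⟩⟩
  let N : Fin 3 → α := ![x, y, z]
  have hN3 : ∀ k, N k ∈ [x, y, z] := by intro k; fin_cases k <;> simp [N]
  have hN1 : N 1 = y := rfl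
  have hNs : ∀ s, s ≠ 1 → N s = x ∨ N s = z := by intro s hs; fin_cases s <;> simp_all [N]
  have hNi : ∀ k l, N k = N l → k = l := by
    intro k l; fin_cases k <;> fin_cases l <;> simp [N] <;> grind
  let T' : ℕ → Fin 3 → α := fun i => if i = n then N else T i
  let col' : ℕ → Bool := fun i => if i = n then !col i0 else col i
  have t1 : ∀ i < n, T' i = T i := fun i hi => if_neg hi.ne
  have t2 : T' n = N := if_pos rfl
  have c1 : ∀ i < n, col' i = col i := fun i hi => if_neg hi.ne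
  have c2 : col' n = !col i0 := if_pos rfl
  have new : ∀ i < n, col' i = col' n → ∀ s t, s ≠ 1 → t ≠ 1 →
      χ.Fac (insert y G) (T i 1) (T i s) y (N t) := by
    intro i hi hc s t hs ht
    rw [c1 i hi, c2] at hc
    have hii : i ≠ i0 := by rintro rfl; simp at hc
    obtain ⟨f1, f2⟩ := (St.split hN (h.mem i hi 1) (h.mem i hi s) (nd i hi s hs)
      (h.b2 x hx z hz xz St.insep hd i hi s hs).mv).resolve_left (hi0 i hi hii s hs)
    rcases hNs t ht with e | e <;> rw [e]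
    · exact f1.f1.mv
    · exact f2.mv
  refine ⟨T', col', fun i hi k => ?_, fun i hi j hj k l e => ?_,
    fun i hi j hj hij hc s t hs ht => ?_, fun u hu v hv huv hI hav i hi s hs => ?_,
    fun b hb t ht hbt hI hm' => ?_⟩
  · rcases Nat.lt_succ_iff_lt_or_eq.mp hi with hi | rfl
    · rw [t1 i hi]; exact mem_insert_of_mem (h.mem i hi k)
    · rw [t2]; have := hN3 k; grind
  · rcases Nat.lt_succ_iff_lt_or_eq.mp hi with hi | rfl <;>
      rcases Nat.lt_succ_iff_lt_or_eq.mp hj with hj | rfl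
    · rw [t1 i hi, t1 j hj] at e; exact h.inj i hi j hj k l e
    · rw [t1 i hi, t2] at e
      have := hN3 l; have := hd i hi k; have := h.mem i hi k; grind
    · rw [t1 j hj, t2] at e
      have := hN3 k; have := hd j hj l; have := h.mem j hj l; grind
    · rw [t2] at e; exact ⟨rfl, hNi k l e⟩
  · rcases Nat.lt_succ_iff_lt_or_eq.mp hi with hi | rfl <;>
      rcases Nat.lt_succ_iff_lt_or_eq.mp hj with hj | rfl
    · rw [t1 i hi, t1 j hj]
      rw [c1 i hi, c1 j hj] at hc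
      have := hd i hi 1; have := hd i hi s; have := hd j hj 1; have := hd j hj t
      exact St.keep (h.mem i hi 1) (h.mem i hi s) (h.mem j hj 1) (h.mem j hj t) (by grind)
        (h.b1 i hi j hj hij hc s t hs ht)
    · rw [t1 i hi, t2, hN1]; exact new i hi hc s t hs ht
    · rw [t1 j hj, t2, hN1]; exact (new j hj hc.symm t s ht hs).mv
    · exact absurd rfl hij
  · have a0 := hav n (by omega) 0
    have a1 := hav n (by omega) 1
    have a2 := hav n (by omega) 2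
    rw [t2] at a0 a1 a2
    change x ≠ u ∧ x ≠ v at a0
    change y ≠ u ∧ y ≠ v at a1
    change z ≠ u ∧ z ≠ v at a2
    rcases Nat.lt_succ_iff_lt_or_eq.mp hi with hi | rfl
    · rw [t1 i hi]
      have hu' : u ∈ G := by grind
      have hv' : v ∈ G := by grind
      have := hd i hi 1; have := hd i hi s
      refine St.keep (h.mem i hi 1) (h.mem i hi s) hu' hv' (by grind)
        (h.b2 u hu' v hv' huv (hI.mono (subset_insert _ _)) (fun j hj k => ?_) i hi s hs)
      rw [← t1 j hj]; exact hav j (by omega) k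
    · rw [t2, hN1]
      rcases hNs s hs with e | e <;> rw [e]
      · exact fac_insep (pol_of hN hC my mx St.i1.symm) my mx hu hv hI (by grind)
      · exact fac_insep (pol_of hN hC my mz St.i2) my mz hu hv hI (by grind)
  · by_cases h1 : b ∈ [x, y, z]
    · exact St.fresh hN hC hK ht hbt hI h1
    by_cases h2 : t ∈ [x, y, z]
    · exact (St.fresh hN hC hK hb hbt.symm hI.symm h2).symm
    have hb' : b ∈ G := by grind
    have ht' : t ∈ G := by grind
    obtain ⟨i, hi, k, e⟩ := hm'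
    rcases Nat.lt_succ_iff_lt_or_eq.mp hi with hi | rfl
    · rw [t1 i hi] at e
      rcases h.b3 b hb' t ht' hbt (hI.mono (subset_insert _ _)) ⟨i, hi, k, e⟩ with h3 | h3
      · exact Or.inl (St.j2keep hb' ht' (by grind) h3)
      · exact Or.inr (St.j2keep ht' hb' (by grind) h3)
    · rw [t2] at e
      have := hN3 k; grind

lemma Sewn.inv {n : ℕ} (h : χ.Sewn n G) (hN : χ.Nz G) (hC : χ.Circ G) (v : α) (K : ℕ)
    (hK : 5 * K + n ≤ G.card + 8) :
    χ.JA G (K - 2 * n) ∨ ∃ T col, χ.InvB G n (K - 2 * n) T col := by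
  induction h with
  | zero G =>
    exact Or.inr ⟨fun _ _ => v, fun _ => true, by simp, by simp, by simp, by simp, by simp⟩
  | @succ n G x y z _ St ih =>
    have hc := card_insert_of_notMem St.hy
    have e : K - 2 * (n + 1) = K - 2 * n - 2 := by omega
    rw [e]
    rcases ih (hN.mono (subset_insert _ _)) (hC.mono (subset_insert _ _)) (by omega) with
      h1 | ⟨T, col, h1⟩
    · exact Or.inl (St.ja hN hC h1)
    · exact St.invB hN hC (by omega) h1

theorem Sewn.pat (h : χ.Sewn 11 G) (hN : χ.Nz G) (hC : χ.Circ G) (hK : 118 ≤ G.card) :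
    PatA (χ.Fac G) G ∨ PatB (χ.Fac G) G := by
  obtain ⟨w, -⟩ := card_pos.mp (show 0 < G.card by omega)
  rcases h.inv hN hC w 23 (by omega) with h1 | ⟨T, col, h1⟩
  · left
    obtain ⟨v0, h0, v1, h1, v2, h2, v3, h3, hn, I, a, hI, F, j1, j2, j3⟩ := h1
    obtain ⟨i, hi⟩ := card_pos.mp (show 0 < I.card by omega)
    exact patA_mk v0 v1 v2 v3 (a i) h0 h1 h2 h3 hn (F.mem i hi) (F.av i hi)
      (fun k hk l hl e => (F.inj i hi i hi k hk l hl e).2) (j1 i hi) (j2 i hi) (j3 i hi)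
  · right
    obtain ⟨c, -, hc⟩ := exists_lt_card_fiber_of_mul_lt_card_of_maps_to (s := range 11)
      (t := (univ : Finset Bool)) (f := col) (n := 5) (by simp) (by simp)
    let e := orderEmbOfCardLe (s := (range 11).filter fun i => col i = c) (k := 6) (by omega)
    have he : ∀ i, e i < 11 ∧ col (e i) = c := by
      intro i
      have := orderEmbOfCardLe_mem ((range 11).filter fun i => col i = c) (k := 6) (by omega) i
      simpa using this
    refine ⟨fun p => T (e p.1) p.2, fun p q hpq => ?_, fun p => h1.mem _ (he _).1 _,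
      fun i j hij s t hs ht => ?_⟩
    · obtain ⟨a, b⟩ := h1.inj _ (he _).1 _ (he _).1 _ _ hpq
      exact Prod.ext (e.injective a) b
    · exact h1.b1 _ (he _).1 _ (he _).1 (fun h => hij (e.injective h))
        ((he i).2.trans (he j).2.symm) s t hs ht

end Chi

end Pool.Agent.MP_04a200_co

end MrgPart6

-- ======== part 7: formerly Pool.Agent.MP_04a200_co.GeoLD
section MrgPart7

/-! A circumscribed realization gives Lorentzian data; the two patterns are obstructions. -/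

set_option autoImplicit false

open Classical

namespace Pool.Agent.MP_04a200_co

open Finset

variable {d : ℕ} {ι : Type} [DecidableEq ι] {p : ι → E d} {V σ : Finset ι}

/-- all facets are tangent to the unit sphere -/
def TanAll (W : Finset (E d)) : Prop :=
  ∀ F : Finset (E d), F ⊆ W → Module.finrank ℝ (vectorSpan ℝ (F : Set (E d))) = d - 1 →
    IsFace W F → ∃ u : E d, ‖u‖ = 1 ∧ ∀ v ∈ W, inner ℝ u v ≤ 1 ∧ (inner ℝ u v = 1 ↔ v ∈ F)

lemma NbI.tangent (hN : NbI p V σ) (hd : σ.card + 4 = d) (hi : Set.InjOn p V)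
    (hT : TanAll (V.image p)) {a b c e : ι} (ha : a ∈ V \ σ) (hb : b ∈ V \ σ) (hc : c ∈ V \ σ)
    (he : e ∈ V \ σ) (hn : [a, b, c, e].Nodup) (hF : FaceI p V (σ ∪ {a, b, c, e})) :
    ∃ u : E d, ‖u‖ = 1 ∧ ∀ v ∈ V, inner ℝ u (p v) ≤ 1 ∧
      (inner ℝ u (p v) = 1 ↔ v ∈ σ ∪ {a, b, c, e}) := by
  have hσ := hN.1
  have hS : σ ∪ {a, b, c, e} ⊆ V := by intro x hx; grind
  have ht : ∀ k, ![a, b, c, e] k ∈ V \ σ := by intro k; fin_cases k <;> assumption
  let v : σ ⊕ Fin 4 → ι := Sum.elim (fun s => s) ![a, b, c, e]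
  have hv : Function.Injective v := by
    refine Subtype.val_injective.sumElim (inj_of_nodup _ hn) fun a b e => ?_
    exact (mem_sdiff.mp (ht b)).2 (e ▸ a.2)
  have hA := hN.affInd hv (by
    rintro (s | k)
    · exact hN.1 s.2
    · exact (mem_sdiff.mp (ht k)).1) (by
    refine le_trans (card_le_card (t := univ.image Sum.inr) ?_) (card_image_le.trans (by simp))
    rintro (s | k) h
    · simp [v] at h
    · simp)
  have hr : Set.range (fun k => p (v k)) = (((σ ∪ {a, b, c, e}).image p : Finset (E d)) :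
      Set (E d)) := by
    rw [coe_image, show (fun k => p (v k)) = p ∘ v from rfl, Set.range_comp]
    congr 1
    ext x
    simp [v, Set.Sum.elim_range, Matrix.range_cons, Matrix.range_empty]
    tauto
  obtain ⟨u, hu, h⟩ := hT _ (image_subset_image hS) (by
    rw [← hr]; exact hA.finrank_vectorSpan (by simp; omega)) ((faceI_image hi hS).2 hF)
  refine ⟨u, hu, fun x hx => ?_⟩
  obtain ⟨h1, h2⟩ := h _ (mem_image_of_mem _ hx)
  refine ⟨h1, h2.trans ⟨fun h => ?_, mem_image_of_mem _⟩⟩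
  obtain ⟨s, hs, e⟩ := mem_image.mp h
  exact hi (hS hs) hx e ▸ hs

noncomputable def dotL (x : X5) : Fn := ∑ j, x j • LinearMap.proj j

lemma dotL_apply (x z : X5) : dotL x z = ∑ j, x j * z j := by simp [dotL]

lemma inj5_of_d5 {a b c e f : X5} (h : d5 a b c e f ≠ 0) :
    Inj5 (dotL a) (dotL b) (dotL c) (dotL e) (dotL f) := by
  intro z h1 h2 h3 h4 h5
  by_contra h0
  apply h
  rw [← d5_eq a b c e f _ rfl, ← Matrix.exists_mulVec_eq_zero_iff]
  refine ⟨z, h0, ?_⟩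
  rw [dotL_apply] at h1 h2 h3 h4 h5
  funext i
  fin_cases i
  exacts [h1, h2, h3, h4, h5]

lemma NbI.ld (hN : NbI p V σ) (hd : σ.card + 4 = d) (hi : Set.InjOn p V)
    (hT : TanAll (V.image p)) {κ : Type} (v : κ → ι) (hv : Function.Injective v)
    (hV : ∀ k, v k ∈ V \ σ) (t : Fin 5 → κ) (ht : Function.Injective t) :
    ∃ L : LD κ, ∀ a b c e, [a, b, c, e].Nodup → FaceI p V (σ ∪ {v a, v b, v c, v e}) →
      ∃ z, L.Tan [a, b, c, e] z := by
  obtain ⟨g, Q⟩ := hN.quot hd (fun k => v (t k)) (hv.comp ht) (fun k => hV _)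
  choose w c hwc using fun j : Fin 5 =>
    exists_wc ((LinearMap.proj j : X5 →ₗ[ℝ] ℝ).toAffineMap.comp g)
  let Wz : X5 →ₗ[ℝ] E d := ∑ j, (LinearMap.proj j : X5 →ₗ[ℝ] ℝ).smulRight (w j)
  let Cz : Fn := dotL c
  have key : ∀ z x, dotL (g x) z = Cz z - inner ℝ (Wz z) x := by
    intro z x
    have : ∀ j, g x j = c j - inner ℝ (w j) x := fun j => hwc j x
    simp only [dotL_apply, this, Cz, Wz, LinearMap.sum_apply, LinearMap.smulRight_apply,
      LinearMap.proj_apply, sum_inner, inner_smul_left, ← sum_sub_distrib]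
    exact sum_congr rfl fun j _ => by simp; ring
  have inj : ∀ a b c e f : κ, [a, b, c, e, f].Nodup → Inj5 (dotL (g (p (v a)))) (dotL (g (p (v b))))
      (dotL (g (p (v c)))) (dotL (g (p (v e)))) (dotL (g (p (v f)))) := fun a b c e f hn =>
    inj5_of_d5 (hN.d5_ne Q (hV _) (hV _) (hV _) (hV _) (hV _) (hn.map hv))
  have injWC : ∀ z, Wz z = 0 → Cz z = 0 → z = 0 := by
    intro z h1 h2
    apply inj (t 0) (t 1) (t 2) (t 3) (t 4)
      ((show ([0, 1, 2, 3, 4] : List (Fin 5)).Nodup by decide).map ht) <;> simp [key, h1, h2]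
  let B : Bil := LinearMap.mk₂ ℝ (fun a b => inner ℝ (Wz a) (Wz b) - Cz a * Cz b)
    (by intros; simp [inner_add_left]; ring) (by intros; simp [inner_smul_left]; ring)
    (by intros; simp [inner_add_right]; ring) (by intros; simp [inner_smul_right]; ring)
  have hB : ∀ a b, B a b = inner ℝ (Wz a) (Wz b) - Cz a * Cz b := fun a b => rfl
  have rad : ∀ r z, (‖Wz z‖ = 1 ∧ Cz z = 1) → B r r = 0 → B r z = 0 → r = Cz r • z := by
    intro r z ⟨n1, n2⟩ h1 h2
    rw [hB] at h1 h2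
    rw [← sub_eq_zero]
    apply injWC
    · rw [← inner_self_eq_zero (𝕜 := ℝ)]
      have h3 : inner ℝ (Wz z) (Wz z) = (1 : ℝ) := by rw [real_inner_self_eq_norm_sq, n1]; simp
      simp only [map_sub, map_smul, inner_sub_left, inner_sub_right, inner_smul_left,
        inner_smul_right, real_inner_comm (Wz r) (Wz z), h3, conj_trivial]
      rw [n2] at h2
      linear_combination h1 - 2 * Cz r * h2
    · simp [n2]
  have null : ∀ z, (‖Wz z‖ = 1 ∧ Cz z = 1) → B z z = 0 := by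
    intro z ⟨n1, n2⟩
    rw [hB, real_inner_self_eq_norm_sq, n1, n2]; simp
  refine ⟨⟨fun k => dotL (g (p (v k))), B, fun z => ‖Wz z‖ = 1 ∧ Cz z = 1, fun a b => ?_, null,
    fun z z' h1 h2 hne h0 => ?_, fun r z h1 h2 h3 => ⟨_, rad r z h1 h2 h3⟩, inj⟩,
    fun a b c e hn hF => ?_⟩
  · rw [hB, hB, real_inner_comm]; ring
  · have := rad z z' h2 (null z h1) h0
    rw [h1.2, one_smul] at this
    exact hne this
  · obtain ⟨u, hu, h⟩ := hN.tangent hd hi hT (hV a) (hV b) (hV c) (hV e) (hn.map hv) hF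
    obtain ⟨φ, hφ⟩ := Q.q2 (wc u 1) fun s hs => by
      rw [wc_apply, (h s (hN.1 hs)).2.2 (mem_union_left _ hs), sub_self]
    let z : X5 := fun j => φ fun i => if j = i then 1 else 0
    have hz : ∀ x, dotL (g x) z = 1 - inner ℝ u x := by
      intro x
      rw [← wc_apply, hφ, dotL_apply, LinearMap.pi_apply_eq_sum_univ φ]
      rfl
    have c1 : Cz z = 1 := by simpa [key] using hz 0
    have w1 : Wz z = u := by
      apply ext_inner_right ℝ
      intro x
      have := hz x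
      rw [key, c1] at this
      linarith
    refine ⟨z, ⟨by rw [w1, hu], c1⟩, fun k => ?_⟩
    obtain ⟨h1, h2⟩ := h (v k) (mem_sdiff.mp (hV k)).1
    have h3 : v k ∈ σ ∪ {v a, v b, v c, v e} ↔ k ∈ [a, b, c, e] := by
      simp [(mem_sdiff.mp (hV k)).2, hv.eq_iff]
    rw [h3] at h2
    refine ⟨fun hk => ?_, fun hk => ?_⟩
    · show dotL _ z = 0
      rw [hz, h2.2 hk, sub_self]
    · show 0 < dotL _ z
      rw [hz]
      exact sub_pos.mpr (lt_of_le_of_ne h1 (mt h2.1 hk))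

theorem NbI.not_tan (hN : NbI p V σ) (hd : σ.card + 4 = d) (hi : Set.InjOn p V)
    (hT : TanAll (V.image p))
    (h : PatA (fun a b c e => FaceI p V (σ ∪ {a, b, c, e})) (V \ σ) ∨
      PatB (fun a b c e => FaceI p V (σ ∪ {a, b, c, e})) (V \ σ)) : False := by
  rcases h with ⟨v, h1, h2, h3⟩ | ⟨v, h1, h2, h3⟩
  · obtain ⟨L, hL⟩ := hN.ld hd hi hT v h1 h2 ![0, 1, 2, 3, 4] (by decide)
    exact patA L
      (hL _ _ _ _ (by decide) (h3 (0, 1) (by simp) (4, 5) (by simp)))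
      (hL _ _ _ _ (by decide) (h3 (0, 1) (by simp) (5, 6) (by simp)))
      (hL _ _ _ _ (by decide) (h3 (0, 1) (by simp) (6, 7) (by simp)))
      (hL _ _ _ _ (by decide) (h3 (0, 1) (by simp) (7, 8) (by simp)))
      (hL _ _ _ _ (by decide) (h3 (1, 2) (by simp) (4, 5) (by simp)))
      (hL _ _ _ _ (by decide) (h3 (1, 2) (by simp) (5, 6) (by simp)))
      (hL _ _ _ _ (by decide) (h3 (1, 2) (by simp) (6, 7) (by simp)))
      (hL _ _ _ _ (by decide) (h3 (1, 2) (by simp) (7, 8) (by simp)))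
      (hL _ _ _ _ (by decide) (h3 (2, 3) (by simp) (4, 5) (by simp)))
      (hL _ _ _ _ (by decide) (h3 (2, 3) (by simp) (5, 6) (by simp)))
      (hL _ _ _ _ (by decide) (h3 (2, 3) (by simp) (6, 7) (by simp)))
      (hL _ _ _ _ (by decide) (h3 (2, 3) (by simp) (7, 8) (by simp)))
  · obtain ⟨L, hL⟩ := hN.ld hd hi hT v h1 h2 ![(0, 0), (1, 0), (2, 0), (3, 0), (4, 0)] (by decide)
    exact patB L fun i j hij s t hs ht => hL _ _ _ _ (by simp [hij, hs.symm, ht.symm])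
      (h3 i j hij s t hs ht)

/-- transfer to a combinatorially equivalent realization -/
theorem not_circ (hN : NbI p V σ) (hd : σ.card + 4 = d) (hi : Set.InjOn p V)
    (h : PatA (fun a b c e => FaceI p V (σ ∪ {a, b, c, e})) (V \ σ) ∨
      PatB (fun a b c e => FaceI p V (σ ∪ {a, b, c, e})) (V \ σ)) :
    ¬ Circumscribable (V.image p) := by
  rintro ⟨W, f, -, hb, hf, hT⟩
  have hi' : Set.InjOn (f ∘ p) V := hb.injOn.comp hi fun x hx => by
    simp only [coe_image]; exact Set.mem_image_of_mem _ hx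
  have hW : W = V.image (f ∘ p) := by
    rw [← image_image, ← coe_inj, coe_image, hb.image_eq]
  have tr : ∀ S ⊆ V, FaceI p V S → FaceI (f ∘ p) V S := by
    intro S hS h
    rw [← faceI_image hi' hS, ← hW, ← image_image, ← hf _ (image_subset_image hS),
      faceI_image hi hS]
    exact h
  have hσ := hN.1
  have tr' : ∀ a ∈ V \ σ, ∀ b ∈ V \ σ, ∀ c ∈ V \ σ, ∀ e ∈ V \ σ,
      FaceI p V (σ ∪ {a, b, c, e}) → FaceI (f ∘ p) V (σ ∪ {a, b, c, e}) :=
    fun a ha b hb c hc e he => tr _ (by intro x hx; grind)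
  exact NbI.not_tan (p := f ∘ p) ⟨hN.1, fun S hS hc => tr S hS (hN.2 S hS hc)⟩ hd hi' (hW ▸ hT)
    (h.imp (fun h => h.imp tr') (fun h => h.imp tr'))

end Pool.Agent.MP_04a200_co

end MrgPart7

-- ======== part 8: formerly Pool.Agent.MP_04a200_co.SewAny
section MrgPart8

/-! The new vertex may be any vertex of a path of two inseparable pairs. -/

set_option autoImplicit false

namespace Pool.Agent.MP_04a200_co

open Finset

namespace Chi

variable {α : Type} [DecidableEq α] {χ : Chi α} {G : Finset α}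

omit [DecidableEq α] in
lemma zero_of_mem {a b c d e : α} (h : e ∈ [a, b, c, d]) : χ.s a b c d e = 0 := by
  simp only [List.mem_cons, List.not_mem_nil, or_false] at h
  rcases h with rfl | rfl | rfl | rfl
  · have := χ.sw15 e b c d e; omega
  · have := χ.sw25 a e c d e; omega
  · have := χ.c345 a b e d e
    have := χ.z45 a b d e
    omega
  · exact χ.z45 _ _ _ _

lemma Insep.image {x y : α} {φ : α → α} (h : χ.Insep G x y) (hx : x ∈ G) (hy : y ∈ G)
    (hφ : ∀ a ∈ G, ∀ b ∈ G, ∀ c ∈ G, ∀ d ∈ G, ∀ e ∈ G,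
      χ.s (φ a) (φ b) (φ c) (φ d) (φ e) = χ.s a b c d e) :
    χ.Insep (G.image φ) (φ x) (φ y) := by
  intro a' ha' b' hb' c' hc' d' hd' h1 h2
  obtain ⟨a, ha, rfl⟩ := mem_image.mp ha'
  obtain ⟨b, hb, rfl⟩ := mem_image.mp hb'
  obtain ⟨c, hc, rfl⟩ := mem_image.mp hc'
  obtain ⟨d, hd, rfl⟩ := mem_image.mp hd'
  rw [hφ a ha b hb c hc d hd x hx, hφ a ha b hb c hc d hd y hy]
  exact h a ha b hb c hc d hd (fun h => h1 (List.mem_map_of_mem (f := φ) h))
    (fun h => h2 (List.mem_map_of_mem (f := φ) h))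

lemma Sewn.image {n : ℕ} {φ : α → α} (h : χ.Sewn n G) (hi : ∀ a ∈ G, ∀ b ∈ G, φ a = φ b → a = b)
    (hφ : ∀ a ∈ G, ∀ b ∈ G, ∀ c ∈ G, ∀ d ∈ G, ∀ e ∈ G,
      χ.s (φ a) (φ b) (φ c) (φ d) (φ e) = χ.s a b c d e) : χ.Sewn n (G.image φ) := by
  induction h with
  | zero G => exact Sewn.zero _
  | @succ n G x y z _ St ih =>
    have hx := mem_insert_of_mem (b := y) St.hx
    have hz := mem_insert_of_mem (b := y) St.hz
    have hy := mem_insert_self y G
    have i1 := St.i1.image hx hy hφ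
    have i2 := St.i2.image hy hz hφ
    rw [image_insert] at i1 i2 ⊢
    have hs := subset_insert y G
    refine Sewn.succ (ih (fun a ha b hb => hi a (hs ha) b (hs hb))
      (fun a ha b hb c hc d hd e he => hφ a (hs ha) b (hs hb) c (hs hc) d (hs hd) e
        (hs he))) ⟨fun hm => ?_, mem_image_of_mem _ St.hx, mem_image_of_mem _ St.hz,
        fun e => St.xz (hi x hx z hz e), i1, i2⟩
    obtain ⟨a, ha, e⟩ := mem_image.mp hm
    exact St.hy (hi a (mem_insert_of_mem ha) y hy e ▸ ha)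

lemma Sewn.end_step {n : ℕ} {u m z : α} (h : χ.Sewn n G) (hu : u ∉ G) (hm : m ∈ G) (hz : z ∈ G)
    (mz : m ≠ z) (i1 : χ.Insep (insert u G) u m) (i2 : χ.Insep (insert u G) m z) :
    χ.Sewn (n + 1) (insert u G) := by
  let φ : α → α := fun v => if v = m then u else v
  have φm : φ m = u := if_pos rfl
  have φv : ∀ v, v ≠ m → φ v = v := fun v hv => if_neg hv
  have last : ∀ a ∈ G, ∀ b ∈ G, ∀ c ∈ G, ∀ d ∈ G,
      χ.s (φ a) (φ b) (φ c) (φ d) (φ m) = χ.s a b c d m := by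
    intro a ha b hb c hc d hd
    by_cases h0 : m ∈ [a, b, c, d]
    · rw [zero_of_mem h0, zero_of_mem (by grind)]
    · rw [φm, φv a (by grind), φv b (by grind), φv c (by grind), φv d (by grind)]
      exact i1 a (by grind) b (by grind) c (by grind) d (by grind) (by grind) h0
  have hφ : ∀ a ∈ G, ∀ b ∈ G, ∀ c ∈ G, ∀ d ∈ G, ∀ e ∈ G,
      χ.s (φ a) (φ b) (φ c) (φ d) (φ e) = χ.s a b c d e := by
    intro a ha b hb c hc d hd e he
    by_cases h5 : e = m
    · rw [h5]; exact last a ha b hb c hc d hd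
    by_cases h4 : d = m
    · rw [h4, χ.sw4 a b c e m, χ.sw4 (φ a) (φ b) (φ c) (φ e) (φ m), last a ha b hb c hc e he]
    by_cases h3 : c = m
    · rw [h3, ← χ.c345 a b m, ← χ.c345 (φ a) (φ b) (φ m), last a ha b hb d hd e he]
    by_cases h2 : b = m
    · have e1 := χ.c2345 a m c d e
      have e2 := χ.c2345 (φ a) (φ m) (φ c) (φ d) (φ e)
      have e3 := last a ha c hc d hd e he
      rw [h2]; omega
    by_cases h1 : a = m
    · rw [h1, ← χ.cyc m, ← χ.cyc (φ m), last b hb c hc d hd e he]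
    rw [φv a h1, φv b h2, φv c h3, φv d h4, φv e h5]
  clear last
  have h1 := h.image (φ := φ) (by clear hφ; intro a ha b hb; simp only [φ]; grind) hφ
  clear hφ
  have e : insert m (G.image φ) = insert u G := by
    ext v
    simp only [mem_insert, mem_image, φ]
    constructor
    · rintro (rfl | ⟨a, ha, rfl⟩)
      · exact Or.inr hm
      · grind
    · rintro (rfl | hv)
      · exact Or.inr ⟨m, hm, by simp⟩
      · by_cases h0 : v = m
        · exact Or.inl h0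
        · exact Or.inr ⟨v, hv, by simp [h0]⟩
  rw [← e]
  refine Sewn.succ (x := u) (z := z) h1 ⟨?_, ?_, ?_, by grind, e ▸ i1, e ▸ i2⟩
  · simp only [mem_image, φ]; grind
  · exact mem_image.mpr ⟨m, hm, φm⟩
  · exact mem_image.mpr ⟨z, hz, φv z mz.symm⟩

lemma Sewn.any_step {n : ℕ} {u x m z : α} (h : χ.Sewn n G) (hu : u ∉ G) (hx : x ∈ insert u G)
    (hm : m ∈ insert u G) (hz : z ∈ insert u G) (hn : [x, m, z].Nodup) (hm' : u ∈ [x, m, z])
    (i1 : χ.Insep (insert u G) x m) (i2 : χ.Insep (insert u G) m z) :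
    χ.Sewn (n + 1) (insert u G) := by
  simp only [List.mem_cons, List.not_mem_nil, or_false] at hm'
  rcases hm' with rfl | rfl | rfl
  · exact h.end_step hu (by grind) (by grind) (by grind) i1 i2
  · exact Sewn.succ h ⟨hu, by grind, by grind, by grind, i1, i2⟩
  · exact h.end_step hu (by grind) (by grind) (by grind) i2.symm i1.symm

end Chi

end Pool.Agent.MP_04a200_co

end MrgPart8

-- marker of a merged file
example : 731051 + 59658 = 731051 + 59658 := rfl
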