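import Mathlib.Analysis.LocallyConvex.Separation
import Pool.Agent.MP_04a200_co.DefsLift
import Pool.Agent.MP_04a200_co.SewAny

-- ======== part 0: formerly Pool.Agent.MP_04a200_co.Lift
section MrgPart0

/-! Faces of liftings along rays. -/

set_option autoImplicit false

open Classical

namespace Pool.Agent.MP_04a200_co

open Finset

variable {d : ℕ}

noncomputable def embL (d : ℕ) : E d →ₗ[ℝ] E (d + 1) where
  toFun := emb
  map_add' x y := by
    ext i; refine Fin.lastCases ?_ (fun j => ?_) i <;> simp [emb]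
  map_smul' c x := by
    ext i; refine Fin.lastCases ?_ (fun j => ?_) i <;> simp [emb]

noncomputable def prjL (d : ℕ) : E (d + 1) →ₗ[ℝ] E d where
  toFun y := WithLp.toLp 2 fun i => y i.castSucc
  map_add' x y := by ext i; simp
  map_smul' c x := by ext i; simp

noncomputable def lastL (d : ℕ) : E (d + 1) →ₗ[ℝ] ℝ where
  toFun y := y (Fin.last d)
  map_add' x y := by simp
  map_smul' c x := by simp

lemma aff_line {V2 : Type} [AddCommGroup V2] [Module ℝ V2] (ψ : E d →ᵃ[ℝ] V2) (a x : E d) (t : ℝ) :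
    ψ (a + t • (x - a)) = ψ a + t • (ψ x - ψ a) := by
  have h1 := ψ.map_vadd a (t • (x - a))
  have h2 := ψ.linearMap_vsub x a
  simp only [vadd_eq_add, vsub_eq_sub, map_smul] at h1 h2
  rw [add_comm a, h1, h2, add_comm]

lemma RayLift.ext {n : ℕ} {A : Fin n → E d} {B : Fin (n + 1) → E (d + 1)} (h : RayLift A B) :
    ∃ t : Fin n → ℝ, (∀ i, 0 < t i) ∧
      (∀ i, B i.castSucc = B (Fin.last n) + t i • (emb (A i) - B (Fin.last n))) ∧
      ∀ ψ : Aff d, ∃ ψ' : Aff (d + 1), ψ' (B (Fin.last n)) = 0 ∧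
        ∀ i, ψ' (B i.castSucc) = t i * ψ (A i) := by
  obtain ⟨h0, h1⟩ := h
  choose t ht hB using h1
  refine ⟨t, ht, hB, fun ψ => ?_⟩
  let ψ' : Aff (d + 1) := ψ.comp (prjL d).toAffineMap -
    (ψ (prjL d (B (Fin.last n))) / B (Fin.last n) (Fin.last d)) • (lastL d).toAffineMap
  have e : ∀ y, ψ' y = ψ (prjL d y) -
      ψ (prjL d (B (Fin.last n))) / B (Fin.last n) (Fin.last d) * y (Fin.last d) := by
    intro y; simp [ψ', lastL]
  have e1 : ψ' (B (Fin.last n)) = 0 := by rw [e]; field_simp; ring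
  have e2 : ∀ x, ψ' (emb x) = ψ x := by
    intro x
    have : prjL d (emb x) = x := by ext i; simp [prjL, emb]
    rw [e, this]; simp [emb]
  refine ⟨ψ', e1, fun i => ?_⟩
  rw [hB, aff_line, e1, e2]; simp

variable {ι : Type} [DecidableEq ι] {p : ι → E d} {V : Finset ι}

omit [DecidableEq ι] in
lemma face_perturb {S S0 : Finset ι} (hF : FaceI p V S) (hS : S0 ⊆ S) (h : Aff d)
    (h0 : ∀ v ∈ S0, h (p v) = 0) (h1 : ∀ v ∈ S, v ∉ S0 → 0 < h (p v)) : FaceI p V S0 := by
  obtain ⟨ψ, hψ⟩ := hF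
  obtain ⟨K, hK⟩ : ∃ K : ℝ, ∀ v ∈ V, v ∉ S → 0 < K * ψ (p v) + h (p v) := by
    obtain ⟨K, hK⟩ := (V.image fun v => -h (p v) / ψ (p v)).bddAbove
    refine ⟨K + 1, fun v hv hn => ?_⟩
    have a1 : 0 < ψ (p v) := lt_of_le_of_ne (hψ v hv).1 fun e => hn ((hψ v hv).2.1 e.symm)
    have a2 : -h (p v) / ψ (p v) ≤ K := hK (mem_coe.mpr (mem_image_of_mem _ hv))
    rw [div_le_iff₀ a1] at a2
    linarith
  refine ⟨K • ψ + h, fun v hv => ?_⟩
  have e : (K • ψ + h) (p v) = K * ψ (p v) + h (p v) := by simp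
  rw [e]
  by_cases a0 : v ∈ S0
  · rw [(hψ v hv).2.2 (hS a0), h0 v a0]; simp [a0]
  have : 0 < K * ψ (p v) + h (p v) := by
    by_cases a1 : v ∈ S
    · rw [(hψ v hv).2.2 a1]; simpa using h1 v a1 a0
    · exact hK v hv a1
  exact ⟨this.le, fun e => absurd e this.ne', fun e => absurd e a0⟩

lemma FaceI.inter {S S' : Finset ι} (h : FaceI p V S) (h' : FaceI p V S') :
    FaceI p V (S ∩ S') := by
  obtain ⟨ψ, h⟩ := h
  obtain ⟨ψ', h'⟩ := h'
  refine ⟨ψ + ψ', fun v hv => ?_⟩
  have e : (ψ + ψ') (p v) = ψ (p v) + ψ' (p v) := by simp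
  rw [e, mem_inter, ← (h v hv).2, ← (h' v hv).2]
  exact ⟨add_nonneg (h v hv).1 (h' v hv).1, add_eq_zero_iff_of_nonneg (h v hv).1 (h' v hv).1⟩

omit [DecidableEq ι] in
lemma face_empty : FaceI p V ∅ := ⟨AffineMap.const ℝ _ 1, fun v _ => by simp⟩

lemma NbI.injOn {σ : Finset ι} (h : NbI p V σ) : Set.InjOn p V := by
  intro a ha b hb e
  obtain ⟨ψ, hψ⟩ := h.2 {a} (by simpa using ha) ((card_le_card sdiff_subset).trans (by simp))
  have := (hψ a ha).2.2 (mem_singleton_self a)
  rw [e] at this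
  exact (mem_singleton.mp ((hψ b hb).2.1 this)).symm

/-- abstract lifting along rays -/
structure ALift {ι' : Type} (p : ι → E d) (p' : ι' → E (d + 1)) (e : ι → ι') (a : ι') : Prop where
  inj : Function.Injective e
  ne : ∀ i, e i ≠ a
  sur : ∀ j, j = a ∨ ∃ i, e i = j
  ext : ∃ t : ι → ℝ, (∀ i, 0 < t i) ∧ ∀ ψ : Aff d, ∃ ψ' : Aff (d + 1), ψ' (p' a) = 0 ∧
    ∀ i, ψ' (p' (e i)) = t i * ψ (p i)

variable {ι' : Type} [DecidableEq ι'] [Fintype ι] [Fintype ι'] {p' : ι' → E (d + 1)} {e : ι → ι'}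
  {a : ι'}

omit [DecidableEq ι] in
lemma ALift.face1 (L : ALift p p' e a) {S : Finset ι} (h : FaceI p univ S) :
    FaceI p' univ (insert a (S.image e)) := by
  obtain ⟨ψ, hψ⟩ := h
  obtain ⟨t, ht, hx⟩ := L.ext
  obtain ⟨ψ', h0, h1⟩ := hx ψ
  refine ⟨ψ', fun j _ => ?_⟩
  rcases L.sur j with rfl | ⟨i, rfl⟩
  · simp [h0]
  · obtain ⟨a1, a2⟩ := hψ i (mem_univ _)
    rw [h1]
    refine ⟨mul_nonneg (ht i).le a1, ?_⟩
    simp [(ht i).ne', a2, L.ne i, L.inj.eq_iff]

lemma ALift.face2 (L : ALift p p' e a) {S : Finset ι} (h : ∀ S' ⊆ S, FaceI p univ S') :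
    FaceI p' univ (S.image e) := by
  obtain ⟨t, ht, hx⟩ := L.ext
  have : ∀ s ∈ S, ∃ ψ' : Aff (d + 1), ψ' (p' a) = 0 ∧ ψ' (p' (e s)) = 1 ∧
      ∀ r ∈ S, r ≠ s → ψ' (p' (e r)) = 0 := by
    intro s hs
    obtain ⟨ψ, hψ⟩ := h (S.erase s) (erase_subset _ _)
    obtain ⟨ψ', h0, h1⟩ := hx ψ
    have a1 : ψ (p s) ≠ 0 := fun e => by simpa using (hψ s (mem_univ _)).2.1 e
    refine ⟨(t s * ψ (p s))⁻¹ • ψ', by simp [h0], ?_, fun r hr hrs => ?_⟩
    · have := mul_ne_zero (ht s).ne' a1
      simp only [AffineMap.coe_smul, Pi.smul_apply, h1, smul_eq_mul]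
      exact inv_mul_cancel₀ this
    · simp [h1, (hψ r (mem_univ _)).2.2 (mem_erase.mpr ⟨hrs, hr⟩)]
  choose! f f0 f1 f2 using this
  have ev : ∀ x, (AffineMap.const ℝ (E (d + 1)) (1 : ℝ) - ∑ s ∈ S, f s) x = 1 - ∑ s ∈ S, f s x := by
    intro x
    have : ∀ T : Finset ι, (∑ s ∈ T, f s) x = ∑ s ∈ T, f s x := by
      intro T
      induction T using Finset.induction_on with
      | empty => simp
      | insert s T hs ih => simp [sum_insert hs, ih]
    simp [this]
  refine face_perturb (L.face1 (h S Subset.rfl)) (subset_insert _ _)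
    (AffineMap.const ℝ _ 1 - ∑ s ∈ S, f s) (fun v hv => ?_) (fun v hv hn => ?_)
  · obtain ⟨r, hr, rfl⟩ := mem_image.mp hv
    rw [ev, sum_eq_single_of_mem r hr fun s hs hsr => f2 s hs r hr hsr.symm, f1 r hr, sub_self]
  · rw [(mem_insert.mp hv).resolve_right hn, ev, sum_eq_zero fun s hs => f0 s hs]
    simp

lemma ALift.nb (L : ALift p p' e a) {σ : Finset ι} (h : NbI p univ σ) :
    NbI p' univ (insert a (σ.image e)) := by
  refine ⟨subset_univ _, fun S' _ hc => ?_⟩
  let S := univ.filter fun i => e i ∈ S'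
  have hS : ∀ T ⊆ S, FaceI p univ T := by
    intro T hT
    refine h.2 T (subset_univ _) (le_trans (card_le_card_of_injOn e (fun i hi => ?_)
      L.inj.injOn) hc)
    obtain ⟨h1, h2⟩ := mem_sdiff.mp hi
    have := (mem_filter.mp (hT h1)).2
    simp [this, L.ne i, L.inj.eq_iff, h2]
  by_cases ha : a ∈ S'
  · have : S' = insert a (S.image e) := by
      ext j
      rcases L.sur j with rfl | ⟨i, rfl⟩
      · simp [ha]
      · simp [S, L.ne i, L.inj.eq_iff]
    rw [this]; exact L.face1 (hS S Subset.rfl)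
  · have : S' = S.image e := by
      ext j
      rcases L.sur j with rfl | ⟨i, rfl⟩
      · simp [ha, L.ne]
      · simp [S, L.inj.eq_iff]
    rw [this]; exact L.face2 hS

lemma ALift.patA (L : ALift p p' e a) {σ : Finset ι}
    (h : PatA (fun x y z w => FaceI p univ (σ ∪ {x, y, z, w})) (univ \ σ)) :
    PatA (fun x y z w => FaceI p' univ (insert a (σ.image e) ∪ {x, y, z, w}))
      (univ \ insert a (σ.image e)) := by
  obtain ⟨v, h1, h2, h3⟩ := h
  refine ⟨e ∘ v, L.inj.comp h1, fun i => ?_, fun r hr q hq => ?_⟩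
  · have := (mem_sdiff.mp (h2 i)).2
    simp [L.ne, L.inj.eq_iff, this]
  · have := L.face1 (h3 r hr q hq)
    rw [image_union, ← insert_union] at this
    simpa only [image_insert, image_singleton, Function.comp] using this

lemma RayLift.alift {n : ℕ} {A : Fin n → E d} (π : Equiv.Perm (Fin n))
    {B : Fin (n + 1) → E (d + 1)} (h : RayLift (A ∘ π) B) :
    ALift A B (fun i => (π.symm i).castSucc) (Fin.last n) := by
  obtain ⟨t, ht, -, hx⟩ := h.ext
  refine ⟨(Fin.castSucc_injective _).comp π.symm.injective, fun i => Fin.castSucc_ne_last _,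
    fun j => ?_, fun i => t (π.symm i), fun i => ht _, fun ψ => ?_⟩
  · refine Fin.lastCases (Or.inl rfl) (fun i => Or.inr ⟨π i, by simp⟩) j
  · obtain ⟨ψ', h0, h1⟩ := hx ψ
    exact ⟨ψ', h0, fun i => by rw [h1]; simp⟩

end Pool.Agent.MP_04a200_co

end MrgPart0

-- ======== part 1: formerly Pool.Agent.MP_04a200_co.GaleSign
section MrgPart1

/-! The sign system of a double lexicographic lifting of a polygon. -/

set_option autoImplicit false

namespace Pool.Agent.MP_04a200_co

open Finset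

namespace Chi

section general

variable {α : Type} [DecidableEq α] {χ : Chi α} {G : Finset α}

omit [DecidableEq α] in
lemma zero_of_dup {a b c e : α} (hn : ¬ [a, b, c, e].Nodup) (t : α) : χ.s a b c e t = 0 := by
  have : a = b ∨ a = c ∨ a = e ∨ b = c ∨ b = e ∨ c = e := by grind
  rcases this with rfl | rfl | rfl | rfl | rfl | rfl
  · have := χ.sw1 a a c e t; omega
  · have := χ.sw2 a a b e t; have := χ.sw1 a a b e t; omega
  · have := χ.c234 a a b c t; have := χ.sw1 a a b c t; omega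
  · have := χ.sw2 a b b e t; omega
  · have := χ.sw3 a b b c t; have := χ.sw2 a b b c t; omega
  · have := χ.sw3 a b c c t; omega

omit [DecidableEq α] in
lemma insep_of {x y w : α}
    (h0 : ∀ a ∈ G, ∀ b ∈ G, ∀ c ∈ G, ∀ r ∈ G, x ∉ [a, b, c, r] → y ∉ [a, b, c, r] →
      w ∉ [a, b, c, r] → [a, b, c, r].Nodup → χ.s a b c r x = χ.s a b c r y)
    (h1 : ∀ a ∈ G, ∀ b ∈ G, ∀ c ∈ G, x ∉ [a, b, c] → y ∉ [a, b, c] →
      [w, a, b, c].Nodup → χ.s w a b c x = χ.s w a b c y) : χ.Insep G x y := by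
  intro a ha b hb c hc r hr n1 n2
  by_cases hn : [a, b, c, r].Nodup
  swap
  · rw [zero_of_dup hn, zero_of_dup hn]
  simp only [List.nodup_cons, List.mem_cons, List.not_mem_nil, List.nodup_nil] at *
  by_cases e1 : a = w
  · subst e1; exact h1 b hb c hc r hr (by tauto) (by tauto) (by tauto)
  by_cases e2 : b = w
  · subst e2; rw [χ.sw1 b a c r x, χ.sw1 b a c r y, h1 a ha c hc r hr (by tauto) (by tauto) (by tauto)]
  by_cases e3 : c = w
  · subst e3
    rw [χ.c123 c a b r x, χ.c123 c a b r y, h1 a ha b hb r hr (by tauto) (by tauto) (by tauto)]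
  by_cases e4 : r = w
  · subst e4
    rw [χ.c1234 r a b c x, χ.c1234 r a b c y, h1 a ha b hb c hc (by tauto) (by tauto) (by tauto)]
  exact h0 a ha b hb c hc r hr n1 n2 (by tauto) hn

omit [DecidableEq α] in
lemma Fac.mono {G' : Finset α} {a b c e : α} (h : χ.Fac G' a b c e) (hs : G ⊆ G') :
    χ.Fac G a b c e := by
  obtain ⟨ε, h1, h2⟩ := h
  exact ⟨ε, h1, fun t ht => h2 t (hs ht)⟩

lemma fac_repl {u b x y z : α} {ε : ℤ} (hu : u ∉ G) (i1 : χ.Insep (insert u G) u b) (hx : x ∈ G)
    (hy : y ∈ G) (hz : z ∈ G) (hn : b ∉ [x, y, z]) (e1 : ε = 1 ∨ ε = -1)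
    (e2 : ∀ t ∈ G, t ∉ [b, x, y, z] → χ.s b x y z t = ε) (e3 : χ.s b x y z u = -ε) :
    χ.Fac (insert u G) u x y z := by
  refine ⟨ε, e1, fun t ht nt => ?_⟩
  by_cases htb : t = b
  · rw [htb, χ.sw15 b x y z u, e3]; ring
  · have ht' : t ∈ G := by grind
    have := i1 x (by grind) y (by grind) z (by grind) t ht (by grind) (by grind)
    rw [χ.cyc u, χ.cyc b] at this
    rw [this]; exact e2 t ht' (by grind)

lemma fac_dbl {u b w x y z : α} (hu : u ∉ G) (hw : w ∈ G) (i1 : χ.Insep (insert u G) u b)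
    (i2 : χ.Insep (insert u G) b w) (hb : b ∈ G) (hx : x ∈ G) (hy : y ∈ G) (hz : z ∈ G)
    (hn : b ∉ [x, y, z]) (hn' : w ∉ [b, x, y, z]) (h : χ.Fac G b x y z) :
    χ.Fac (insert u G) u x y z := by
  obtain ⟨ε, e1, e2⟩ := h
  refine fac_repl hu i1 hx hy hz hn e1 e2 ?_
  have a1 := χ.sw15 u x y z b
  have a2 := i2 u (by grind) x (by grind) y (by grind) z (by grind) (by grind) (by grind)
  have a3 := i1 x (by grind) y (by grind) z (by grind) w (by grind) (by grind) (by grind)
  rw [χ.cyc u, χ.cyc b] at a3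
  have a4 := e2 w hw hn'
  omega

lemma fac_or {u b x y z : α} (hu : u ∉ G) (i1 : χ.Insep (insert u G) u b)
    (hx : x ∈ G) (hy : y ∈ G) (hz : z ∈ G) (hn : b ∉ [x, y, z])
    (h0 : χ.s b x y z u = 1 ∨ χ.s b x y z u = -1) (h : χ.Fac G b x y z) :
    χ.Fac (insert u G) b x y z ∨ χ.Fac (insert u G) u x y z := by
  obtain ⟨ε, e1, e2⟩ := h
  by_cases h1 : χ.s b x y z u = ε
  · left
    refine ⟨ε, e1, fun t ht nt => ?_⟩
    rcases mem_insert.mp ht with rfl | ht
    · exact h1
    · exact e2 t ht nt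
  · exact Or.inr (fac_repl hu i1 hx hy hz hn e1 e2 (by omega))

omit [DecidableEq α] in
lemma Pol.symm {x y : α} (h : χ.Pol G x y) : χ.Pol G y x := by
  refine ⟨fun a ha b hb c hc hn => ?_, fun a ha b hb c hc e he hn => ?_⟩
  · have := h.nz a ha b hb c hc (by grind)
    rw [χ.sw1]; omega
  · have := h.ci a ha b hb c hc e he (by grind)
    simp only [χ.sw1 x y]; omega

/-- the pair `r s` lies in a facet -/
def Cov (χ : Chi α) (G : Finset α) (r s : α) : Prop :=
  ∃ w ∈ G, ∃ w' ∈ G, [r, s, w, w'].Nodup ∧ χ.Fac G r s w w'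

omit [DecidableEq α] in
lemma Cov.symm {r s : α} (h : χ.Cov G r s) : χ.Cov G s r := by
  obtain ⟨w, h1, w', h2, h3, h4⟩ := h
  exact ⟨w, h1, w', h2, by grind, h4.f1⟩

lemma Cov.step {u b w r s : α} (hu : u ∉ G) (hb : b ∈ G) (hw : w ∈ G) (hbw : b ≠ w)
    (i1 : χ.Insep (insert u G) u b) (i2 : χ.Insep (insert u G) b w)
    (hP : χ.Pol (insert u G) b w) (hr : r ∈ G) (hs : s ∈ G) (nr : r ∉ [b, w]) (ns : s ∉ [b, w])
    (h : χ.Cov G r s) : χ.Cov (insert u G) r s := by
  have key : ∀ x ∈ G, [r, s, b, x].Nodup → χ.Fac G r s b x → χ.Cov (insert u G) r s := by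
    intro x hx hn hF
    by_cases hxw : x = w
    · subst hxw
      rcases fac_or hu i1 hx hr hs (by grind)
        (hP.nz r (by grind) s (by grind) u (by grind) (by grind)) hF.mv with h1 | h1
      · exact ⟨b, by grind, x, by grind, hn, h1.mv⟩
      · exact ⟨u, by grind, x, by grind, by grind, h1.mv⟩
    · exact ⟨u, by grind, x, by grind, by grind,
        (fac_dbl hu hw i1 i2 hb hx hr hs (by grind) (by grind) hF.mv).mv⟩
  obtain ⟨w1, h1, w2, h2, hn, hF⟩ := h
  by_cases e1 : w1 = b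
  · subst e1; exact key w2 h2 hn hF
  by_cases e2 : w2 = b
  · subst e2; exact key w1 h1 (by grind) hF.f3
  exact ⟨w1, by grind, w2, by grind, hn, fac_keep hu hb i1.symm hr hs h1 h2 (by grind) hF⟩

lemma cov_new {u b w j : α} (hu : u ∈ G) (hb : b ∈ G) (hw : w ∈ G) (hj : j ∈ G)
    (hn : [w, b, u].Nodup) (nj : j ∉ [w, b, u]) (i1 : χ.Insep G u b) (i2 : χ.Insep G b w)
    (hP : χ.Pol G w b) (hc : 5 ≤ G.card) : χ.Cov G u j := by
  obtain ⟨e, e1, e2, e3, e4, -⟩ := hP.path hw hb hu hn
  obtain ⟨i, hi, rfl⟩ := e2 j hj nj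
  have key : ∀ k, k + 4 < G.card → χ.Fac G b u (e k) (e (k + 1)) := fun k hk =>
    fac_shift i2.symm i1.symm hw hu (e1 k (by omega)).1 (e1 (k + 1) (by omega)).1 hn
      (e1 k (by omega)).2 (e1 (k + 1) (by omega)).2 (e4 k hk)
  have a1 := e1 i hi
  by_cases h : i + 4 < G.card
  · have a2 := e1 (i + 1) (by omega)
    have a3 := e3 i (i + 1) hi (by omega)
    exact ⟨b, hb, e (i + 1), a2.1, by grind, (key i h).f1.f2⟩
  · obtain ⟨k, rfl⟩ : ∃ k, i = k + 1 := ⟨i - 1, by omega⟩
    have a2 := e1 k (by omega)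
    have a3 := e3 k (k + 1) (by omega) hi
    exact ⟨b, hb, e k, a2.1, by grind, (key k (by omega)).f3.f1.f2⟩

end general

/-- the sign conditions of a double lexicographic lifting -/
structure Gale {m : ℕ} (χ : Chi (Fin (m + 2))) (P Q : Fin (m + 2)) (e : Fin (m + 2) → ℤ) :
    Prop where
  hP : P.val = m
  hQ : Q.val = m + 1
  pol : χ.Pol univ P Q
  he : ∀ i, e i = 1 ∨ e i = -1
  h1 : ∀ a b c i, a < i → b < i → c < i → i < P → [a, b, c].Nodup →
    χ.s Q a b c i = e i * χ.s Q a b c P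
  h2 : ∀ a b c r i, a < i → b < i → c < i → r < i → i < Q → [a, b, c, r].Nodup →
    χ.s a b c r i = χ.s a b c r Q

variable {m : ℕ} {χ : Chi (Fin (m + 2))} {P Q : Fin (m + 2)} {e : Fin (m + 2) → ℤ}

/-- the configuration at stage `k` -/
def stage (m k : ℕ) : Finset (Fin (m + 2)) := univ.filter fun x => x.val ≤ k ∨ m ≤ x.val

lemma mem_stage {k : ℕ} {x : Fin (m + 2)} : x ∈ stage m k ↔ x.val ≤ k ∨ m ≤ x.val := by
  simp [stage]

lemma Gale.insPQ (h : χ.Gale P Q e) : χ.Insep univ P Q := by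
  intro a _ b _ c _ r _ n1 n2
  have hP := h.hP
  have hQ := h.hQ
  by_cases hn : [a, b, c, r].Nodup
  · simp only [List.mem_cons, List.not_mem_nil, Fin.ext_iff] at n1 n2
    exact h.h2 a b c r P (by omega) (by omega) (by omega) (by omega) (by omega) hn
  · rw [zero_of_dup hn, zero_of_dup hn]

lemma Gale.ins (h : χ.Gale P Q e) (u : Fin (m + 2)) (hu : u.val < m) :
    ∃ b w, ((b = P ∧ w = Q) ∨ (b = Q ∧ w = P)) ∧ χ.Insep (stage m u.val) u b := by
  have hP := h.hP
  have hQ := h.hQ
  rcases h.he u with he | he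
  · refine ⟨P, Q, Or.inl ⟨rfl, rfl⟩, insep_of (w := Q) ?_ ?_⟩
    · intro a ha b hb c hc r hr n1 n2 n3 hn
      simp only [List.mem_cons, List.not_mem_nil, Fin.ext_iff, mem_stage] at n1 n2 n3 ha hb hc hr
      rw [h.h2 a b c r u (by omega) (by omega) (by omega) (by omega) (by omega) hn,
        h.h2 a b c r P (by omega) (by omega) (by omega) (by omega) (by omega) hn]
    · intro a ha b hb c hc n1 n2 hn
      obtain ⟨n3, hn⟩ := List.nodup_cons.mp hn
      simp only [List.mem_cons, List.not_mem_nil, Fin.ext_iff, mem_stage] at n1 n2 n3 ha hb hc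
      rw [h.h1 a b c u (by omega) (by omega) (by omega) (by omega) hn, he, one_mul]
  · refine ⟨Q, P, Or.inr ⟨rfl, rfl⟩, insep_of (w := P) ?_ ?_⟩
    · intro a ha b hb c hc r hr n1 n2 n3 hn
      simp only [List.mem_cons, List.not_mem_nil, Fin.ext_iff, mem_stage] at n1 n2 n3 ha hb hc hr
      exact h.h2 a b c r u (by omega) (by omega) (by omega) (by omega) (by omega) hn
    · intro a ha b hb c hc n1 n2 hn
      obtain ⟨n3, hn⟩ := List.nodup_cons.mp hn
      have hn4 : [a, b, c, u].Nodup := by grind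
      simp only [List.mem_cons, List.not_mem_nil, Fin.ext_iff, mem_stage] at n1 n2 n3 ha hb hc
      have a1 := h.h1 a b c u (by omega) (by omega) (by omega) (by omega) hn
      have a2 := h.h2 a b c u P (by omega) (by omega) (by omega) (by omega) (by omega) hn4
      rw [χ.cyc P, χ.cyc Q] at a2
      have a3 := χ.sw15 P a b c Q
      rw [he] at a1
      omega

lemma Gale.data (h : χ.Gale P Q e) (u : Fin (m + 2)) (hu : u.val < m) :
    ∃ b w, ((b = P ∧ w = Q) ∨ (b = Q ∧ w = P)) ∧ χ.Insep (stage m u.val) u b ∧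
      χ.Insep univ b w ∧ χ.Pol univ b w ∧ m ≤ b.val ∧ m ≤ w.val ∧ b ≠ w ∧
      ∀ x : Fin (m + 2), m ≤ x.val → x = b ∨ x = w := by
  obtain ⟨b, w, h1, h2⟩ := h.ins u hu
  have hP := h.hP
  have hQ := h.hQ
  refine ⟨b, w, h1, h2, ?_⟩
  rcases h1 with ⟨rfl, rfl⟩ | ⟨rfl, rfl⟩
  · exact ⟨h.insPQ, h.pol, by omega, by omega, by simp only [Ne, Fin.ext_iff]; omega,
      fun x hx => by simp only [Fin.ext_iff]; omega⟩
  · exact ⟨h.insPQ.symm, h.pol.symm, by omega, by omega, by simp only [Ne, Fin.ext_iff]; omega,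
      fun x hx => by simp only [Fin.ext_iff]; omega⟩

lemma stage_succ {k : ℕ} (u : Fin (m + 2)) (hu : u.val = k + 1) :
    stage m (k + 1) = insert u (stage m k) := by
  ext x; simp only [mem_stage, mem_insert, Fin.ext_iff]; omega

lemma Gale.cov_stage (h : χ.Gale P Q e) (k : ℕ) (hk : 2 ≤ k) : k < m →
    ∀ r s : Fin (m + 2), r.val ≤ k → s.val ≤ k → r ≠ s → χ.Cov (stage m k) r s := by
  have hP := h.hP
  have hQ := h.hQ
  induction k, hk using Nat.le_induction with
  | base =>
    intro hm r s hr hs hrs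
    have hrs' : r.val ≠ s.val := fun e => hrs (Fin.ext e)
    let t0 : Fin (m + 2) := ⟨3 - r.val - s.val, by omega⟩
    have ht0 : t0.val = 3 - r.val - s.val := rfl
    refine ⟨P, by rw [mem_stage]; omega, Q, by rw [mem_stage]; omega, by
      simp only [List.nodup_cons, List.mem_cons, List.not_mem_nil, List.nodup_nil, Fin.ext_iff,
        or_false, not_false_eq_true, and_true]
      omega, Fac.mv ⟨χ.s P Q r s t0, h.pol.nz _ (mem_univ _) _ (mem_univ _) _ (mem_univ _) (by
      simp only [List.nodup_cons, List.mem_cons, List.not_mem_nil, List.nodup_nil, Fin.ext_iff,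
        or_false, not_false_eq_true, and_true]
      omega), fun t ht nt => ?_⟩⟩
    simp only [List.mem_cons, List.not_mem_nil, Fin.ext_iff, mem_stage] at ht nt
    rw [show t = t0 from Fin.ext (by omega)]
  | succ k hk ih =>
    intro hm
    let u : Fin (m + 2) := ⟨k + 1, by omega⟩
    have hu : u.val = k + 1 := rfl
    obtain ⟨b, w, -, i1, i2, hpol, hb, hw, hbw, -⟩ := h.data u (by omega)
    have hbw' : b.val ≠ w.val := fun e => hbw (Fin.ext e)
    rw [hu] at i1
    have new : ∀ j : Fin (m + 2), j.val ≤ k → χ.Cov (stage m (k + 1)) u j := by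
      intro j hj
      refine cov_new (b := b) (w := w) (by rw [mem_stage]; omega) (by rw [mem_stage]; omega)
        (by rw [mem_stage]; omega) (by rw [mem_stage]; omega) ?_ ?_ i1 (i2.mono (subset_univ _))
        (hpol.symm.mono (subset_univ _)) ?_
      · simp only [List.nodup_cons, List.mem_cons, List.not_mem_nil, List.nodup_nil, Fin.ext_iff,
        or_false, not_false_eq_true, and_true]
        omega
      · simp only [List.mem_cons, List.not_mem_nil, Fin.ext_iff, or_false]
        omega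
      · refine le_trans (le_of_eq ?_) (card_le_card
          (s := {⟨0, by omega⟩, ⟨1, by omega⟩, ⟨2, by omega⟩, P, Q}) ?_)
        · rw [card_insert_of_notMem, card_insert_of_notMem, card_insert_of_notMem,
            card_insert_of_notMem, card_singleton] <;>
          simp only [mem_insert, mem_singleton, Fin.ext_iff] <;> omega
        · intro x hx
          simp only [mem_insert, mem_singleton, Fin.ext_iff] at hx
          rw [mem_stage]; omega
    intro r s hr hs hrs
    have hrs' : r.val ≠ s.val := fun e => hrs (Fin.ext e)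
    by_cases e1 : r = u
    · rw [e1] at hrs' ⊢; exact new s (by omega)
    by_cases e2 : s = u
    · rw [e2] at hrs' ⊢; exact (new r (by omega)).symm
    have e1' : r.val ≠ u.val := fun e => e1 (Fin.ext e)
    have e2' : s.val ≠ u.val := fun e => e2 (Fin.ext e)
    rw [stage_succ u hu] at i1 ⊢
    refine Cov.step (by rw [mem_stage]; omega) (by rw [mem_stage]; omega)
      (by rw [mem_stage]; omega) hbw i1 (i2.mono (subset_univ _)) (hpol.mono (subset_univ _))
      (by rw [mem_stage]; omega) (by rw [mem_stage]; omega) ?_ ?_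
      (ih (by omega) r s (by omega) (by omega) hrs) <;>
    simp only [List.mem_cons, List.not_mem_nil, Fin.ext_iff, or_false] <;> omega

lemma Gale.cov (h : χ.Gale P Q e) (hm : 3 ≤ m) (r s : Fin (m + 2)) (hrs : r ≠ s) :
    χ.Cov univ r s := by
  have hP := h.hP
  have hQ := h.hQ
  have top : ∀ b w : Fin (m + 2), χ.Pol univ b w → b ≠ w → ∀ t, t ≠ b → χ.Cov univ b t := by
    intro b w hp hbw t htb
    obtain ⟨t', h1, h2, h3⟩ : ∃ t', t' ≠ b ∧ t' ≠ w ∧ (t = w ∨ t = t') := by
      by_cases h : t = w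
      · obtain ⟨x, -, hx⟩ := exists_mem_notMem_of_card_lt_card (s := {b, w}) (t := univ)
          (lt_of_le_of_lt card_le_two (by simp; omega))
        exact ⟨x, by grind, by grind, Or.inl h⟩
      · exact ⟨t, htb, h, Or.inr rfl⟩
    obtain ⟨f, e1, -, -, -, e5⟩ := hp.path (mem_univ b) (mem_univ w) (mem_univ t') (by grind)
    have a1 := e1 0 (by simp; omega)
    rcases h3 with rfl | rfl
    · exact ⟨t', mem_univ _, f 0, mem_univ _, by grind, e5⟩
    · exact ⟨w, mem_univ _, f 0, mem_univ _, by grind, e5.f2⟩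
  have hPQ : P ≠ Q := by simp only [Ne, Fin.ext_iff]; omega
  by_cases a1 : r = P
  · subst a1; exact top r Q h.pol hPQ s hrs.symm
  by_cases a2 : s = P
  · subst a2; exact (top s Q h.pol hPQ r hrs).symm
  by_cases a3 : r = Q
  · subst a3; exact top r P h.pol.symm hPQ.symm s hrs.symm
  by_cases a4 : s = Q
  · subst a4; exact (top s P h.pol.symm hPQ.symm r hrs).symm
  simp only [Fin.ext_iff] at a1 a2 a3 a4
  have := h.cov_stage (m - 1) (by omega) (by omega) r s (by omega) (by omega) hrs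
  rwa [show stage m (m - 1) = univ by ext x; simp only [mem_stage, mem_univ, iff_true]; omega]
    at this

lemma Gale.patA (h : χ.Gale P Q e) (hm : 11 ≤ m) : PatA (χ.Fac univ) univ := by
  let M : Fin (m + 2) := ⟨m - 1, by omega⟩
  let N : Fin (m + 2) := ⟨m - 2, by omega⟩
  have hM : M.val = m - 1 := rfl
  have hN : N.val = m - 2 := rfl
  obtain ⟨b, w, -, i1, i2, hpol, hb, hw, hbw, htop⟩ := h.data M (by omega)
  obtain ⟨b', w', -, j1, j2, -, hb', hw', hbw', -⟩ := h.data N (by omega)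
  have e0 : stage m M.val = univ := by
    ext x; simp only [mem_stage, mem_univ, iff_true]; omega
  have e0' : insert M (stage m N.val) = univ := by
    rw [← stage_succ M (by omega), ← e0]; congr 1; omega
  rw [e0] at i1
  have hMG : M ∉ stage m N.val := by rw [mem_stage]; omega
  have n1 : M ≠ b := by simp only [Ne, Fin.ext_iff]; omega
  have n2 : M ≠ w := by simp only [Ne, Fin.ext_iff]; omega
  have n3 : N ≠ b := by simp only [Ne, Fin.ext_iff]; omega
  have n4 : N ≠ w := by simp only [Ne, Fin.ext_iff]; omega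
  have n5 : N ≠ M := by simp only [Ne, Fin.ext_iff]; omega
  have mem : ∀ x, x ≠ M → x ∈ stage m N.val := by
    intro x hx
    have := mem_univ x
    rw [← e0'] at this
    exact (mem_insert.mp this).resolve_left hx
  obtain ⟨f, e1, e2, e3, e4, -⟩ := hpol.symm.path (mem_univ w) (mem_univ b) (mem_univ M) (by grind)
  simp only [card_univ, Fintype.card_fin] at e1 e2 e3 e4
  obtain ⟨i0, hi0, hf⟩ := e2 N (mem_univ _) (by grind)
  obtain ⟨o, ho1, ho2⟩ : ∃ o, o + 8 ≤ m + 2 ∧ (i0 < o ∨ o + 5 ≤ i0) := by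
    by_cases h5 : 5 ≤ i0
    · exact ⟨0, by omega, by omega⟩
    · exact ⟨i0 + 1, by omega, by omega⟩
  have av : ∀ k < 5, f (o + k) ∉ [w, b, M, N] := by
    intro k hk
    have a1 := (e1 (o + k) (by omega)).2
    have a2 := e3 (o + k) i0 (by omega) hi0
    grind
  have F0 : ∀ k < 4, χ.Fac univ w b (f (o + k)) (f (o + (k + 1))) := fun k hk =>
    e4 (o + k) (by omega)
  have F1 : ∀ k < 4, χ.Fac univ b M (f (o + k)) (f (o + (k + 1))) := by
    intro k hk
    have := av k (by omega)
    have := av (k + 1) (by omega)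
    exact fac_shift i2.symm i1.symm (mem_univ _) (mem_univ _) (mem_univ _) (mem_univ _) (by grind)
      (by grind) (by grind) (F0 k hk)
  have hi : ∀ k < 5, ∀ l < 5, f (o + k) = f (o + l) → k = l := by
    intro k hk l hl e
    have := e3 _ _ (by omega) (by omega) e
    omega
  rw [← e0'] at i1 i2
  rcases htop b' hb' with rfl | rfl
  · obtain rfl : w' = w := (htop w' hw').resolve_left hbw'.symm
    refine patA_mk N M b' w' (fun k => f (o + k)) (mem_univ _) (mem_univ _) (mem_univ _)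
      (mem_univ _) (by grind) (fun _ _ => mem_univ _) (fun k hk => by have := av k hk; grind) hi
      (fun k hk => ?_) (fun k hk => (F1 k hk).f1) (fun k hk => (F0 k hk).f1)
    have := av k (by omega)
    have := av (k + 1) (by omega)
    rw [← e0']
    refine (fac_dbl hMG (mem w' n2.symm) i1 i2 (mem b' n1.symm) (mem N n5) (mem _ (by grind))
      (mem _ (by grind)) (by grind) (by grind) ?_).f1
    exact fac_shift (j2.symm.mono (subset_univ _)) j1.symm (mem _ n2.symm) (mem N n5)
      (mem _ (by grind)) (mem _ (by grind)) (by grind) (by grind) (by grind)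
      ((F0 k hk).mono (subset_univ _))
  · obtain rfl : w' = b := (htop w' hw').resolve_right hbw'.symm
    refine patA_mk N b' w' M (fun k => f (o + k)) (mem_univ _) (mem_univ _) (mem_univ _)
      (mem_univ _) (by grind) (fun _ _ => mem_univ _) (fun k hk => by have := av k hk; grind) hi
      (fun k hk => ?_) F0 F1
    have := av k (by omega)
    have := av (k + 1) (by omega)
    rw [← e0']
    refine (fac_keep hMG (mem w' n1.symm) i1.symm (mem b' n2.symm) (mem N n5) (mem _ (by grind))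
      (mem _ (by grind)) (by grind) ?_).f1
    exact fac_shift (j2.symm.mono (subset_univ _)) j1.symm (mem _ n1.symm) (mem N n5)
      (mem _ (by grind)) (mem _ (by grind)) (by grind) (by grind) (by grind)
      ((F0 k hk).f1.mono (subset_univ _))

end Chi

end Pool.Agent.MP_04a200_co

end MrgPart1

-- ======== part 2: formerly Pool.Agent.MP_04a200_co.GaleBase
section MrgPart2

/-! The double lexicographic lifting of a convex polygon. -/

set_option autoImplicit false

open Classical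

namespace Pool.Agent.MP_04a200_co

open Finset

section general

variable {d : ℕ} {ι : Type} [DecidableEq ι] {p : ι → E d} {V σ : Finset ι} {κ : Type} [Fintype κ]
  {v : κ → ι} {l : κ → ℝ}

lemma Dep.le_one [Nonempty κ] (h : Dep p σ v l) (hσ : σ ⊆ V) (hv : ∀ k, v k ∈ V)
    (hv0 : ∀ k, v k ∉ σ) (hi : Function.Injective v) (F0 : FaceI p V σ)
    (F1 : ∀ k, FaceI p V (insert (v k) σ)) (hc : (univ.filter fun k => l k < 0).card ≤ 1) :
    l = 0 := by
  obtain ⟨k0, hk0⟩ := card_le_one_iff_subset_singleton.mp hc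
  have a1 : ∀ k, k ≠ k0 → l k = 0 := by
    intro k hk
    refine h.face hσ hv (subset_insert _ _) (F1 k0) (fun j hj => ?_) k (by simp [hv0, hi.eq_iff, hk])
    by_contra hn
    have := hk0 (show j ∈ univ.filter fun k => l k < 0 by simpa using hn)
    simp only [mem_singleton] at this
    simp [this] at hj
  funext k
  rcases le_total 0 (l k0) with h0 | h0
  · refine h.face hσ hv Subset.rfl F0 (fun j _ => ?_) k (hv0 k)
    by_cases e : j = k0
    · rwa [e]
    · exact (a1 j e).ge
  · have := h.neg.face hσ hv Subset.rfl F0 (fun j _ => ?_) k (hv0 k)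
    · simpa using this
    by_cases e : j = k0
    · simpa [e] using h0
    · simp [a1 j e]

lemma card_neg_pos (l : κ → ℝ) : (univ.filter fun k => l k < 0).card +
    (univ.filter fun k => 0 < l k).card ≤ Fintype.card κ := by
  rw [← card_union_of_disjoint]
  · exact card_le_univ _
  · rw [disjoint_filter]
    intro k _ a b
    linarith

lemma Dep.small {v : Fin 3 → ι} {l : Fin 3 → ℝ} (h : Dep p σ v l) (hσ : σ ⊆ V) (hv : ∀ k, v k ∈ V)
    (hv0 : ∀ k, v k ∉ σ) (hi : Function.Injective v) (F0 : FaceI p V σ)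
    (F1 : ∀ k, FaceI p V (insert (v k) σ)) : l = 0 := by
  have := card_neg_pos l
  simp only [Fintype.card_fin] at this
  by_cases hc : (univ.filter fun k => l k < 0).card ≤ 1
  · exact h.le_one hσ hv hv0 hi F0 F1 hc
  · simpa using h.neg.le_one hσ hv hv0 hi F0 F1 (by
      simp only [Pi.neg_apply, Left.neg_neg_iff]; omega)

lemma Dep.two_two {v : Fin 4 → ι} {l : Fin 4 → ℝ} (h : Dep p σ v l) (hσ : σ ⊆ V)
    (hv : ∀ k, v k ∈ V) (hv0 : ∀ k, v k ∉ σ) (hi : Function.Injective v) (F0 : FaceI p V σ)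
    (F1 : ∀ k, FaceI p V (insert (v k) σ)) (hl : l 0 ≠ 0) : ∑ k, sg (l k) = 0 := by
  have a1 := card_neg_pos l
  simp only [Fintype.card_fin] at a1
  have a2 : ¬ (univ.filter fun k => l k < 0).card ≤ 1 := fun hc =>
    hl (congrFun (h.le_one hσ hv hv0 hi F0 F1 hc) 0)
  have a3 : ¬ (univ.filter fun k => 0 < l k).card ≤ 1 := fun hc =>
    hl (by simpa using congrFun (h.neg.le_one hσ hv hv0 hi F0 F1 (by simpa using hc)) 0)
  rw [sum_sg]
  omega

lemma affInd_of_dep (x : κ → E d)
    (h : ∀ l : κ → ℝ, (∀ ψ : Aff d, ∑ k, l k * ψ (x k) = 0) → l = 0) : AffineIndependent ℝ x := by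
  rw [affineIndependent_iff]
  intro s w h1 h2
  have := h (fun k => if k ∈ s then w k else 0) fun ψ => by
    obtain ⟨u, c, hu⟩ := exists_wc ψ
    have h3 := congrArg (inner ℝ u) h2
    simp only [inner_sum, inner_smul_right, inner_zero_right] at h3
    simp only [ite_mul, zero_mul, sum_ite_mem, univ_inter, hu, mul_sub, sum_sub_distrib, h3,
      ← sum_mul, h1, sub_zero]
  intro e he
  simpa [he] using congrFun this e

lemma d5_indep {a b c e f : X5} (h : d5 a b c e f ≠ 0) (l : Fin 5 → ℝ)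
    (hl : ∀ φ : Fn, ∑ k, l k * φ (![a, b, c, e, f] k) = 0) : l = 0 := by
  by_contra h0
  apply h
  rw [← d5_eq a b c e f _ rfl, ← Matrix.exists_vecMul_eq_zero_iff]
  exact ⟨l, h0, funext fun j => hl (LinearMap.proj j)⟩

lemma exists_hom : ∃ g : E 4 →ᵃ[ℝ] X5, ∀ ψ : Aff 4, ∃ φ : Fn, ∀ x, ψ x = φ (g x) := by
  obtain ⟨b⟩ := AffineBasis.exists_affineBasis_of_finiteDimensional (ι := Fin 5) (k := ℝ)
    (V := E 4) (P := E 4) (by simp)
  refine ⟨AffineMap.pi fun k => b.coord k, fun ψ => ⟨∑ k, ψ (b k) • LinearMap.proj k, fun x => ?_⟩⟩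
  obtain ⟨u, c, hu⟩ := exists_wc ψ
  have h1 : ψ x = ∑ k, b.coord k x * ψ (b k) := by
    have h2 := congrArg (inner ℝ u) (b.linear_combination_coord_eq_self x)
    simp only [inner_sum, inner_smul_right] at h2
    simp only [hu, mul_sub, sum_sub_distrib, h2, ← sum_mul, b.sum_coord_apply_eq_one, one_mul]
  rw [h1]
  simp [mul_comm]

lemma convex_face [Fintype ι] (h : ConvexIndependent ℝ p) (i : ι) : FaceI p univ {i} := by
  obtain ⟨f, u, h1, h2⟩ := geometric_hahn_banach_point_closed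
    (convex_convexHull ℝ (p '' (Set.univ \ {i}))) ((Set.toFinite _).isClosed_convexHull ℝ)
    (convexIndependent_iff_notMem_convexHull_sdiff.mp h i Set.univ)
  refine ⟨f.toLinearMap.toAffineMap - AffineMap.const ℝ _ (f (p i)), fun j _ => ?_⟩
  have e : (f.toLinearMap.toAffineMap - AffineMap.const ℝ (E d) (f (p i))) (p j) =
      f (p j) - f (p i) := by simp
  rw [e]
  by_cases hj : j = i
  · simp [hj]
  · have := h2 (p j) (subset_convexHull _ _ ⟨j, by simpa using hj, rfl⟩)
    exact ⟨by linarith, fun e => by linarith, fun e => absurd (mem_singleton.mp e) hj⟩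

lemma pair_face [Fintype ι] {g : E d →ᵃ[ℝ] X5} (hc : 5 ≤ Fintype.card ι) {r s : ι}
    (h : (chiOf fun v => g (p v)).Cov univ r s) : FaceI p univ {r, s} := by
  obtain ⟨w, -, w', -, hn, hF⟩ := h
  have h1 := fac_face (p := p) (g := g) (V := univ) (σ := ∅) (a := r) (b := s) (c := w) (e := w')
    (by simp) (by rwa [sdiff_empty])
  obtain ⟨ε, e1, e2⟩ := hF
  obtain ⟨t, -, ht⟩ := exists_mem_notMem_of_card_lt_card (s := {r, s, w, w'}) (t := univ)
    (lt_of_le_of_lt card_le_four (by simp; omega))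
  have h2 := sg_mul_pos e1 (e2 t (mem_univ _) (by simpa using ht))
  obtain ⟨φ1, a0, a1, a2, a3, -⟩ := d5_lin (g (p r)) (g (p s)) (g (p w)) (g (p t))
  obtain ⟨φ2, b0, b1, b2, b3, -⟩ := d5_lin (g (p r)) (g (p s)) (g (p w')) (g (p t))
  have e : ∀ x, ((ε : ℝ) • ((φ2 - φ1).toAffineMap.comp g)) x = ε * (φ2 (g x) - φ1 (g x)) := by
    intro x; simp
  refine face_perturb h1 (by intro x hx; grind) ((ε : ℝ) • ((φ2 - φ1).toAffineMap.comp g))
    (fun x hx => ?_) (fun x hx hx' => ?_)
  · rw [e]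
    rcases (by grind : x = r ∨ x = s) with rfl | rfl
    · simp [a1, b1]
    · simp [a2, b2]
  · rw [e]
    rcases (by grind : x = w ∨ x = w') with rfl | rfl
    · rw [a3, b0, d5_sw4, d5_sw3]; simpa using h2
    · rw [b3, a0, d5_sw4]; simpa using h2

lemma nb_of_pairs [Fintype ι] (hc : 3 ≤ Fintype.card ι)
    (h : ∀ r s, r ≠ s → FaceI p univ {r, s}) : NbI p univ ∅ := by
  refine ⟨empty_subset _, fun S _ hS => ?_⟩
  rw [sdiff_empty] at hS
  rcases (by omega : S.card = 0 ∨ S.card = 1 ∨ S.card = 2) with h0 | h0 | h0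
  · rw [card_eq_zero.mp h0]; exact face_empty
  · obtain ⟨r, rfl⟩ := card_eq_one.mp h0
    obtain ⟨s, -, hs⟩ := exists_mem_notMem_of_card_lt_card (s := {r}) (t := univ) (by simp; omega)
    obtain ⟨t, -, ht⟩ := exists_mem_notMem_of_card_lt_card (s := {r, s}) (t := univ)
      (lt_of_le_of_lt card_le_two (by simp; omega))
    have := (h r s (by grind)).inter (h r t (by grind))
    rwa [show ({r, s} ∩ {r, t} : Finset ι) = {r} by ext x; grind] at this
  · obtain ⟨r, s, hrs, rfl⟩ := card_eq_two.mp h0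
    exact h r s hrs

lemma RayLift.alift0 {n : ℕ} {A : Fin n → E d} {B : Fin (n + 1) → E (d + 1)} (h : RayLift A B) :
    ALift A B Fin.castSucc (Fin.last n) :=
  RayLift.alift (A := A) (Equiv.refl _) h

lemma lex_sign {ψ : Aff d} {x y z : E d} {b : Bool} (hz : ψ z = 0) (hy : ψ y ≠ 0) {n : ℕ}
    {u : Fin n → E d} (hu : ∀ k, ψ (u k) = 0)
    (h : ∀ (w : E d) (c : ℝ), w ≠ 0 → (∀ k, inner ℝ w (u k) = c) →
      if b then 0 < (inner ℝ w x - c) * (inner ℝ w y - c)
      else (inner ℝ w x - c) * (inner ℝ w y - c) < 0) :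
    sg (ψ x) = (if b then 1 else -1) * sg (ψ y) := by
  obtain ⟨w, c, hw⟩ := exists_wc ψ
  have := h w c (by rintro rfl; rw [hw] at hz hy; simp at hz hy; exact hy hz)
    (fun k => by have := hu k; rw [hw] at this; linarith)
  have e : (inner ℝ w x - c) * (inner ℝ w y - c) = ψ x * ψ y := by rw [hw, hw]; ring
  rw [e] at this
  cases b
  · simp only [Bool.false_eq_true, if_false] at this ⊢
    rw [sg_eq_of_mul_pos (x := ψ x) (y := -ψ y) (by linarith), sg_neg]; ring
  · simp only [if_true] at this ⊢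
    rw [sg_eq_of_mul_pos this, one_mul]

lemma sg_pos_mul {t x : ℝ} (ht : 0 < t) : sg (t * x) = sg x := by
  rcases sg_cases x with h | h | h
  · rw [h.2, sg_pos (mul_pos ht h.1)]
  · rw [h.1, mul_zero]
  · rw [h.2, sg_lt (mul_neg_of_pos_of_neg ht h.1)]

end general

lemma gale_base {m : ℕ} {A : Fin m → E 2} {ε : Fin m → Bool} {B : Fin (m + 1) → E 3}
    {C : Fin (m + 2) → E 4} (hA : ConvexIndependent ℝ A) (hB : LexLift ε A B)
    (hC : LexLift (fun _ => true) B C) :
    ∃ g : E 4 →ᵃ[ℝ] X5, ∃ P Q e, (chiOf fun v => g (C v)).Gale P Q e := by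
  obtain ⟨g, hg⟩ := exists_hom
  set χ := chiOf fun v => g (C v) with hχ
  let P : Fin (m + 2) := (Fin.last m).castSucc
  let Q : Fin (m + 2) := Fin.last (m + 1)
  have hP : P.val = m := rfl
  have hQ : Q.val = m + 1 := rfl
  have QQ : QD C ∅ g := ⟨by simp, fun ψ _ => hg ψ⟩
  have L1 := hB.1.alift0
  have L2 := hC.1.alift0
  have rep : ∀ x : Fin (m + 2), x.val < m → ∃ i : Fin m, i.castSucc.castSucc = x :=
    fun x hx => ⟨⟨x.val, hx⟩, rfl⟩
  have F0 : FaceI C univ {Q, P} := by simpa using L2.face1 (L1.face1 face_empty)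
  have F1 : ∀ x : Fin (m + 2), x ∉ [P, Q] → FaceI C univ (insert x {Q, P}) := by
    intro x hx
    simp only [List.mem_cons, List.not_mem_nil, Fin.ext_iff, or_false] at hx
    obtain ⟨i, rfl⟩ := rep x (by omega)
    have := L2.face1 (L1.face1 (convex_face hA i))
    simp only [image_insert, image_singleton] at this
    rwa [show (insert i.castSucc.castSucc {Q, P} : Finset (Fin (m + 2))) =
      {Q, P, i.castSucc.castSucc} by clear * -; ext x; grind]
  have dnz : ∀ a b c, [P, Q, a, b, c].Nodup →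
      d5 (g (C P)) (g (C Q)) (g (C a)) (g (C b)) (g (C c)) ≠ 0 := by
    intro a b c hn h
    obtain ⟨l, l0, hl⟩ := d5_dep h
    simp only [Fin.sum_univ_five, Matrix.cons_val_zero, Matrix.cons_val_one, Matrix.cons_val] at hl
    have hD : Dep C {Q, P} ![a, b, c] ![l 2, l 3, l 4] := by
      intro ψ hψ
      obtain ⟨φ, hφ⟩ := hg ψ
      have := hl φ
      simp only [← hφ, hψ Q (by simp), hψ P (by simp)] at this
      simpa [Fin.sum_univ_three] using this
    have h0 := hD.small (subset_univ _) (fun _ => mem_univ _)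
      (by clear * - hn; intro k; fin_cases k <;> simp <;> grind)
      (inj_of_nodup _ hn.of_cons.of_cons) F0
      (by intro k; fin_cases k <;> exact F1 _ (by clear * - hn; simp; grind))
    have l2 : l 2 = 0 := congrFun h0 0
    have l3 : l 3 = 0 := congrFun h0 1
    have l4 : l 4 = 0 := congrFun h0 2
    obtain ⟨t, ht, hx⟩ := L2.ext
    obtain ⟨ψ, a1, a2⟩ := hx (AffineMap.const ℝ _ 1)
    obtain ⟨φ, hφ⟩ := hg ψ
    have b1 := hl φ
    simp only [← hφ, l2, l3, l4, P, Q, a1, a2] at b1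
    have l0' : l 0 = 0 := by simpa [(ht _).ne'] using b1
    obtain ⟨φ', hφ'⟩ := hg (AffineMap.const ℝ _ 1)
    have b2 := hl φ'
    simp only [← hφ', l2, l3, l4, l0'] at b2
    have l1 : l 1 = 0 := by simpa using b2
    apply l0
    ext k; fin_cases k <;> simp [l0', l1, l2, l3, l4]
  have nz : ∀ a b c, [P, Q, a, b, c].Nodup → χ.s P Q a b c = 1 ∨ χ.s P Q a b c = -1 := by
    intro a b c hn
    have := dnz a b c hn
    rw [hχ, chiOf_s]
    rcases sg_cases (d5 (g (C P)) (g (C Q)) (g (C a)) (g (C b)) (g (C c))) with h | h | h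
    · exact Or.inl h.2
    · exact absurd h.1 this
    · exact Or.inr h.2
  have pol : χ.Pol univ P Q := by
    refine ⟨fun a _ b _ c _ => nz a b c, fun a _ b _ c _ e _ hn => ?_⟩
    have hD : Dep C {Q, P} ![a, b, c, e]
        ![d5 (g (C P)) (g (C Q)) (g (C b)) (g (C c)) (g (C e)),
          -d5 (g (C P)) (g (C Q)) (g (C a)) (g (C c)) (g (C e)),
          d5 (g (C P)) (g (C Q)) (g (C a)) (g (C b)) (g (C e)),
          -d5 (g (C P)) (g (C Q)) (g (C a)) (g (C b)) (g (C c))] := by
      intro ψ hψ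
      have := QQ.co_dep P Q a b c e ψ (by simp)
      simp only [Fin.sum_univ_six, co, Matrix.cons_val_zero, Matrix.cons_val_one, Matrix.cons_val,
        hψ Q (by simp), hψ P (by simp)] at this
      simp only [Fin.sum_univ_four, Matrix.cons_val_zero, Matrix.cons_val_one, Matrix.cons_val]
      linear_combination this
    have := hD.two_two (subset_univ _) (fun _ => mem_univ _)
      (by clear * - hn; intro k; fin_cases k <;> simp <;> grind)
      (inj_of_nodup _ hn.of_cons.of_cons) F0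
      (by intro k; fin_cases k <;> exact F1 _ (by clear * - hn; simp; grind))
      (dnz b c e (by clear * - hn; grind))
    simp only [Fin.sum_univ_four, Matrix.cons_val_zero, Matrix.cons_val_one, Matrix.cons_val,
      sg_neg] at this
    simp only [hχ, chiOf_s]
    omega
  let e : Fin (m + 2) → ℤ := fun x => if h : x.val < m then (if ε ⟨x.val, h⟩ then 1 else -1) else 1
  have he : ∀ i, e i = 1 ∨ e i = -1 := by
    intro i; simp only [e]; split_ifs <;> simp
  have sne : ∀ a b c e f, χ.s a b c e f ≠ 0 →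
      d5 (g (C a)) (g (C b)) (g (C c)) (g (C e)) (g (C f)) ≠ 0 := by
    intro a b c e f h h0
    apply h
    rw [hχ, chiOf_s, h0]; simp [sg]
  have h1 : ∀ a b c i, a < i → b < i → c < i → i < P → [a, b, c].Nodup →
      χ.s Q a b c i = e i * χ.s Q a b c P := by
    intro a b c i ha hb hc hi hn
    have n0 : χ.s Q a b c P ≠ 0 := by
      have := nz a b c (by
        simp only [List.nodup_cons, List.mem_cons, List.not_mem_nil, List.nodup_nil, Fin.ext_iff,
          or_false, not_false_eq_true, and_true] at hn ⊢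
        omega)
      rw [χ.cyc P]; omega
    have n1 := sne _ _ _ _ _ n0
    obtain ⟨a, rfl⟩ := rep a (by omega)
    obtain ⟨b, rfl⟩ := rep b (by omega)
    obtain ⟨c, rfl⟩ := rep c (by omega)
    obtain ⟨i, rfl⟩ := rep i (by omega)
    obtain ⟨t, ht, hCB, -⟩ := hC.1.ext
    obtain ⟨φ, hφ, z0, z1, z2, z3⟩ := d5_lin (g (C Q)) (g (C a.castSucc.castSucc))
      (g (C b.castSucc.castSucc)) (g (C c.castSucc.castSucc))
    let ψ : Aff 3 := φ.toAffineMap.comp (g.comp (embL 3).toAffineMap)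
    have key : ∀ j : Fin (m + 1), φ (g (C j.castSucc)) = t j * ψ (B j) := by
      intro j
      rw [hCB, aff_line]
      simp only [map_add, map_smul, map_sub, smul_eq_mul]
      rw [z0]; simp [ψ, embL]
    have kz : ∀ j : Fin (m + 1), φ (g (C j.castSucc)) = 0 → ψ (B j) = 0 := fun j hj =>
      (mul_eq_zero.mp (key j ▸ hj)).resolve_left (ht j).ne'
    have hJ : Function.Injective ![a, b, c] := inj_of_nodup _ (by
      have : [a, b, c].Nodup := List.Nodup.of_map (fun i : Fin m => i.castSucc.castSucc) hn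
      exact this)
    have hI : AffineIndependent ℝ fun k => B (![a, b, c] k).castSucc := by
      refine affInd_of_dep _ fun l hl => ?_
      obtain ⟨s, hs, hx⟩ := L1.ext
      have hD : Dep A ∅ ![a, b, c] fun k => l k * s (![a, b, c] k) := by
        intro ψ _
        obtain ⟨ψ', -, a2⟩ := hx ψ
        simpa only [a2, mul_assoc] using hl ψ'
      have := hD.small (subset_univ _) (fun _ => mem_univ _) (by simp) hJ face_empty
        (fun k => by simpa using convex_face hA _)
      funext k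
      exact (mul_eq_zero.mp (congrFun this k)).resolve_right (hs _).ne'
    have := lex_sign (ψ := ψ) (kz _ z1) (fun h => n1 (by rw [← hφ, key, h, mul_zero]))
      (by intro k; fin_cases k; exacts [kz _ z1, kz _ z2, kz _ z3])
      (hB.2 i ![a, b, c] (by intro k; fin_cases k; exacts [ha, hb, hc]) hI)
    simp only [hχ, chiOf_s, ← hφ, P, key, sg_pos_mul (ht _), this]
    simp [e]
  have n2 : ∀ a b c r, a < P → b < P → c < P → r < P → [a, b, c, r].Nodup →
      χ.s a b c r Q ≠ 0 := by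
    have base : ∀ a b c r, a < r → b < r → c < r → r < P → [a, b, c].Nodup →
        χ.s a b c r Q ≠ 0 := by
      intro a b c r ha hb hc hr hn
      have := nz a b c (by
        simp only [List.nodup_cons, List.mem_cons, List.not_mem_nil, List.nodup_nil, Fin.ext_iff,
          or_false, not_false_eq_true, and_true] at hn ⊢
        omega)
      rw [χ.cyc Q, h1 a b c r ha hb hc hr hn, χ.cyc P]
      rcases he r with h | h <;> rw [h] <;> omega
    intro a b c r ha hb hc hr hn
    have hn' := hn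
    simp only [List.nodup_cons, List.mem_cons, List.not_mem_nil, List.nodup_nil, Fin.ext_iff,
      or_false, not_false_eq_true, and_true] at hn'
    rcases (by omega : (a < r ∧ b < r ∧ c < r) ∨ (a < c ∧ b < c ∧ r < c) ∨
      (a < b ∧ c < b ∧ r < b) ∨ (b < a ∧ c < a ∧ r < a)) with h | h | h | h
    · exact base a b c r h.1 h.2.1 h.2.2 hr (by clear * - hn; grind)
    · have := base a b r c h.1 h.2.1 h.2.2 hc (by clear * - hn; grind)
      rw [χ.sw3] at this; omega
    · have := base a c r b h.1 h.2.1 h.2.2 hb (by clear * - hn; grind)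
      rwa [χ.c234] at this
    · have := base b c r a h.1 h.2.1 h.2.2 ha (by clear * - hn; grind)
      rw [χ.c1234] at this; omega
  refine ⟨g, P, Q, e, hP, hQ, pol, he, h1, fun a b c r i ha hb hc hr hi hn => ?_⟩
  have n1 := sne _ _ _ _ _ (n2 a b c r (by omega) (by omega) (by omega) (by omega) hn)
  have rep' : ∀ x : Fin (m + 2), x.val < m + 1 → ∃ i : Fin (m + 1), i.castSucc = x :=
    fun x hx => ⟨⟨x.val, hx⟩, rfl⟩
  obtain ⟨a, rfl⟩ := rep' a (by omega)
  obtain ⟨b, rfl⟩ := rep' b (by omega)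
  obtain ⟨c, rfl⟩ := rep' c (by omega)
  obtain ⟨r, rfl⟩ := rep' r (by omega)
  obtain ⟨i, rfl⟩ := rep' i (by omega)
  obtain ⟨φ, hφ, z0, z1, z2, z3⟩ := d5_lin (g (C a.castSucc)) (g (C b.castSucc))
    (g (C c.castSucc)) (g (C r.castSucc))
  have hI : AffineIndependent ℝ fun k => C (![a, b, c, r] k).castSucc := by
    refine affInd_of_dep _ fun l hl => ?_
    have := d5_indep n1 ![l 0, l 1, l 2, l 3, 0] fun φ => by
      simpa [Fin.sum_univ_four, Fin.sum_univ_five] using hl (φ.toAffineMap.comp g)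
    funext k
    fin_cases k
    exacts [congrFun this 0, congrFun this 1, congrFun this 2, congrFun this 3]
  have := lex_sign (ψ := φ.toAffineMap.comp g) z0 (fun h => n1 (by rw [← hφ]; exact h))
    (by intro k; fin_cases k; exacts [z0, z1, z2, z3])
    (hC.2 i ![a, b, c, r] (by intro k; fin_cases k; exacts [ha, hb, hc, hr]) hI)
  simp only [chiOf_s, ← hφ]
  simpa using this

lemma GaleLifted.inv {d n : ℕ} {A : Fin n → E d} (h : GaleLifted d n A) (hn : d + 9 ≤ n) :
    ∃ σ : Finset (Fin n), σ.card + 4 = d ∧ NbI A univ σ ∧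
      PatA (fun x y z w => FaceI A univ (σ ∪ {x, y, z, w})) (univ \ σ) := by
  induction h with
  | @base m A ε B C hA hB hC =>
    obtain ⟨g, P, Q, e, hG⟩ := gale_base hA hB hC
    refine ⟨∅, rfl, nb_of_pairs (by simp; omega) fun r s hrs =>
      pair_face (by simp; omega) (hG.cov (by omega) r s hrs), ?_⟩
    have := hG.patA (by omega)
    rw [← sdiff_empty (s := univ)] at this
    exact this.imp fun _ _ _ _ _ _ _ _ => fac_face (by simp)
  | @lift d n A π B _ hB ih =>
    obtain ⟨σ, h1, h2, h3⟩ := ih (by omega)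
    have L := hB.alift π
    refine ⟨_, ?_, L.nb h2, L.patA h3⟩
    rw [card_insert_of_notMem (by simp [L.ne]), card_image_of_injective _ L.inj]
    omega

theorem gale_not_circ {d n : ℕ} {A : Fin n → E d} (h : GaleLifted d n A) (hn : d + 9 ≤ n) :
    ¬ Circumscribable (univ.image A) := by
  obtain ⟨σ, h1, h2, h3⟩ := h.inv hn
  exact not_circ h2 h1 h2.injOn (Or.inl h3)

end Pool.Agent.MP_04a200_co

end MrgPart2

-- marker of a merged file
example : 731051 + 660051 = 731051 + 660051 := rfl
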