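import Pool.Agent.MP_04a200_co.SewAny

/-! Eleven times sewn neighborly quotients are not circumscribable. -/

set_option autoImplicit false

open Classical

namespace Pool.Agent.MP_04a200_co

open Finset

variable {d : ℕ} {V σ : Finset (E d)}

lemma sewn_sign {g : E d →ᵃ[ℝ] X5} (hN : NbI id V σ) (Q : QD id σ g) (k : ℕ) :
    ∀ V' ⊆ V, σ ⊆ V' → SewnTimes σ k V' → (chiOf fun v => g (id v)).Sewn k (V' \ σ) := by
  induction k with
  | zero => intro V' _ _ _; exact Chi.Sewn.zero _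
  | succ k ih =>
    rintro V' hV hσ ⟨u, ⟨x, hx, m, hm, z, hz, n1, n2, n3, hu, U1, U2⟩, hS⟩
    have hu' : u ∈ V' \ σ := by rcases hu with rfl | rfl | rfl <;> assumption
    have h1 := ih (V'.erase u) ((erase_subset _ _).trans hV) 
      (fun s hs => mem_erase.mpr ⟨fun e => (mem_sdiff.mp hu').2 (e ▸ hs), hσ hs⟩) hS
    have e : insert u (V'.erase u \ σ) = V' \ σ := by
      rw [erase_sdiff_comm, insert_erase hu']
    have i1 := hN.insep Q hV hσ hx hm n1 fun t ht => (isFace_iff _ _).1 (U1 t ht)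
    have i2 := hN.insep Q hV hσ hm hz n3 fun t ht => (isFace_iff _ _).1 (U2 t ht)
    rw [← e] at i1 i2 hx hm hz ⊢
    exact h1.any_step (by simp) hx hm hz (by simp [n1, n2, n3]) (by simpa using hu) i1 i2

theorem sewn_not_circ (hd : σ.card + 4 = d) (hN : NeighborlyOver V σ) (hS : SewnTimes σ 11 V)
    (hc : d + 114 ≤ V.card) : ¬ Circumscribable V := by
  have hN' : NbI id V σ := ⟨hN.1, fun S h1 h2 => (isFace_iff _ _).1 (hN.2 S h1 h2)⟩
  have hcard : 118 ≤ (V \ σ).card := by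
    have := card_sdiff_add_card_eq_card hN.1
    omega
  obtain ⟨t, ht⟩ : ∃ t : Fin 5 ↪ E d, ∀ k, t k ∈ V \ σ := by
    obtain ⟨T, hT, hc5⟩ := exists_subset_card_eq (show 5 ≤ (V \ σ).card by omega)
    exact ⟨(T.equivFinOfCardEq hc5).symm.toEmbedding.trans (Function.Embedding.subtype _),
      fun k => hT ((T.equivFinOfCardEq hc5).symm k).2⟩
  obtain ⟨g, Q⟩ := hN'.quot hd t t.injective ht
  have := not_circ hN' hd (Set.injOn_id _)
    (((sewn_sign hN' Q 11 V Subset.rfl hN.1 hS).pat (hN'.nz Q) (hN'.circ Q) hcard).imp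
      (fun h => h.imp fun _ _ _ _ _ _ _ _ => fac_face Q.q1)
      (fun h => h.imp fun _ _ _ _ _ _ _ _ => fac_face Q.q1))
  rwa [image_id] at this

end Pool.Agent.MP_04a200_co
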